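import Mathlib

/-!
# Landau's reduction: products of polynomials modulo which `-1` is a sum of squares
-/

set_option autoImplicit false

namespace Pool.Agent.Q107.HG

open Finset Polynomial

/-- a sum of squares vanishes only trivially -/
def FR (R : Type) [CommRing R] : Prop :=
  ∀ (n : ℕ) (g : ℕ → R), ∑ i ∈ range n, g i * g i = 0 → ∀ i ∈ range n, g i = 0

lemma fr_real : FR ℝ := by
  intro n g h i hi
  exact mul_self_eq_zero.1 ((sum_eq_zero_iff_of_nonneg fun i _ => mul_self_nonneg (g i)).1 h i hi)

lemma coeff_sum_two {R : Type} [CommRing R] {n : ℕ} {g : ℕ → R[X]} {k : ℕ}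
    (h : ∀ j < k, ∀ i ∈ range n, (g i).coeff j = 0) :
    (∑ i ∈ range n, g i * g i).coeff (k + k)
      = ∑ i ∈ range n, (g i).coeff k * (g i).coeff k := by
  rw [finsetSum_coeff]
  refine sum_congr rfl fun i hi => ?_
  rw [coeff_mul, sum_eq_single (k, k)]
  · rintro ⟨a, b⟩ hab hne
    rw [HasAntidiagonal.mem_antidiagonal] at hab
    rcases lt_trichotomy a k with h1 | h1 | h1
    · rw [h a h1 i hi, zero_mul]
    · exact absurd (Prod.ext h1 (by simp only at hab ⊢; omega)) hne
    · rw [h b (by simp only at hab; omega) i hi, mul_zero]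
  · intro hc
    exact absurd (HasAntidiagonal.mem_antidiagonal.2 (by rfl)) hc

lemma fr_poly {R : Type} [CommRing R] (hR : FR R) : FR R[X] := by
  intro n g h
  have key : ∀ k, ∀ i ∈ range n, (g i).coeff k = 0 := by
    intro k
    induction k using Nat.strong_induction_on with
    | _ k ih =>
      have h1 := coeff_sum_two ih
      rw [h, coeff_zero] at h1
      exact hR n _ h1.symm
  intro i hi
  ext k
  rw [key k i hi, coeff_zero]

lemma fr_frac {R : Type} [CommRing R] [IsDomain R] (hR : FR R) : FR (FractionRing R) := by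
  intro n g h
  obtain ⟨b, hb⟩ := IsLocalization.exist_integer_multiples (nonZeroDivisors R) (range n) g
  choose! c hc using hb
  have hb0 : algebraMap R (FractionRing R) (b : R) ≠ 0 := by
    intro h0
    have := IsFractionRing.injective R (FractionRing R) (h0.trans (map_zero _).symm)
    exact nonZeroDivisors.coe_ne_zero b this
  have h1 : ∑ i ∈ range n, c i * c i = 0 := by
    apply IsFractionRing.injective R (FractionRing R)
    rw [map_zero, map_sum]
    have : ∑ i ∈ range n, algebraMap R (FractionRing R) (c i * c i)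
        = algebraMap R (FractionRing R) b * algebraMap R (FractionRing R) b
          * ∑ i ∈ range n, g i * g i := by
      rw [mul_sum]
      refine sum_congr rfl fun i hi => ?_
      rw [map_mul, hc i hi, Algebra.smul_def]
      ring
    rw [this, h, mul_zero]
  intro i hi
  have h2 := hc i hi
  rw [hR n c h1 i hi, map_zero, Algebra.smul_def] at h2
  exact (mul_eq_zero.1 h2.symm).resolve_left hb0

lemma exists_range {R : Type*} [CommRing R] {a : R} (h : IsSumSq a) :
    ∃ (n : ℕ) (g : ℕ → R), a = ∑ i ∈ range n, g i * g i := by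
  induction h with
  | zero => exact ⟨0, fun _ => 0, by simp⟩
  | @sq_add b s _ ih =>
    obtain ⟨n, g, rfl⟩ := ih
    refine ⟨n + 1, fun i => if i < n then g i else b, ?_⟩
    rw [sum_range_succ, add_comm]
    simp only [lt_irrefl, if_false]
    congr 1
    refine sum_congr rfl fun i hi => ?_
    rw [if_pos (mem_range.1 hi)]

lemma sumsq_range {R : Type*} [CommRing R] (n : ℕ) (g : ℕ → R) :
    IsSumSq (∑ i ∈ range n, g i * g i) := by
  induction n with
  | zero => rw [range_zero, sum_empty]; exact IsSumSq.zero
  | succ n ih =>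
    rw [sum_range_succ]
    exact ih.add (IsSumSq.mul_self _)

lemma fr_one {R : Type} [CommRing R] [Nontrivial R] (hR : FR R) {s : R} (hs : IsSumSq s) :
    1 + s ≠ 0 := by
  intro h
  obtain ⟨n, g, e⟩ := exists_range ((IsSumSq.mul_self (1 : R)).add hs)
  have h1 : ∃ (n : ℕ) (g : ℕ → R), s = ∑ i ∈ range n, g i * g i := exists_range hs
  obtain ⟨m, g', e'⟩ := h1
  have h2 : ∑ i ∈ range (m + 1), (if i < m then g' i else 1) * (if i < m then g' i else 1)
      = 0 := by
    rw [sum_range_succ, if_neg (lt_irrefl m), ← h, e', mul_one, add_comm]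
    congr 1
    refine sum_congr rfl fun i hi => ?_
    rw [if_pos (mem_range.1 hi)]
  have h3 := hR (m + 1) (fun i => if i < m then g' i else 1) h2 m (mem_range.2 (by omega))
  simp only [lt_irrefl, if_false] at h3
  exact one_ne_zero h3

section

variable {K : Type} [Field K]

lemma lc_sumsq (hK : FR K) {P : K[X]} (hP : IsSumSq P) : IsSumSq P.leadingCoeff := by
  obtain ⟨n, g, rfl⟩ := exists_range hP
  set D := (range n).sup fun i => (g i).natDegree with hD
  have hle : ∀ i ∈ range n, (g i).natDegree ≤ D := fun i hi =>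
    le_sup (f := fun i => (g i).natDegree) hi
  have hc : (∑ i ∈ range n, g i * g i).coeff (D + D)
      = ∑ i ∈ range n, (g i).coeff D * (g i).coeff D := by
    rw [finsetSum_coeff]
    refine sum_congr rfl fun i hi => ?_
    rw [coeff_mul_add_eq_of_natDegree_le (hle i hi) (hle i hi)]
  by_cases h : (∑ i ∈ range n, g i * g i).coeff (D + D) = 0
  · have h1 := hK n _ (hc.symm.trans h)
    have h2 : D = 0 := by
      by_contra hD0
      have hne : (range n).Nonempty := by
        by_contra hc
        rw [not_nonempty_iff_eq_empty] at hc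
        rw [hc, sup_empty] at hD
        exact hD0 hD
      obtain ⟨i, hi, e⟩ := exists_mem_eq_sup _ hne fun i => (g i).natDegree
      rw [← hD] at e
      have h3 := h1 i hi
      rw [e] at h3
      have h4 : g i = 0 := leadingCoeff_eq_zero.1 h3
      rw [h4, natDegree_zero] at e
      exact hD0 e
    have h5 : ∑ i ∈ range n, g i * g i = 0 := by
      refine sum_eq_zero fun i hi => ?_
      have h6 : g i = 0 := by
        have h7 := h1 i hi
        rw [h2] at h7
        rw [eq_C_of_natDegree_eq_zero (p := g i) (by have := hle i hi; omega), h7, map_zero]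
      rw [h6, mul_zero]
    rw [h5, leadingCoeff_zero]
    exact IsSumSq.zero
  · have h1 : (∑ i ∈ range n, g i * g i).natDegree = D + D := by
      refine le_antisymm (natDegree_sum_le_of_forall_le _ _ fun i hi => ?_)
        (le_natDegree_of_ne_zero h)
      exact natDegree_mul_le.trans (Nat.add_le_add (hle i hi) (hle i hi))
    rw [leadingCoeff, h1, hc]
    exact sumsq_range n _

lemma sumsq_map {R S : Type*} [CommRing R] [CommRing S] (φ : R →+* S) {a : R}
    (h : IsSumSq a) : IsSumSq (φ a) := by
  induction h with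
  | zero => rw [map_zero]; exact IsSumSq.zero
  | sq_add b _ ih =>
    rw [map_add, map_mul]
    exact IsSumSq.sq_add _ ih

/-- sum of squares up to the square of a nonzero factor -/
def SS (r : K[X]) : Prop := ∃ h : K[X], h ≠ 0 ∧ IsSumSq (h * h * r)

/-- `-1` is a sum of squares modulo `p` -/
def TT (p : K[X]) : Prop := ∃ s : K[X], IsSumSq s ∧ p ∣ 1 + s

lemma SS.of {r : K[X]} (h : IsSumSq r) : SS r := ⟨1, one_ne_zero, by rwa [one_mul, one_mul]⟩

lemma SS.mul {r q : K[X]} (h : SS r) (h' : SS q) : SS (r * q) := by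
  obtain ⟨a, ha, h1⟩ := h
  obtain ⟨b, hb, h2⟩ := h'
  refine ⟨a * b, mul_ne_zero ha hb, ?_⟩
  have := h1.mul h2
  rwa [show a * a * r * (b * b * q) = a * b * (a * b) * (r * q) by ring] at this

lemma SS.cancel {r q : K[X]} (h : SS (r * q)) (h' : SS q) (hq : q ≠ 0) : SS r := by
  obtain ⟨a, ha, h1⟩ := h
  obtain ⟨b, hb, h2⟩ := h'
  refine ⟨a * b * q, mul_ne_zero (mul_ne_zero ha hb) hq, ?_⟩
  have := h1.mul h2
  rwa [show a * a * (r * q) * (b * b * q) = a * b * q * (a * b * q) * r by ring] at this

lemma SS.const {q : K[X]} (h0 : q.natDegree = 0) (h : IsSumSq q.leadingCoeff) : SS q := by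
  apply SS.of
  rw [leadingCoeff, h0] at h
  rw [eq_C_of_natDegree_eq_zero h0]
  exact sumsq_map (C : K →+* K[X]) h

lemma lc_mul_monic {p q : K[X]} (hp : p.Monic) : (p * q).leadingCoeff = q.leadingCoeff := by
  rw [leadingCoeff_mul, hp.leadingCoeff, one_mul]

lemma fac {n : ℕ} (hL : ∀ r : K[X], r.Monic → Irreducible r → r.natDegree ≤ n → TT r → SS r) :
    ∀ k, ∀ q : K[X], q ≠ 0 → q.natDegree ≤ k → q.natDegree ≤ n → IsSumSq q.leadingCoeff →
      (∀ p : K[X], p.Monic → Irreducible p → p ∣ q → TT p) → SS q := by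
  intro k
  induction k with
  | zero => exact fun q _ h0 _ hlc _ => SS.const (Nat.le_zero.1 h0) hlc
  | succ k ih =>
    intro q hq hqk hqn hlc hT
    by_cases h0 : q.natDegree = 0
    · exact SS.const h0 hlc
    obtain ⟨p, hpm, hpi, q', rfl⟩ := exists_monic_irreducible_factor q (by
      intro hu
      exact h0 (natDegree_eq_zero_of_isUnit hu))
    have hq' : q' ≠ 0 := right_ne_zero_of_mul hq
    have hdeg : (p * q').natDegree = p.natDegree + q'.natDegree :=
      natDegree_mul hpm.ne_zero hq'
    have hp0 : 0 < p.natDegree := hpi.natDegree_pos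
    rw [lc_mul_monic hpm] at hlc
    exact (hL p hpm hpi (by omega) (hT p hpm hpi (dvd_mul_right _ _))).mul
      (ih q' hq' (by omega) (by omega) hlc
        (fun p' h1 h2 h3 => hT p' h1 h2 (h3.mul_left _)))

theorem landau (hK : FR K) : ∀ n, ∀ r : K[X], r.Monic → Irreducible r → r.natDegree ≤ n →
    TT r → SS r := by
  intro n
  induction n with
  | zero =>
    intro r _ hi h0 _
    have := hi.natDegree_pos
    omega
  | succ n ih =>
    intro r hm hi hn hT
    obtain ⟨s, hs, hdvd⟩ := hT
    obtain ⟨k, g, rfl⟩ := exists_range hs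
    have hr0 : 0 < r.natDegree := hi.natDegree_pos
    set P := 1 + ∑ i ∈ range k, (g i % r) * (g i % r) with hP
    have hPs : IsSumSq P := by
      have := (IsSumSq.mul_self (1 : K[X])).add (sumsq_range k fun i => g i % r)
      rwa [mul_one] at this
    have hP0 : P ≠ 0 := fr_one (fr_poly hK) (sumsq_range k fun i => g i % r)
    have hrP : r ∣ P := by
      have h1 : r ∣ ∑ i ∈ range k, g i * g i - ∑ i ∈ range k, (g i % r) * (g i % r) := by
        rw [← sum_sub_distrib]
        refine dvd_sum fun i _ => ?_
        have e := EuclideanDomain.div_add_mod (g i) r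
        have e2 : g i * g i - (g i % r) * (g i % r)
            = r * ((g i / r) * (g i + g i % r)) := by
          linear_combination (-(g i + g i % r)) * e
        rw [e2]
        exact dvd_mul_right _ _
      have h2 := dvd_sub hdvd h1
      rwa [show 1 + ∑ i ∈ range k, g i * g i
        - (∑ i ∈ range k, g i * g i - ∑ i ∈ range k, (g i % r) * (g i % r)) = P by
          rw [hP]; ring] at h2
    obtain ⟨q, hq⟩ := hrP
    have hq0 : q ≠ 0 := by
      rintro rfl
      rw [mul_zero] at hq
      exact hP0 hq
    have hPdeg : P.natDegree ≤ (r.natDegree - 1) + (r.natDegree - 1) := by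
      rw [hP]
      refine natDegree_add_le_of_degree_le (by rw [natDegree_one]; omega) ?_
      refine natDegree_sum_le_of_forall_le _ _ fun i _ => ?_
      have h3 : (g i % r).natDegree ≤ r.natDegree - 1 := by
        have := natDegree_mod_lt (g i) hr0.ne'
        omega
      exact natDegree_mul_le.trans (Nat.add_le_add h3 h3)
    have hPdeg2 : P.natDegree = r.natDegree + q.natDegree := by
      rw [hq, natDegree_mul hm.ne_zero hq0]
    have hlc : IsSumSq q.leadingCoeff := by
      rw [← lc_mul_monic (q := q) hm, ← hq]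
      exact lc_sumsq hK hPs
    have hSq : SS q := by
      refine fac ih q.natDegree q hq0 le_rfl (by omega) hlc fun p _ _ hpq => ?_
      exact ⟨∑ i ∈ range k, (g i % r) * (g i % r), sumsq_range k fun i => g i % r,
        hpq.trans ⟨r, by rw [← hP, hq]; ring⟩⟩
    have hSr : SS (r * q) := by
      rw [← hq]
      exact SS.of hPs
    exact hSr.cancel hSq hq0

theorem all_fac (hK : FR K) : ∀ k, ∀ F : K[X], F ≠ 0 → F.natDegree ≤ k →
    IsSumSq F.leadingCoeff →
    (∀ (p : K[X]) (m : ℕ) (q : K[X]), p.Monic → Irreducible p → Odd m → F = p ^ m * q →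
      ¬ p ∣ q → TT p) → SS F := by
  intro k
  induction k with
  | zero => exact fun F _ h0 hlc _ => SS.const (Nat.le_zero.1 h0) hlc
  | succ k ih =>
    intro F hF hFk hlc hT
    by_cases h0 : F.natDegree = 0
    · exact SS.const h0 hlc
    obtain ⟨p, hpm, hpi, hpF⟩ := exists_monic_irreducible_factor F (by
      intro hu
      exact h0 (natDegree_eq_zero_of_isUnit hu))
    obtain ⟨q, e, hpq⟩ := (FiniteMultiplicity.of_not_isUnit hpi.not_isUnit hF).exists_eq_pow_mul_and_not_dvd
    have hm1 : multiplicity p F ≠ 0 := by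
      intro h1
      rw [h1, pow_zero, one_mul] at e
      exact hpq (e ▸ hpF)
    generalize multiplicity p F = m at e hm1
    subst e
    have hq : q ≠ 0 := right_ne_zero_of_mul hF
    have hdeg : (p ^ m * q).natDegree = m * p.natDegree + q.natDegree := by
      rw [natDegree_mul (pow_ne_zero _ hpm.ne_zero) hq, natDegree_pow]
    have hp0 : 0 < m * p.natDegree := Nat.mul_pos (Nat.pos_of_ne_zero hm1) hpi.natDegree_pos
    rw [lc_mul_monic (hpm.pow m)] at hlc
    have hSq : SS q := by
      refine ih q hq (by omega) hlc fun p' m' q' h1 h2 h3 h4 h5 => ?_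
      refine hT p' m' (p ^ m * q') h1 h2 h3 (by rw [h4]; ring) fun h6 => ?_
      rcases h2.prime.dvd_or_dvd h6 with h7 | h7
      · have h8 := h2.prime.dvd_of_dvd_pow h7
        have h9 : p' = p := eq_of_monic_of_associated h1 hpm (h2.associated_of_dvd hpi h8)
        apply hpq
        rw [h4, h9]
        obtain ⟨j, rfl⟩ := h3
        exact (dvd_pow_self p (by omega)).mul_right _
      · exact h5 h7
    refine SS.mul ?_ hSq
    rcases Nat.even_or_odd m with ⟨j, rfl⟩ | hodd
    · apply SS.of
      rw [pow_add]
      exact IsSumSq.mul_self _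
    · obtain ⟨h, hh, h1⟩ := landau hK p.natDegree p hpm hpi le_rfl
        (hT p m q hpm hpi hodd rfl hpq)
      obtain ⟨j, rfl⟩ := hodd
      refine ⟨h, hh, ?_⟩
      have := (IsSumSq.mul_self (p ^ j)).mul h1
      rwa [show p ^ j * p ^ j * (h * h * p) = h * h * p ^ (2 * j + 1) by ring] at this

end

end Pool.Agent.Q107.HG
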