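import Mathlib
import Pool.Agent.Q107.HG.Landau

/-!
# Removing the denominator (Cassels)
-/

set_option autoImplicit false

namespace Pool.Agent.Q107.HG

open Finset Polynomial

variable {K : Type} [Field K]

theorem cassels (hK : FR K) (n : ℕ) (F : K[X]) : ∀ k, ∀ h : K[X], h ≠ 0 → h.natDegree ≤ k →
    ∀ g : ℕ → K[X], h * h * F = ∑ i ∈ range n, g i * g i → IsSumSq F := by
  intro k
  induction k with
  | zero =>
    intro h hh h0 g e
    obtain ⟨c, rfl⟩ : ∃ c : K, h = C c :=
      ⟨_, eq_C_of_natDegree_eq_zero (Nat.le_zero.1 h0)⟩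
    have hc : c ≠ 0 := fun hc => hh (by rw [hc, map_zero])
    have e2 : F = ∑ i ∈ range n, (C c⁻¹ * g i) * (C c⁻¹ * g i) := by
      have e3 : ∑ i ∈ range n, (C c⁻¹ * g i) * (C c⁻¹ * g i)
          = C c⁻¹ * C c⁻¹ * ∑ i ∈ range n, g i * g i := by
        rw [mul_sum]
        exact sum_congr rfl fun i _ => by ring
      have e4 : (C c⁻¹ * C c : K[X]) = 1 := by rw [← C_mul, inv_mul_cancel₀ hc, C_1]
      rw [e3, ← e]
      linear_combination (-(C c⁻¹ * C c + 1) * F) * e4
    rw [e2]
    exact sumsq_range n _
  | succ k ih =>
    intro h hh hk g e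
    by_cases h0 : h.natDegree ≤ k
    · exact ih h hh h0 g e
    have hdeg : h.natDegree = k + 1 := by omega
    set w : ℕ → K[X] := fun i => g i / h with hw
    set r : ℕ → K[X] := fun i => g i % h with hr
    have hgr : ∀ i, g i = h * w i + r i := fun i => (EuclideanDomain.div_add_mod (g i) h).symm
    set A := ∑ i ∈ range n, g i * g i with hA
    set B := ∑ i ∈ range n, g i * w i with hB
    set W := ∑ i ∈ range n, w i * w i with hW
    have hφr : ∑ i ∈ range n, r i * r i = A - 2 * h * B + h * h * W := by
      rw [hA, hB, hW, mul_sum, mul_sum, ← sum_sub_distrib, ← sum_add_distrib]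
      refine sum_congr rfl fun i _ => ?_
      have : r i = g i - h * w i := by rw [hgr i]; ring
      rw [this]
      ring
    by_cases hr0 : ∑ i ∈ range n, r i * r i = 0
    · have h1 := fr_poly hK n r hr0
      have h2 : F = ∑ i ∈ range n, w i * w i := by
        have h3 : h * h * F = h * h * ∑ i ∈ range n, w i * w i := by
          rw [e, hA, mul_sum]
          refine sum_congr rfl fun i hi => ?_
          have := hgr i
          rw [h1 i hi, add_zero] at this
          rw [this]
          ring
        exact mul_left_cancel₀ (mul_ne_zero hh hh) h3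
      rw [h2]
      exact sumsq_range n _
    · set a := W - F with ha
      set b := 2 * (h * F - B) with hb
      have hhh : h * (a * h + b) = ∑ i ∈ range n, r i * r i := by
        rw [hφr, ha, hb, ← e]
        ring
      have hne : a * h + b ≠ 0 := by
        intro h1
        rw [h1, mul_zero] at hhh
        exact hr0 hhh.symm
      have hdr : (∑ i ∈ range n, r i * r i).natDegree ≤ k + k := by
        refine natDegree_sum_le_of_forall_le _ _ fun i _ => ?_
        have h3 : (r i).natDegree ≤ k := by
          have := natDegree_mod_lt (g i) (q := h) (by omega)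
          rw [hdeg] at this
          exact Nat.le_of_lt_succ this
        exact natDegree_mul_le.trans (Nat.add_le_add h3 h3)
      rw [← hhh, natDegree_mul hh hne, hdeg] at hdr
      refine ih (a * h + b) hne (by omega) (fun i => a * g i + b * w i) ?_
      have e5 : ∑ i ∈ range n, (a * g i + b * w i) * (a * g i + b * w i)
          = a * a * A + 2 * a * b * B + b * b * W := by
        rw [hA, hB, hW, mul_sum, mul_sum, mul_sum, ← sum_add_distrib, ← sum_add_distrib]
        exact sum_congr rfl fun i _ => by ring
      rw [e5, ← e, ha, hb]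
      ring

theorem SS.sumsq (hK : FR K) {F : K[X]} (h : SS F) : IsSumSq F := by
  obtain ⟨h, hh, hs⟩ := h
  obtain ⟨n, g, e⟩ := exists_range hs
  exact cassels hK n F h.natDegree h hh le_rfl g e

/-- degrees in a sum of squares -/
lemma nd_of_sq (hK : FR K) {n d : ℕ} {g : ℕ → K[X]}
    (h : (∑ i ∈ range n, g i * g i).natDegree ≤ d + d) : ∀ i ∈ range n, (g i).natDegree ≤ d := by
  set D := (range n).sup fun i => (g i).natDegree with hD
  have hle : ∀ i ∈ range n, (g i).natDegree ≤ D := fun i hi =>
    le_sup (f := fun i => (g i).natDegree) hi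
  have hDd : D ≤ d := by
    by_contra hcon
    push Not at hcon
    have hc : (∑ i ∈ range n, g i * g i).coeff (D + D)
        = ∑ i ∈ range n, (g i).coeff D * (g i).coeff D := by
      rw [finsetSum_coeff]
      refine sum_congr rfl fun i hi => ?_
      rw [coeff_mul_add_eq_of_natDegree_le (hle i hi) (hle i hi)]
    rw [coeff_eq_zero_of_natDegree_lt (by omega)] at hc
    have h1 := hK n _ hc.symm
    have hne : (range n).Nonempty := by
      by_contra hc
      rw [not_nonempty_iff_eq_empty] at hc
      rw [hc, sup_empty] at hD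
      rw [hD] at hcon
      exact absurd hcon (Nat.not_lt_zero _)
    obtain ⟨i, hi, e⟩ := exists_mem_eq_sup _ hne fun i => (g i).natDegree
    rw [← hD] at e
    have h3 := h1 i hi
    rw [e] at h3
    have h4 : g i = 0 := leadingCoeff_eq_zero.1 h3
    rw [h4, natDegree_zero] at e
    omega
  exact fun i hi => (hle i hi).trans hDd

end Pool.Agent.Q107.HG
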