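import Pool.Agent.Q107.HG.Sq
import Pool.Agent.Q107.HF.Gen

/-!
# The descending chain of good spaces
-/

set_option autoImplicit false

namespace Pool.Agent.Q107.HG

open Finset MvPolynomial
open Pool.Agent.Q107.HF (P2 td_le td_mul_le Low low_hz low_succ_iff)

variable {d : ℕ} {W : Submodule ℝ P2} {L : P2 →ₗ[ℝ] ℝ} {U : Submodule ℝ P2}

/-- polynomials in `y` -/
noncomputable def py (p : Polynomial ℝ) : P2 := Polynomial.aeval (X 1 : P2) p

lemma py_mem {k m : ℕ} {p : Polynomial ℝ} (hp : p.natDegree ≤ k) {v : P2} (hv : v ∈ Up U m) :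
    py p * v ∈ Up U (m + k) := by
  refine Polynomial.induction_with_natDegree_le (fun p => py p * v ∈ Up U (m + k)) k ?_ ?_ ?_ p hp
  · simp [py]
  · intro n r _ hn
    have e : py (Polynomial.C r * Polynomial.X ^ n) * v = r • (X 1 ^ n * v) := by
      rw [py, map_mul, map_pow, Polynomial.aeval_X, Polynomial.aeval_C, smul_eq_C_mul,
        algebraMap_eq]
      ring
    rw [e]
    exact (Up U _).smul_mem _ (Up_mono (by omega) (Up_shift v hv))
  · intro f g _ _ hf hg
    have e : py (f + g) * v = py f * v + py g * v := by rw [py, map_add, add_mul]; rfl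
    rw [e]
    exact (Up U _).add_mem hf hg

lemma monic_sub {H : Polynomial ℝ} {K : ℕ} (hH : H.Monic) (hK : H.natDegree = K + 1) :
    (H - Polynomial.X ^ (K + 1)).natDegree ≤ K := by
  rw [Polynomial.natDegree_le_iff_coeff_eq_zero]
  intro i hi
  rw [Polynomial.coeff_sub, Polynomial.coeff_X_pow]
  by_cases h : i = K + 1
  · rw [if_pos h, h, ← hK]
    exact sub_eq_zero.2 hH
  · rw [if_neg h, sub_zero]
    exact Polynomial.coeff_eq_zero_of_natDegree_lt (by omega)

lemma py_split (H : Polynomial ℝ) (K : ℕ) (v : P2) :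
    py H * v = X 1 ^ K * v + py (H - Polynomial.X ^ K) * v := by
  rw [py, py, map_sub, map_pow, Polynomial.aeval_X]
  ring

/-- division by a monic polynomial in `y` -/
theorem div_Up (hW : Good d W) {H : Polynomial ℝ} {K : ℕ} (hH : H.Monic)
    (hK : H.natDegree = K + 1) {v : P2} (h : py H * v ∈ Up (Sq W) (K + 1)) :
    ∀ m, v ∈ Up (Sq W) m → v ∈ Sq W := by
  intro m
  induction m with
  | zero => exact id
  | succ m ih =>
    intro hv
    obtain ⟨a, ha, u, hu, e⟩ := mem_Up_succ.1 hv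
    have hu0 : u ∈ Up (Sq W) 0 := hu
    have h1 : X 1 ^ (m + K + 1 + 1) * u ∈ Up (Sq W) (m + K + 1) := by
      have e1 : X 1 ^ (m + K + 1 + 1) * u = py H * v - py H * a -
          X 1 ^ (m + 1) * (py (H - Polynomial.X ^ (K + 1)) * u) := by
        have e2 := py_split H (K + 1) u
        have e3 : (X 1 : P2) ^ (m + K + 1 + 1) = X 1 ^ (m + 1) * X 1 ^ (K + 1) := by
          rw [← pow_add]
          congr 1
          omega
        rw [e, e3]
        linear_combination (-(X 1 ^ (m + 1))) * e2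
      rw [e1]
      refine (Up _ _).sub_mem ((Up _ _).sub_mem (Up_mono (by omega) h) ?_) ?_
      · exact Up_mono (by omega) (py_mem (k := K + 1) (by omega) ha)
      · exact Up_mono (by omega) (Up_shift _ (py_mem (monic_sub hH hK) hu0))
    have h2 := Rr_y _ (lead_mem hW _ u hu h1)
    refine ih ?_
    rw [e, pow_succ, mul_assoc]
    exact (Up _ _).add_mem ha (pow_mem_Up le_rfl h2)

section data

variable {ι : Type} {I : Finset ι} {g w a : ι → P2} {f : P2} {h : Polynomial ℝ} {n : ℕ}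

/-- the value of a functional -/
theorem value (hW : Good d W) (hh : h.Monic) (hn : h.natDegree = n + 1)
    (hfg : py (h ^ 2) * f = ∑ i ∈ I, g i * g i) (hf : f ∈ Sq W)
    (ha : ∀ i ∈ I, a i ∈ Up W n) (hw : ∀ i ∈ I, w i ∈ W)
    (hg : ∀ i ∈ I, g i = a i + X 1 ^ (n + 1) * w i) (hL : Fun W L) :
    L f = ∑ i ∈ I, L (w i * w i) := by
  have hH : (h ^ 2).Monic := hh.pow 2
  have hK : (h ^ 2).natDegree = (2 * n + 1) + 1 := by
    rw [hh.natDegree_pow, hn]
    ring
  have h1 : X 1 ^ (2 * n + 1 + 1) * (f - ∑ i ∈ I, w i * w i) ∈ Up (Sq W) (2 * n + 1) := by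
    have e1 := py_split (h ^ 2) (2 * n + 1 + 1) f
    have e2 : X 1 ^ (2 * n + 1 + 1) * (f - ∑ i ∈ I, w i * w i) =
        ∑ i ∈ I, (a i * a i + (2 : ℝ) • (X 1 ^ (n + 1) * (a i * w i))) -
          py (h ^ 2 - Polynomial.X ^ (2 * n + 1 + 1)) * f := by
      have e3 : ∑ i ∈ I, g i * g i = ∑ i ∈ I, (a i * a i +
          (2 : ℝ) • (X 1 ^ (n + 1) * (a i * w i))) +
          X 1 ^ (2 * n + 1 + 1) * ∑ i ∈ I, w i * w i := by
        rw [mul_sum, ← sum_add_distrib]
        refine sum_congr rfl fun i hi => ?_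
        rw [hg i hi, smul_eq_C_mul]
        have : (C (2 : ℝ) : P2) = 2 := map_ofNat _ 2
        rw [this]
        have e4 : (X 1 : P2) ^ (2 * n + 1 + 1) = X 1 ^ (n + 1) * X 1 ^ (n + 1) := by
          rw [← pow_add]
          congr 1
          omega
        rw [e4]
        ring
      rw [← hfg, e1] at e3
      linear_combination e3
    rw [e2]
    refine (Up _ _).sub_mem ((Up _ _).sum_mem fun i hi => (Up _ _).add_mem ?_
      ((Up _ _).smul_mem _ ?_)) ?_
    · exact Up_mono (by omega) (Up_mul _ (ha i hi) _ (ha i hi))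
    · have h2 := Up_mul _ (ha i hi) (w i) (show w i ∈ Up W 0 from hw i hi)
      exact Up_mono (by omega) (Up_shift (k := n + 1) _ h2)
    · have := py_mem (monic_sub hH hK) (show f ∈ Up (Sq W) 0 from hf)
      rwa [zero_add] at this
  have h2 := Rr_L hW hL _ (lead_mem hW _ _ ((Sq W).sub_mem hf
    ((Sq W).sum_mem fun i hi => mul_mem_Sq (hw i hi) (hw i hi))) h1)
  rw [map_sub, map_sum] at h2
  linarith

lemma td_dy {g : P2} (i : Fin 2) (hg : g.totalDegree ≤ d) : (ev (pderiv i g)).natDegree < d ∨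
    pderiv i g = 0 := by
  rcases Nat.eq_zero_or_pos d with h0 | h0
  · right
    exact Pool.Agent.Q107.HF.pderiv_zero_of i (by omega)
  · left
    exact lt_of_le_of_lt (td_ev (Pool.Agent.Q107.HF.totalDegree_pderiv_le i hg)) (by omega)

lemma sq_coeff {g : P2} (hg : g.totalDegree ≤ d) :
    coeff (Finsupp.single 0 (2 * d)) (g * g) = (coeff (Finsupp.single 0 d) g) ^ 2 := by
  rw [← ev_coeff, map_mul, two_mul, Polynomial.coeff_mul_add_eq_of_natDegree_le (td_ev hg)
    (td_ev hg), ev_coeff, sq]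

/-- the functional at infinity -/
lemma fun_inf (hW : Good d W) : Fun W (lcoeff ℝ (Finsupp.single 0 (2 * d))) where
  psd g hg := by
    rw [lcoeff_apply, sq_coeff (hW.td g hg)]
    positivity
  kx g hg k hk := by
    rw [lcoeff_apply, ← ev_coeff, map_mul]
    rcases td_dy 0 (hW.td g hg) with h | h
    · refine Polynomial.coeff_eq_zero_of_natDegree_lt ?_
      have := td_ev (hW.td k hk)
      exact lt_of_le_of_lt Polynomial.natDegree_mul_le (by omega)
    · rw [h]
      simp
  ky g hg k hk := by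
    rw [lcoeff_apply, ← ev_coeff, map_mul]
    rcases td_dy 1 (hW.td g hg) with h | h
    · refine Polynomial.coeff_eq_zero_of_natDegree_lt ?_
      have := td_ev (hW.td k hk)
      exact lt_of_le_of_lt Polynomial.natDegree_mul_le (by omega)
    · rw [h]
      simp

/-- the kernel of a functional in `W` -/
def ker (W : Submodule ℝ P2) (L : P2 →ₗ[ℝ] ℝ) : Submodule ℝ P2 where
  carrier := {v | v ∈ W ∧ ∀ u ∈ W, L (v * u) = 0}
  add_mem' := by
    rintro a b ⟨ha, ha'⟩ ⟨hb, hb'⟩
    refine ⟨W.add_mem ha hb, fun u hu => ?_⟩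
    rw [add_mul, map_add, ha' u hu, hb' u hu, add_zero]
  zero_mem' := ⟨W.zero_mem, fun u _ => by simp⟩
  smul_mem' := by
    rintro c a ⟨ha, ha'⟩
    refine ⟨W.smul_mem _ ha, fun u hu => ?_⟩
    rw [smul_mul_assoc, map_smul, ha' u hu, smul_zero]

lemma mem_ker {v : P2} : v ∈ ker W L ↔ v ∈ W ∧ ∀ u ∈ W, L (v * u) = 0 := Iff.rfl

lemma ker_le : ker W L ≤ W := fun _ hv => hv.1

/-- every element is a sum of an element of the kernel and `y` times one -/
lemma le_ker (hW : Good d W) (hL : Fun W L)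
    (htop : ∃ v ∈ ker W L, coeff (Finsupp.single 0 d) v ≠ 0) {w : P2} (hw : w ∈ W) :
    ∃ u ∈ ker W L, ∃ v ∈ ker W L, w = u + X 1 * v := by
  obtain ⟨u, hu, hue⟩ := surj' (W := ker W L) (fun v hv => hW.td v hv.1)
    (fun v hv => ⟨hW.dx _ hv.1, fun u hu => hL.kx _ hv.1 _ hu⟩) htop d le_rfl (ev w)
    (td_ev (hW.td w hw))
  obtain ⟨v, hv, e⟩ := div_mem hW (W.sub_mem hw hu.1) (by rw [map_sub, hue, sub_self])
  have hv' : X 1 * v ∈ W := by
    rw [← e]
    exact W.sub_mem hw hu.1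
  exact ⟨u, hu, v, ⟨hv, fun k hk => ker_one hW hL hv' hk⟩, by rw [← e]; ring⟩

/-- the kernel is good -/
theorem good_ker (hW : Good d W) (hL : Fun W L)
    (htop : ∃ v ∈ ker W L, coeff (Finsupp.single 0 d) v ≠ 0) : Good d (ker W L) where
  td v hv := hW.td v hv.1
  dx v hv := ⟨hW.dx _ hv.1, fun u hu => hL.kx _ hv.1 _ hu⟩
  dy v hv := ⟨hW.dy _ hv.1, fun u hu => hL.ky _ hv.1 _ hu⟩
  sat v hv := ⟨hW.sat _ hv.1, fun u hu => ker_one hW hL hv.1 hu⟩
  top := htop
  shift g hg h0 := by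
    obtain ⟨α, ha, β, hb, e⟩ := hW.shift g hg.1 h0
    have hα : α ∈ ker W L := by
      refine ⟨ha, fun k hk => ?_⟩
      obtain ⟨t, ht, ht0⟩ := htop
      set c := coeff (Finsupp.single 0 d) k / coeff (Finsupp.single 0 d) t with hc
      have hk' : k - c • t ∈ W := W.sub_mem hk (W.smul_mem _ ht.1)
      have hk0 : coeff (Finsupp.single 0 d) (k - c • t) = 0 := by
        rw [coeff_sub, coeff_smul, hc, smul_eq_mul, div_mul_cancel₀ _ ht0, sub_self]
      obtain ⟨α', ha'⟩ := exists_al hW hk' hk0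
      have h1 := om_all hW hL hg.1 hk' h0 hk0 α α' ⟨ha, β, hb, e⟩ ha'
      rw [hg.2 _ ha'.1] at h1
      have h2 := ht.2 α ha
      have e1 : α * k = α * (k - c • t) + c • (t * α) := by
        rw [mul_sub, mul_smul_comm, mul_comm t α]
        ring
      rw [e1, map_add, map_smul, h1, h2, smul_zero, add_zero]
    obtain ⟨u, hu, v, hv, e2⟩ := le_ker hW hL htop hb
    exact ⟨α + v, (ker W L).add_mem hα hv, u, hu, by rw [e, e2]; ring⟩

lemma Up_le {V : Submodule ℝ P2} (hV : ∀ w ∈ W, w ∈ Up V 1) {m : ℕ} :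
    ∀ v ∈ Up W m, v ∈ Up V (m + 1) := by
  induction m with
  | zero => intro v hv; exact hV v hv
  | succ m ih =>
    intro v hv
    obtain ⟨a, ha, u, hu, rfl⟩ := mem_Up_succ.1 hv
    refine (Up V _).add_mem (Up_mono (by omega) (ih a ha)) ?_
    exact Up_mono (by omega) (Up_shift (k := m + 1) _ (hV u hu))

lemma fin_of_td (htd : ∀ v ∈ W, v.totalDegree ≤ d) : FiniteDimensional ℝ W := by
  have h1 : W ≤ restrictTotalDegree (Fin 2) ℝ d := fun v hv =>
    (mem_restrictTotalDegree _ _ _).2 (htd v hv)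
  have h2 : FiniteDimensional ℝ (restrictTotalDegree (Fin 2) ℝ d) := by
    have hfin : Set.Finite {m : Fin 2 →₀ ℕ | (m.sum fun _ e => e) ≤ d} := by
      refine Set.Finite.subset (Finset.finite_toSet
        ((range (d + 1) ×ˢ range (d + 1)).image fun p : ℕ × ℕ =>
          (Finsupp.single 0 p.1 + Finsupp.single 1 p.2 : Fin 2 →₀ ℕ))) ?_
      intro m hm
      rw [Set.mem_ofPred_eq, Finsupp.sum_fintype _ _ (fun _ => rfl), Fin.sum_univ_two] at hm
      rw [coe_image, Set.mem_image]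
      refine ⟨(m 0, m 1), ?_, ?_⟩
      · rw [mem_coe, mem_product, mem_range, mem_range]
        constructor <;> (simp only; omega)
      · ext i
        fin_cases i <;> simp
    have : Finite {m : Fin 2 →₀ ℕ | (m.sum fun _ e => e) ≤ d} := hfin
    exact Module.Finite.of_basis (basisRestrictSupport ℝ _)
  exact Submodule.finiteDimensional_of_le h1

/-- **The chain.** -/
theorem chain (hh : h.Monic) (hn : h.natDegree = n + 1)
    (hfg : py (h ^ 2) * f = ∑ i ∈ I, g i * g i)
    (hf0 : coeff (Finsupp.single 0 (2 * d)) f ≠ 0) :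
    ∀ (N : ℕ) (W : Submodule ℝ P2), Module.finrank ℝ W ≤ N → Good d W →
      (∀ i ∈ I, g i ∈ Up W (n + 1)) → f ∈ Up (Sq W) 2 →
      ∃ W' : Submodule ℝ P2, Good d W' ∧ f ∈ Sq W' ∧
        ∀ L, Fun W' L → (∃ g ∈ W', L (g * g) ≠ 0) → 0 < L f := by
  have hH : (h ^ 2).Monic := hh.pow 2
  have hK : (h ^ 2).natDegree = (2 * n + 1) + 1 := by
    rw [hh.natDegree_pow, hn]
    ring
  intro N
  induction N with
  | zero =>
    intro W hN hW _ _
    exfalso
    have := fin_of_td hW.td
    have h1 : W = ⊥ := Submodule.finrank_eq_zero.1 (Nat.le_zero.1 hN)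
    have h2 := one_mem hW
    rw [h1, Submodule.mem_bot] at h2
    exact one_ne_zero h2
  | succ N ih =>
    intro W hN hW hg hfU
    have := fin_of_td hW.td
    have hf : f ∈ Sq W := by
      refine div_Up hW hH hK ?_ 2 hfU
      rw [hfg]
      refine (Up _ _).sum_mem fun i hi => ?_
      exact Up_mono (by omega) (Up_mul _ (hg i hi) _ (hg i hi))
    by_cases hall : ∀ L, Fun W L → (∃ g ∈ W, L (g * g) ≠ 0) → 0 < L f
    · exact ⟨W, hW, hf, hall⟩
    push Not at hall
    obtain ⟨L, hL, ⟨v, hv, hvL⟩, hLf⟩ := hall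
    have hdec : ∀ i, ∃ a w, i ∈ I → a ∈ Up W n ∧ w ∈ W ∧ g i = a + X 1 ^ (n + 1) * w := by
      intro i
      by_cases hi : i ∈ I
      · obtain ⟨a, ha, w, hw, e⟩ := mem_Up_succ.1 (hg i hi)
        exact ⟨a, w, fun _ => ⟨ha, hw, e⟩⟩
      · exact ⟨0, 0, fun h => absurd h hi⟩
    choose a w haw using hdec
    have hval : ∀ L, Fun W L → L f = ∑ i ∈ I, L (w i * w i) := fun L hL =>
      value hW hh hn hfg hf (fun i hi => (haw i hi).1) (fun i hi => (haw i hi).2.1)
        (fun i hi => (haw i hi).2.2) hL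
    have hnn : ∀ i ∈ I, 0 ≤ L (w i * w i) := fun i hi => hL.psd _ (haw i hi).2.1
    have h0 : ∑ i ∈ I, L (w i * w i) = 0 :=
      le_antisymm (by rw [← hval L hL]; exact hLf) (sum_nonneg hnn)
    have h1 : ∀ i ∈ I, w i ∈ ker W L := by
      intro i hi
      have h2 := (sum_eq_zero_iff_of_nonneg hnn).1 h0 i hi
      exact ⟨(haw i hi).2.1, fun u hu => cs hL.psd (haw i hi).2.1 hu h2⟩
    have htop : ∃ v ∈ ker W L, coeff (Finsupp.single 0 d) v ≠ 0 := by
      by_contra hno
      push Not at hno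
      apply hf0
      have h2 := hval _ (fun_inf hW)
      rw [lcoeff_apply] at h2
      rw [h2]
      refine sum_eq_zero fun i hi => ?_
      rw [lcoeff_apply, sq_coeff (hW.td _ (haw i hi).2.1), hno _ (h1 i hi)]
      ring
    have hker := good_ker hW hL htop
    have hle : ∀ w ∈ W, w ∈ Up (ker W L) 1 := by
      intro w hw
      obtain ⟨u, hu, v, hv, e⟩ := le_ker hW hL htop hw
      exact mem_Up_succ.2 ⟨u, hu, v, hv, by rw [e]; ring⟩
    refine ih (ker W L) ?_ hker ?_ ?_
    · have h3 : ker W L < W := by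
        refine lt_of_le_of_ne ker_le fun h => ?_
        rw [← h] at hv
        exact hvL (hv.2 v hv.1)
      have := Submodule.finrank_lt_finrank_of_lt h3
      omega
    · intro i hi
      rw [(haw i hi).2.2]
      exact (Up _ _).add_mem (Up_le hle _ (haw i hi).1) (pow_mem_Up le_rfl (h1 i hi))
    · refine (Submodule.span_le.2 ?_ : Sq W ≤ Up (Sq (ker W L)) 2) hf
      rintro x ⟨p, hp, q, hq, rfl⟩
      exact Up_mul _ (hle p hp) _ (hle q hq)

end data

end Pool.Agent.Q107.HG
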