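import Pool.Agent.Q107.HG.Chain

/-!
# The first good space
-/

set_option autoImplicit false

namespace Pool.Agent.Q107.HG

open Finset MvPolynomial
open Pool.Agent.Q107.HF (P2 td_le td_mul_le Low low_hz low_succ_iff mon idx mem_idx td_mon split_mon)

/-- all polynomials of degree at most `d` -/
noncomputable def Full (d : ℕ) : Submodule ℝ P2 := restrictTotalDegree (Fin 2) ℝ d

lemma mem_Full {d : ℕ} {v : P2} : v ∈ Full d ↔ v.totalDegree ≤ d := mem_restrictTotalDegree _ _ _

theorem good_full (d : ℕ) : Good d (Full d) where
  td v hv := mem_Full.1 hv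
  dx v hv := mem_Full.2 ((Pool.Agent.Q107.HF.totalDegree_pderiv_le 0 (mem_Full.1 hv)).trans
    (Nat.sub_le _ _))
  dy v hv := mem_Full.2 ((Pool.Agent.Q107.HF.totalDegree_pderiv_le 1 (mem_Full.1 hv)).trans
    (Nat.sub_le _ _))
  sat v hv := by
    by_cases h : v = 0
    · rw [h]
      exact (Full d).zero_mem
    · have := td_div (mem_Full.1 hv) h
      exact mem_Full.2 (by omega)
  top := by
    refine ⟨X 0 ^ d, mem_Full.2 ?_, ?_⟩
    · rw [totalDegree_X_pow]
    · rw [coeff_X_pow, if_pos rfl]
      exact one_ne_zero
  shift g hg h0 := by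
    have hgd := mem_Full.1 hg
    set g1 := homogeneousComponent d g with hg1
    have hlow : Low (g - g1) d := low_hz hgd
    have h1 : ev g1 = 0 := by
      ext k
      rw [ev_coeff, hg1, coeff_homogeneousComponent, Polynomial.coeff_zero]
      have h2 : (Finsupp.single (0 : Fin 2) k).degree = k := by
        rw [Finsupp.degree_eq_sum, Fin.sum_univ_two]
        simp
      rw [h2]
      split_ifs with h3
      · rw [h3]
        exact h0
      · rfl
    obtain ⟨w, hw⟩ := ev_zero h1
    refine ⟨X 0 * w, ?_, X 0 * (g - g1), ?_, ?_⟩
    · rw [mem_Full]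
      by_cases hw0 : w = 0
      · rw [hw0, mul_zero, totalDegree_zero]
        exact Nat.zero_le _
      · have h4 : (X 1 * w).totalDegree ≤ d := by
          rw [← hw]
          exact (homogeneousComponent_isHomogeneous _ _).totalDegree_le
        have h5 := td_div h4 hw0
        have h6 := td_mul_le (f := (X 0 : P2)) (a := 1) (by rw [totalDegree_X]) (le_refl
          w.totalDegree)
        omega
    · rw [mem_Full, ← low_succ_iff, mul_comm]
      exact hlow.mul (by rw [totalDegree_X])
    · rw [mul_sub, hw]
      ring

lemma sq_full {d : ℕ} {f : P2} (hf : f.totalDegree ≤ 2 * d) : f ∈ Sq (Full d) := by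
  rw [f.as_sum]
  refine (Sq _).sum_mem fun m hm => ?_
  have h1 := td_le.1 hf m (mem_support_iff.1 hm)
  obtain ⟨p, hp, q, hq, e⟩ := split_mon d m h1 (coeff m f)
  rw [e, ← smul_eq_C_mul]
  exact (Sq _).smul_mem _ (mul_mem_Sq (mem_Full.2 ((td_mon p).trans (mem_idx.1 hp)))
    (mem_Full.2 ((td_mon q).trans (mem_idx.1 hq))))

lemma up_full {d n : ℕ} {g : P2} (hg : g.totalDegree ≤ d + n)
    (hx : ∀ m, coeff m g ≠ 0 → m 0 ≤ d) : g ∈ Up (Full d) n := by
  rw [g.as_sum]
  refine (Up _ _).sum_mem fun m hm => ?_
  have h1 := td_le.1 hg m (mem_support_iff.1 hm)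
  have h2 := hx m (mem_support_iff.1 hm)
  set k := min (m 1) n with hk
  have e : monomial m (coeff m g) = X 1 ^ k * (C (coeff m g) * (X 0 ^ m 0 * X 1 ^ (m 1 - k))) := by
    rw [monomial_eq, Finsupp.prod_fintype _ _ (fun _ => pow_zero _), Fin.prod_univ_two]
    have : (X 1 : P2) ^ m 1 = X 1 ^ k * X 1 ^ (m 1 - k) := by
      rw [← pow_add]
      congr 1
      omega
    rw [this]
    ring
  rw [e]
  refine pow_mem_Up (by omega) (mem_Full.2 ?_)
  have h3 := td_mul_le (f := C (coeff m g)) (a := 0) (totalDegree_C _).le
    (td_mul_le (f := (X 0 : P2) ^ m 0) (a := m 0) (by rw [totalDegree_X_pow])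
      (g := X 1 ^ (m 1 - k)) (b := m 1 - k) (by rw [totalDegree_X_pow]))
  omega

/-- sums of squares: the degrees of the summands -/
lemma td_of_sq {ι : Type} {I : Finset ι} {g : ι → P2} {D : ℕ}
    (h : (∑ i ∈ I, g i * g i).totalDegree ≤ 2 * D) : ∀ i ∈ I, (g i).totalDegree ≤ D := by
  have key : ∀ M, (∀ i ∈ I, (g i).totalDegree ≤ D + M) → ∀ i ∈ I, (g i).totalDegree ≤ D := by
    intro M
    induction M with
    | zero => exact fun h => h
    | succ M ih =>
      intro hM
      refine ih fun i hi => ?_
      set N := D + M + 1 with hN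
      have h1 : Low (∑ i ∈ I, (g i * g i - homogeneousComponent N (g i) *
          homogeneousComponent N (g i))) (N + N) := by
        refine Low.sum _ fun i hi => ?_
        have h2 := low_hz (hM i hi)
        have h3 := h2.mul (hM i hi)
        have h4 := h2.mul (homogeneousComponent_isHomogeneous N (g i)).totalDegree_le
        have e : g i * g i - homogeneousComponent N (g i) * homogeneousComponent N (g i) =
            (g i - homogeneousComponent N (g i)) * g i +
            (g i - homogeneousComponent N (g i)) * homogeneousComponent N (g i) := by ring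
        rw [e]
        exact h3.add h4
      have h2 : Low (∑ i ∈ I, homogeneousComponent N (g i) * homogeneousComponent N (g i))
          (N + N) := by
        have h3 : Low (∑ i ∈ I, g i * g i) (N + N) := by
          intro m hm
          have := td_le.1 h m hm
          omega
        have h4 := h3.sub h1
        rw [← sum_sub_distrib] at h4
        simpa using h4
      have h3 : (∑ i ∈ I, homogeneousComponent N (g i) *
          homogeneousComponent N (g i)).IsHomogeneous (N + N) :=
        IsHomogeneous.sum _ _ _ fun i _ => (homogeneousComponent_isHomogeneous _ _).mul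
          (homogeneousComponent_isHomogeneous _ _)
      have h4 : ∑ i ∈ I, homogeneousComponent N (g i) * homogeneousComponent N (g i) = 0 := by
        ext m
        rw [coeff_zero]
        by_contra hne
        have h5 := h2 m hne
        have h6 := h3 hne
        rw [Finsupp.weight_apply, Finsupp.sum_fintype _ _ (by simp), Fin.sum_univ_two] at h6
        simp only [Pi.one_apply, smul_eq_mul, mul_one] at h6
        omega
      have h5 : homogeneousComponent N (g i) = 0 := by
        refine MvPolynomial.funext fun v => ?_
        have h6 := congrArg (eval v) h4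
        rw [map_sum, map_zero] at h6
        have h7 := (sum_eq_zero_iff_of_nonneg (fun i _ => by
          rw [map_mul]
          exact mul_self_nonneg _)).1 h6 i hi
        rw [map_mul] at h7
        rw [map_zero]
        exact mul_self_eq_zero.1 h7
      have h6 : Low (g i - homogeneousComponent N (g i)) (D + M + 1) := low_hz (hM i hi)
      rw [h5, sub_zero] at h6
      exact low_succ_iff.1 h6
  intro i hi
  refine key (∑ i ∈ I, (g i).totalDegree) (fun j hj => ?_) i hi
  have : (g j).totalDegree ≤ ∑ i ∈ I, (g i).totalDegree :=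
    single_le_sum (f := fun i => (g i).totalDegree) (fun _ _ => Nat.zero_le _) hj
  omega

end Pool.Agent.Q107.HG
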