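import Mathlib

/-!
# A field in which `-1` is not a sum of squares has an ordering
-/

set_option autoImplicit false

namespace Pool.Agent.Q107.HG

section

variable {E : Type*} [Field E]

/-- preorderings -/
structure PO (P : Set E) : Prop where
  sq : ∀ a : E, a * a ∈ P
  add : ∀ a ∈ P, ∀ b ∈ P, a + b ∈ P
  mul : ∀ a ∈ P, ∀ b ∈ P, a * b ∈ P
  neg : (-1 : E) ∉ P

lemma PO.zero {P : Set E} (h : PO P) : (0 : E) ∈ P := by
  have := h.sq 0
  rwa [mul_zero] at this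

lemma PO.one {P : Set E} (h : PO P) : (1 : E) ∈ P := by
  have := h.sq 1
  rwa [mul_one] at this

lemma exists_max {P0 : Set E} (h0 : PO P0) :
    ∃ P : Set E, PO P ∧ P0 ⊆ P ∧ ∀ a, a ∈ P ∨ -a ∈ P := by
  obtain ⟨P, hPP, hP⟩ := zorn_subset_nonempty {P : Set E | PO P} (by
    intro c hc hch hne
    refine ⟨⋃₀ c, ?_, fun s hs => Set.subset_sUnion_of_mem hs⟩
    obtain ⟨s0, hs0⟩ := hne
    have key : ∀ a ∈ ⋃₀ c, ∀ b ∈ ⋃₀ c, ∃ s ∈ c, a ∈ s ∧ b ∈ s := by
      rintro a ⟨s, hs, ha⟩ b ⟨t, ht, hb⟩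
      rcases hch.total hs ht with h1 | h1
      · exact ⟨t, ht, h1 ha, hb⟩
      · exact ⟨s, hs, ha, h1 hb⟩
    refine ⟨fun a => ⟨s0, hs0, (hc hs0).sq a⟩, fun a ha b hb => ?_, fun a ha b hb => ?_, ?_⟩
    · obtain ⟨s, hs, h1, h2⟩ := key a ha b hb
      exact ⟨s, hs, (hc hs).add _ h1 _ h2⟩
    · obtain ⟨s, hs, h1, h2⟩ := key a ha b hb
      exact ⟨s, hs, (hc hs).mul _ h1 _ h2⟩
    · rintro ⟨s, hs, h1⟩
      exact (hc hs).neg h1) _ h0
  have hPO : PO P := hP.prop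
  refine ⟨P, hPO, hPP, fun a => ?_⟩
  by_contra hcon
  push Not at hcon
  obtain ⟨ha, hna⟩ := hcon
  set P' : Set E := {z | ∃ x ∈ P, ∃ y ∈ P, z = x - a * y} with hP'
  have hPO' : PO P' := by
    refine ⟨fun b => ⟨b * b, hPO.sq b, 0, hPO.zero, by ring⟩, ?_, ?_, ?_⟩
    · rintro _ ⟨x, hx, y, hy, rfl⟩ _ ⟨x', hx', y', hy', rfl⟩
      exact ⟨x + x', hPO.add _ hx _ hx', y + y', hPO.add _ hy _ hy', by ring⟩
    · rintro _ ⟨x, hx, y, hy, rfl⟩ _ ⟨x', hx', y', hy', rfl⟩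
      exact ⟨x * x' + a * a * (y * y'), hPO.add _ (hPO.mul _ hx _ hx') _
        (hPO.mul _ (hPO.sq a) _ (hPO.mul _ hy _ hy')), x * y' + x' * y,
        hPO.add _ (hPO.mul _ hx _ hy') _ (hPO.mul _ hx' _ hy), by ring⟩
    · rintro ⟨x, hx, y, hy, e⟩
      have hy0 : y ≠ 0 := by
        rintro rfl
        apply hPO.neg
        rw [e, mul_zero, sub_zero]
        exact hx
      apply ha
      have e2 : a = (1 + x) * (y * (y⁻¹ * y⁻¹)) := by
        field_simp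
        linear_combination e
      rw [e2]
      exact hPO.mul _ (hPO.add _ hPO.one _ hx) _ (hPO.mul _ hy _ (hPO.sq _))
  have hle : P ⊆ P' := fun x hx => ⟨x, hx, 0, hPO.zero, by ring⟩
  have hle' : P' ⊆ P := hP.2 hPO' hle
  exact hna (hle' ⟨0, hPO.zero, 1, hPO.one, by ring⟩)

lemma po_sumsq (h : ∀ s : E, IsSumSq s → s ≠ -1) : PO {s : E | IsSumSq s} :=
  ⟨fun a => IsSumSq.mul_self a, fun a ha b hb => IsSumSq.add ha hb,
    fun a ha b hb => IsSumSq.mul ha hb, fun hn => h _ hn rfl⟩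

theorem exists_order' {P0 : Set E} (h0 : PO P0) :
    ∃ _ : LinearOrder E, IsStrictOrderedRing E ∧ ∀ a ∈ P0, 0 ≤ a := by
  classical
  obtain ⟨P, hP, hPP, htot⟩ := exists_max h0
  let C : RingCone E :=
    { carrier := P
      zero_mem' := hP.zero
      one_mem' := hP.one
      add_mem' := fun ha hb => hP.add _ ha _ hb
      mul_mem' := fun ha hb => hP.mul _ ha _ hb
      eq_zero_of_mem_of_neg_mem' := by
        intro a ha hna
        by_contra h0
        apply hP.neg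
        have e : (-1 : E) = a * -a * (a⁻¹ * a⁻¹) := by field_simp
        rw [e]
        exact hP.mul _ (hP.mul _ ha _ hna) _ (hP.sq _) }
  have : HasMemOrNegMem C := ⟨htot⟩
  let L : LinearOrder E := LinearOrder.mkOfAddGroupCone C
  have h1 : IsOrderedRing E := IsOrderedRing.mkOfCone C
  refine ⟨L, inferInstance, fun a ha => ?_⟩
  show a - 0 ∈ P
  rw [sub_zero]
  exact hPP ha

theorem exists_order (h : ∀ s : E, IsSumSq s → s ≠ -1) :
    ∃ _ : LinearOrder E, IsStrictOrderedRing E := by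
  obtain ⟨L, h1, -⟩ := exists_order' (po_sumsq h)
  exact ⟨L, h1⟩

/-- an element which is not a sum of squares is negative in some ordering -/
theorem exists_order_neg (h : ∀ s : E, IsSumSq s → s ≠ -1) {a : E} (ha : ¬ IsSumSq a) :
    ∃ _ : LinearOrder E, IsStrictOrderedRing E ∧ a < 0 := by
  have hPO := po_sumsq h
  set P : Set E := {s : E | IsSumSq s} with hP
  have hPO' : PO {z | ∃ x ∈ P, ∃ y ∈ P, z = x - a * y} := by
    refine ⟨fun b => ⟨b * b, hPO.sq b, 0, hPO.zero, by ring⟩, ?_, ?_, ?_⟩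
    · rintro _ ⟨x, hx, y, hy, rfl⟩ _ ⟨x', hx', y', hy', rfl⟩
      exact ⟨x + x', hPO.add _ hx _ hx', y + y', hPO.add _ hy _ hy', by ring⟩
    · rintro _ ⟨x, hx, y, hy, rfl⟩ _ ⟨x', hx', y', hy', rfl⟩
      exact ⟨x * x' + a * a * (y * y'), hPO.add _ (hPO.mul _ hx _ hx') _
        (hPO.mul _ (hPO.sq a) _ (hPO.mul _ hy _ hy')), x * y' + x' * y,
        hPO.add _ (hPO.mul _ hx _ hy') _ (hPO.mul _ hx' _ hy), by ring⟩
    · rintro ⟨x, hx, y, hy, e⟩
      have hy0 : y ≠ 0 := by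
        rintro rfl
        apply hPO.neg
        rw [e, mul_zero, sub_zero]
        exact hx
      apply ha
      have e2 : a = (1 + x) * (y * (y⁻¹ * y⁻¹)) := by
        field_simp
        linear_combination e
      rw [e2]
      exact hPO.mul _ (hPO.add _ hPO.one _ hx) _ (hPO.mul _ hy _ (hPO.sq _))
  obtain ⟨L, h1, h2⟩ := exists_order' hPO'
  refine ⟨L, h1, ?_⟩
  have h3 : 0 ≤ -a := h2 _ ⟨0, hPO.zero, 1, hPO.one, by ring⟩
  refine lt_of_le_of_ne (neg_nonneg.1 h3) ?_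
  rintro rfl
  exact ha IsSumSq.zero

end

end Pool.Agent.Q107.HG
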