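import Mathlib

/-!
# Ordered fields over the reals with a discrete group of magnitudes
-/

set_option autoImplicit false

namespace Pool.Agent.Q107.HG

open Finset

section

variable {E : Type*} [Field E] [LinearOrder E] [IsStrictOrderedRing E] [Algebra ℝ E]

lemma c_nonneg {r : ℝ} (hr : 0 ≤ r) : 0 ≤ algebraMap ℝ E r := by
  rw [← Real.mul_self_sqrt hr, map_mul]
  exact mul_self_nonneg _

lemma c_mono {r s : ℝ} (h : r ≤ s) : algebraMap ℝ E r ≤ algebraMap ℝ E s := by
  have := c_nonneg (E := E) (sub_nonneg.2 h)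
  rw [map_sub] at this
  linarith

lemma c_pos {r : ℝ} (hr : 0 < r) : 0 < algebraMap ℝ E r :=
  lt_of_le_of_ne (c_nonneg hr.le) fun h => hr.ne' ((map_eq_zero _).1 h.symm)

lemma c_lt {r s : ℝ} (h : r < s) : algebraMap ℝ E r < algebraMap ℝ E s := by
  have := c_pos (E := E) (sub_pos.2 h)
  rw [map_sub] at this
  linarith

lemma c_abs (r : ℝ) : |algebraMap ℝ E r| = algebraMap ℝ E |r| := by
  rcases le_total 0 r with h | h
  · rw [abs_of_nonneg h, abs_of_nonneg (c_nonneg h)]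
  · rw [abs_of_nonpos h, map_neg, abs_of_nonpos]
    have := c_mono (E := E) h
    rwa [map_zero] at this

variable (E) in
/-- finite elements -/
def FinE : Subring E where
  carrier := {z | ∃ R : ℝ, |z| ≤ algebraMap ℝ E R}
  mul_mem' := by
    rintro a b ⟨R, hR⟩ ⟨S, hS⟩
    refine ⟨R * S, ?_⟩
    rw [abs_mul, map_mul]
    exact mul_le_mul hR hS (abs_nonneg _) ((abs_nonneg _).trans hR)
  one_mem' := ⟨1, by rw [abs_one, map_one]⟩
  add_mem' := by
    rintro a b ⟨R, hR⟩ ⟨S, hS⟩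
    refine ⟨R + S, ?_⟩
    rw [map_add]
    exact (abs_add_le _ _).trans (add_le_add hR hS)
  zero_mem' := ⟨0, by simp⟩
  neg_mem' := by
    rintro a ⟨R, hR⟩
    exact ⟨R, by rwa [abs_neg]⟩

lemma mem_FinE {z : E} : z ∈ FinE E ↔ ∃ R : ℝ, |z| ≤ algebraMap ℝ E R := Iff.rfl

lemma c_mem (r : ℝ) : algebraMap ℝ E r ∈ FinE E := ⟨|r|, by rw [c_abs]⟩

/-- infinitesimal elements -/
def Inf (z : E) : Prop := ∀ r : ℝ, 0 < r → |z| ≤ algebraMap ℝ E r

lemma Inf.mem {z : E} (h : Inf z) : z ∈ FinE E := ⟨1, h 1 one_pos⟩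

lemma Inf.add {z w : E} (h : Inf z) (h' : Inf w) : Inf (z + w) := by
  intro r hr
  refine (abs_add_le _ _).trans ((add_le_add (h (r / 2) (by positivity))
    (h' (r / 2) (by positivity))).trans ?_)
  rw [← map_add, add_halves]

lemma Inf.mul {z w : E} (h : Inf z) (h' : w ∈ FinE E) : Inf (z * w) := by
  obtain ⟨R, hR⟩ := h'
  intro r hr
  have hR' : |w| ≤ algebraMap ℝ E (|R| + 1) :=
    hR.trans (c_mono ((le_abs_self R).trans (by linarith)))
  rw [abs_mul]
  have h1 := mul_le_mul (h (r / (|R| + 1)) (by positivity)) hR' (abs_nonneg _)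
    (c_nonneg (by positivity))
  rw [← map_mul, div_mul_cancel₀ _ (by positivity)] at h1
  exact h1

lemma Inf.neg {z : E} (h : Inf z) : Inf (-z) := fun r hr => by
  rw [abs_neg]
  exact h r hr

lemma st {z : E} (hz : z ∈ FinE E) : ∃ a : ℝ, Inf (z - algebraMap ℝ E a) := by
  obtain ⟨R, hR⟩ := hz
  set S : Set ℝ := {r | algebraMap ℝ E r ≤ z} with hS
  have hne : S.Nonempty := ⟨-R, by
    rw [hS, Set.mem_ofPred_eq, map_neg]
    exact (abs_le.1 hR).1⟩
  have hbd : BddAbove S := ⟨R, fun r hr => by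
    by_contra h
    push Not at h
    exact absurd (le_trans hr (abs_le.1 hR).2) (not_le.2 (c_lt h))⟩
  refine ⟨sSup S, fun r hr => ?_⟩
  rw [abs_le]
  constructor
  · obtain ⟨t, ht, htr⟩ := exists_lt_of_lt_csSup hne (show sSup S - r < sSup S by linarith)
    have h1 : algebraMap ℝ E t ≤ z := ht
    have h2 := (c_lt (E := E) htr).le.trans h1
    rw [map_sub] at h2
    linarith
  · by_contra h
    push Not at h
    have h1 : sSup S + r ∈ S := by
      rw [hS, Set.mem_ofPred_eq, map_add]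
      linarith
    have := le_csSup hbd h1
    linarith

/-- the magnitude one -/
def Un (z : E) : Prop := z ≠ 0 ∧ z ∈ FinE E ∧ z⁻¹ ∈ FinE E

lemma Un.mul {z w : E} (h : Un z) (h' : Un w) : Un (z * w) :=
  ⟨mul_ne_zero h.1 h'.1, (FinE E).mul_mem h.2.1 h'.2.1, by
    rw [mul_inv]
    exact (FinE E).mul_mem h.2.2 h'.2.2⟩

lemma Un.inv {z : E} (h : Un z) : Un z⁻¹ := ⟨inv_ne_zero h.1, h.2.2, by rw [inv_inv]; exact h.2.1⟩

lemma Un.one : Un (1 : E) := ⟨one_ne_zero, (FinE E).one_mem, by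
  rw [inv_one]
  exact (FinE E).one_mem⟩

lemma Un.pow {z : E} (h : Un z) (k : ℕ) : Un (z ^ k) := by
  induction k with
  | zero => rw [pow_zero]; exact Un.one
  | succ k ih => rw [pow_succ]; exact ih.mul h

lemma Un.zpow {z : E} (h : Un z) (k : ℤ) : Un (z ^ k) := by
  cases k with
  | ofNat k => simpa using h.pow k
  | negSucc k =>
    rw [zpow_negSucc]
    exact (h.pow _).inv

lemma c_un {r : ℝ} (hr : r ≠ 0) : Un (algebraMap ℝ E r) :=
  ⟨(map_ne_zero _).2 hr, c_mem r, by rw [← map_inv₀]; exact c_mem _⟩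

/-- an element infinitely close to a nonzero real has magnitude one -/
lemma un_of_inf {z : E} {a : ℝ} (ha : a ≠ 0) (h : Inf (z - algebraMap ℝ E a)) : Un z := by
  have h1 := h (|a| / 2) (by positivity)
  have h2 : algebraMap ℝ E (|a| / 2) ≤ |z| := by
    have h3 : |algebraMap ℝ E a| ≤ |z| + |z - algebraMap ℝ E a| := by
      have := abs_sub_abs_le_abs_sub (algebraMap ℝ E a) z
      rw [abs_sub_comm (algebraMap ℝ E a) z] at this
      linarith
    rw [c_abs] at h3
    have h4 : algebraMap ℝ E |a| = algebraMap ℝ E (|a| / 2) + algebraMap ℝ E (|a| / 2) := by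
      rw [← map_add, add_halves]
    linarith
  have h5 : 0 < |z| := lt_of_lt_of_le (c_pos (by positivity)) h2
  refine ⟨abs_pos.1 h5, ?_, ⟨(|a| / 2)⁻¹, ?_⟩⟩
  · have := (FinE E).add_mem h.mem (c_mem a)
    rwa [sub_add_cancel] at this
  · rw [abs_inv, map_inv₀]
    exact inv_anti₀ (c_pos (by positivity)) h2

/-- the real part of an element of magnitude one is nonzero -/
lemma st_ne {z : E} (hz : Un z) {a : ℝ} (h : Inf (z - algebraMap ℝ E a)) : a ≠ 0 := by
  rintro rfl
  rw [map_zero, sub_zero] at h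
  have h1 := h.mul hz.2.2
  rw [mul_inv_cancel₀ hz.1] at h1
  have h2 := h1 (1 / 2) (by norm_num)
  rw [abs_one] at h2
  have h3 := c_lt (E := E) (show (1 / 2 : ℝ) < 1 by norm_num)
  rw [map_one] at h3
  linarith

lemma neg_of_st {z : E} {a : ℝ} (ha : a < 0) (h : Inf (z - algebraMap ℝ E a)) : z < 0 := by
  have h1 := (abs_le.1 (h (-a / 2) (by linarith))).2
  have h2 : algebraMap ℝ E (-a / 2) + algebraMap ℝ E a = algebraMap ℝ E (a / 2) := by
    rw [← map_add]
    congr 1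
    ring
  have h3 := c_lt (E := E) (show a / 2 < 0 by linarith)
  rw [map_zero] at h3
  linarith

/-- `π` generates the magnitudes -/
def Disc (π : E) : Prop := 0 < π ∧ Inf π ∧ ∀ z : E, z ≠ 0 → ∃ k : ℤ, Un (z * π ^ k)

lemma Inf.pow {π : E} (h : Inf π) {k : ℕ} (hk : 1 ≤ k) : Inf (π ^ k) := by
  obtain ⟨j, rfl⟩ : ∃ j, k = j + 1 := ⟨k - 1, by omega⟩
  rw [pow_succ']
  exact h.mul ((FinE E).pow_mem h.mem _)

lemma not_inf_un {z : E} (h : Inf z) (h' : Un z) : False := by
  have h1 : Inf (z - algebraMap ℝ E 0) := by rwa [map_zero, sub_zero]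
  exact st_ne h' h1 rfl

lemma Disc.div {π z : E} (hπ : Disc π) (hz : Inf z) : z / π ∈ FinE E := by
  obtain ⟨hpos, hinf, h⟩ := hπ
  by_cases hz0 : z = 0
  · rw [hz0, zero_div]
    exact (FinE E).zero_mem
  obtain ⟨k, hk⟩ := h z hz0
  have hk1 : k ≤ -1 := by
    by_contra hk1
    push Not at hk1
    obtain ⟨j, rfl⟩ : ∃ j : ℕ, k = j := ⟨k.toNat, by omega⟩
    rw [zpow_natCast] at hk
    exact not_inf_un (hz.mul ((FinE E).pow_mem hinf.mem _)) hk
  obtain ⟨j, hj⟩ : ∃ j : ℕ, k = -(j + 1 : ℤ) := ⟨(-k - 1).toNat, by omega⟩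
  have e : z / π = (z * π ^ k) * π ^ j := by
    rw [hj, zpow_neg, ← Nat.cast_succ, zpow_natCast, Nat.succ_eq_add_one, pow_succ]
    field_simp
  rw [e]
  exact (FinE E).mul_mem hk.2.1 ((FinE E).pow_mem hinf.mem _)

/-- expansions -/
lemma expand {π : E} (hπ : Disc π) {z : E} (hz : z ∈ FinE E) (N : ℕ) :
    ∃ (P : Polynomial ℝ) (w : E), w ∈ FinE E ∧ z = Polynomial.aeval π P + π ^ N * w := by
  induction N with
  | zero => exact ⟨0, z, hz, by simp⟩
  | succ N ih =>
    obtain ⟨P, w, hw, e⟩ := ih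
    obtain ⟨a, ha⟩ := st hw
    have h1 := hπ.div ha
    refine ⟨P + Polynomial.C a * Polynomial.X ^ N, _, h1, ?_⟩
    rw [map_add, map_mul, map_pow, Polynomial.aeval_X, Polynomial.aeval_C, e]
    have hne : π ≠ 0 := hπ.1.ne'
    field_simp
    ring

lemma exists_fin {π : E} (hπ : Disc π) (z : E) : ∃ M : ℕ, π ^ M * z ∈ FinE E := by
  by_cases hz0 : z = 0
  · exact ⟨0, by rw [hz0, mul_zero]; exact (FinE E).zero_mem⟩
  obtain ⟨k, hk⟩ := hπ.2.2 z hz0
  refine ⟨k.toNat, ?_⟩
  have e : π ^ k.toNat * z = (z * π ^ k) * π ^ (k.toNat - k) := by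
    rw [mul_assoc, ← zpow_add₀ hπ.1.ne', add_sub_cancel, zpow_natCast, mul_comm]
  rw [e]
  obtain ⟨j, hj⟩ : ∃ j : ℕ, (k.toNat - k : ℤ) = j := ⟨(k.toNat - k : ℤ).toNat, by omega⟩
  rw [hj, zpow_natCast]
  exact (FinE E).mul_mem hk.2.1 ((FinE E).pow_mem hπ.2.1.mem _)

/-- a polynomial negative at a positive infinitesimal is negative at small positive reals -/
lemma poly_neg {π : E} (hπ : 0 < π) (hinf : Inf π) {Q : Polynomial ℝ}
    (hQ : Polynomial.aeval π Q < 0) : ∃ ε : ℝ, 0 < ε ∧ Q.eval ε < 0 := by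
  have hQ0 : Q ≠ 0 := by
    rintro rfl
    rw [map_zero] at hQ
    exact lt_irrefl _ hQ
  have hc : Q.coeff Q.natTrailingDegree ≠ 0 := by
    have := Polynomial.trailingCoeff_nonzero_iff_nonzero.2 hQ0
    rwa [Polynomial.trailingCoeff] at this
  have hdv : Polynomial.X ^ Q.natTrailingDegree ∣ Q := by
    rw [Polynomial.X_pow_dvd_iff]
    intro d hd
    exact Polynomial.coeff_eq_zero_of_lt_natTrailingDegree hd
  obtain ⟨R, hR⟩ := hdv
  generalize Q.natTrailingDegree = n at hc hR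
  subst hR
  have h0 := Polynomial.coeff_X_pow_mul R n 0
  rw [zero_add] at h0
  rw [h0] at hc
  rw [map_mul, map_pow, Polynomial.aeval_X] at hQ
  have hR1 : Polynomial.aeval π R < 0 := by
    by_contra h
    push Not at h
    exact absurd (mul_nonneg (pow_nonneg hπ.le n) h) (not_le.2 hQ)
  have hR2 : Inf (Polynomial.aeval π R - algebraMap ℝ E (R.coeff 0)) := by
    have e := Polynomial.divX_mul_X_add R
    have e2 : Polynomial.aeval π R = π * Polynomial.aeval π R.divX
        + algebraMap ℝ E (R.coeff 0) := by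
      conv_lhs => rw [← e]
      rw [map_add, map_mul, Polynomial.aeval_X, Polynomial.aeval_C, mul_comm]
    rw [e2, add_sub_cancel_right]
    refine hinf.mul ?_
    have h3 : ∀ S : Polynomial ℝ, Polynomial.aeval π S ∈ FinE E := by
      intro S
      induction S using Polynomial.induction_on' with
      | add p q hp hq => rw [map_add]; exact (FinE E).add_mem hp hq
      | monomial k a =>
        rw [Polynomial.aeval_monomial]
        exact (FinE E).mul_mem (c_mem a) ((FinE E).pow_mem hinf.mem _)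
    exact h3 _
  have hR3 : R.coeff 0 < 0 := by
    rcases lt_or_gt_of_ne hc with h | h
    · exact h
    · exfalso
      have h4 : Inf (-Polynomial.aeval π R - algebraMap ℝ E (-R.coeff 0)) := by
        intro r hr
        have := hR2 r hr
        rw [← abs_neg] at this
        rwa [map_neg, sub_neg_eq_add, neg_add_eq_sub, ← abs_neg, neg_sub, ← abs_neg]
      have := neg_of_st (show -R.coeff 0 < 0 by linarith) h4
      linarith
  have hcont : ContinuousAt (fun e : ℝ => R.eval e) 0 := R.continuous.continuousAt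
  have h5 : ∀ᶠ e in nhds (0 : ℝ), R.eval e < 0 := by
    refine hcont.eventually_lt continuousAt_const ?_
    show R.eval 0 < 0
    rwa [← Polynomial.coeff_zero_eq_eval_zero]
  rw [Metric.eventually_nhds_iff] at h5
  obtain ⟨ε, hε, h6⟩ := h5
  refine ⟨ε / 2, by positivity, ?_⟩
  have h7 := h6 (y := ε / 2) (by
    rw [Real.dist_eq, sub_zero, abs_of_pos (by positivity)]
    linarith)
  rw [Polynomial.eval_mul, Polynomial.eval_pow, Polynomial.eval_X]
  exact mul_neg_of_pos_of_neg (by positivity) h7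

lemma un_neg {z w : E} (hz : z < 0) (hu : Un z) (h : Inf (w - z)) : w < 0 := by
  obtain ⟨R, hR⟩ := hu.2.2
  have hR' : |z⁻¹| ≤ algebraMap ℝ E (|R| + 1) :=
    hR.trans (c_mono ((le_abs_self R).trans (by linarith)))
  have h1 : algebraMap ℝ E (|R| + 1)⁻¹ ≤ |z| := by
    rw [abs_inv] at hR'
    have := inv_anti₀ (inv_pos.2 (abs_pos.2 hu.1)) hR'
    rwa [inv_inv, ← map_inv₀] at this
  have h2 := (abs_le.1 (h ((|R| + 1)⁻¹ / 2) (by positivity))).2
  have h3 := c_lt (E := E) (show (|R| + 1)⁻¹ / 2 < (|R| + 1)⁻¹ from half_lt_self (by positivity))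
  rw [abs_of_neg hz] at h1
  linarith

/-- congruence modulo `π ^ N` -/
def Cg (π : E) (N : ℕ) (a b : E) : Prop :=
  a ∈ FinE E ∧ b ∈ FinE E ∧ ∃ w ∈ FinE E, a = b + π ^ N * w

lemma Cg.refl {π : E} {N : ℕ} {a : E} (h : a ∈ FinE E) : Cg π N a a :=
  ⟨h, h, 0, (FinE E).zero_mem, by ring⟩

lemma Cg.add {π : E} {N : ℕ} {a b a' b' : E} (h : Cg π N a b) (h' : Cg π N a' b') :
    Cg π N (a + a') (b + b') := by
  obtain ⟨h1, h2, w, hw, e⟩ := h
  obtain ⟨h1', h2', w', hw', e'⟩ := h'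
  exact ⟨(FinE E).add_mem h1 h1', (FinE E).add_mem h2 h2', w + w', (FinE E).add_mem hw hw',
    by rw [e, e']; ring⟩

lemma Cg.mul {π : E} {N : ℕ} {a b a' b' : E} (h : Cg π N a b) (h' : Cg π N a' b') :
    Cg π N (a * a') (b * b') := by
  obtain ⟨h1, h2, w, hw, e⟩ := h
  obtain ⟨h1', h2', w', hw', e'⟩ := h'
  refine ⟨(FinE E).mul_mem h1 h1', (FinE E).mul_mem h2 h2', w * a' + b * w',
    (FinE E).add_mem ((FinE E).mul_mem hw h1') ((FinE E).mul_mem h2 hw'), ?_⟩
  rw [e]
  conv_lhs => rw [add_mul]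
  conv_lhs => enter [1]; rw [e']
  ring

lemma Cg.pow {π : E} {N : ℕ} {a b : E} (h : Cg π N a b) (k : ℕ) :
    Cg π N (a ^ k) (b ^ k) := by
  induction k with
  | zero => rw [pow_zero, pow_zero]; exact Cg.refl (FinE E).one_mem
  | succ k ih => rw [pow_succ, pow_succ]; exact ih.mul h

lemma Cg.sum {π : E} {N : ℕ} {ι : Type*} (s : Finset ι) {a b : ι → E}
    (h : ∀ i ∈ s, Cg π N (a i) (b i)) : Cg π N (∑ i ∈ s, a i) (∑ i ∈ s, b i) := by
  classical
  induction s using Finset.induction_on with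
  | empty => rw [sum_empty, sum_empty]; exact Cg.refl (FinE E).zero_mem
  | insert j s hj ih =>
    rw [sum_insert hj, sum_insert hj]
    exact (h j (mem_insert_self _ _)).add (ih fun i hi => h i (mem_insert_of_mem hi))

/-- the transfer of a negative value to the real plane -/
theorem art0 {π : E} (hπ : Disc π) (x y : E) (F : MvPolynomial (Fin 2) ℝ)
    (hF : MvPolynomial.aeval ![x, y] F < 0) :
    ∃ a b : ℝ, MvPolynomial.eval ![a, b] F < 0 := by
  obtain ⟨hpos, hinf, hall⟩ := id hπ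
  obtain ⟨M1, hM1⟩ := exists_fin hπ x
  obtain ⟨M2, hM2⟩ := exists_fin hπ y
  set M := M1 + M2 with hM
  have hx : π ^ M * x ∈ FinE E := by
    have e : π ^ M * x = π ^ M2 * (π ^ M1 * x) := by rw [hM, pow_add]; ring
    rw [e]
    exact (FinE E).mul_mem ((FinE E).pow_mem hinf.mem _) hM1
  have hy : π ^ M * y ∈ FinE E := by
    have e : π ^ M * y = π ^ M1 * (π ^ M2 * y) := by rw [hM, pow_add]; ring
    rw [e]
    exact (FinE E).mul_mem ((FinE E).pow_mem hinf.mem _) hM2
  set D := F.totalDegree with hD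
  have hdeg : ∀ m ∈ F.support, m 0 + m 1 ≤ D := by
    intro m hm
    have := MvPolynomial.le_totalDegree hm
    rwa [Finsupp.sum_fintype _ _ (fun _ => rfl), Fin.sum_univ_two] at this
  set z := π ^ (M * D) * MvPolynomial.aeval ![x, y] F with hz
  have hzneg : z < 0 := mul_neg_of_pos_of_neg (pow_pos hpos _) hF
  have hzsum : z = ∑ m ∈ F.support, algebraMap ℝ E (F.coeff m)
      * ((π ^ M * x) ^ m 0 * (π ^ M * y) ^ m 1 * π ^ (M * (D - (m 0 + m 1)))) := by
    rw [hz, MvPolynomial.aeval_def, MvPolynomial.eval₂_eq', mul_sum]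
    refine sum_congr rfl fun m hm => ?_
    have e : M * D = M * m 0 + M * m 1 + M * (D - (m 0 + m 1)) := by
      rw [← mul_add, ← mul_add, Nat.add_sub_cancel' (hdeg m hm)]
    rw [Fin.prod_univ_two, e]
    simp only [Matrix.cons_val_zero, Matrix.cons_val_one, pow_add, pow_mul, mul_pow]
    ring
  have hzfin : z ∈ FinE E := by
    rw [hzsum]
    exact (FinE E).sum_mem fun m _ => (FinE E).mul_mem (c_mem _) ((FinE E).mul_mem
      ((FinE E).mul_mem ((FinE E).pow_mem hx _) ((FinE E).pow_mem hy _))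
      ((FinE E).pow_mem hinf.mem _))
  obtain ⟨k, hk⟩ := hall z hzneg.ne
  have hk0 : k ≤ 0 := by
    by_contra h
    push Not at h
    obtain ⟨j, rfl⟩ : ∃ j : ℕ, k = j := ⟨k.toNat, by omega⟩
    rw [zpow_natCast] at hk
    refine not_inf_un (Inf.mul (hinf.pow (k := j) (by omega)) hzfin) ?_
    rwa [mul_comm]
  obtain ⟨j, rfl⟩ : ∃ j : ℕ, k = -(j : ℤ) := ⟨(-k).toNat, by omega⟩
  obtain ⟨U, u, hu, eu⟩ := expand hπ hx (j + 1)
  obtain ⟨V, v, hv, ev⟩ := expand hπ hy (j + 1)
  have hpoly : ∀ S : Polynomial ℝ, Polynomial.aeval π S ∈ FinE E := by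
    intro S
    induction S using Polynomial.induction_on' with
    | add p q hp hq => rw [map_add]; exact (FinE E).add_mem hp hq
    | monomial k a =>
      rw [Polynomial.aeval_monomial]
      exact (FinE E).mul_mem (c_mem a) ((FinE E).pow_mem hinf.mem _)
  have hcu : Cg π (j + 1) (π ^ M * x) (Polynomial.aeval π U) := ⟨hx, hpoly U, u, hu, eu⟩
  have hcv : Cg π (j + 1) (π ^ M * y) (Polynomial.aeval π V) := ⟨hy, hpoly V, v, hv, ev⟩
  set Q : Polynomial ℝ := ∑ m ∈ F.support, Polynomial.C (F.coeff m)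
      * (U ^ m 0 * V ^ m 1 * Polynomial.X ^ (M * (D - (m 0 + m 1)))) with hQ
  have hQπ : Cg π (j + 1) z (Polynomial.aeval π Q) := by
    rw [hzsum, hQ, map_sum]
    refine Cg.sum _ fun m _ => ?_
    rw [map_mul, map_mul, map_mul, map_pow, map_pow, map_pow, Polynomial.aeval_C,
      Polynomial.aeval_X]
    exact (Cg.refl (c_mem _)).mul (((hcu.pow _).mul (hcv.pow _)).mul
      (Cg.refl ((FinE E).pow_mem hinf.mem _)))
  obtain ⟨-, -, w, hw, ew⟩ := hQπ
  have hQneg : Polynomial.aeval π Q < 0 := by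
    have hpj : 0 < π ^ (-(j : ℤ)) := zpow_pos hpos _
    have h1 : z * π ^ (-(j : ℤ)) < 0 := mul_neg_of_neg_of_pos hzneg hpj
    have h2 : Inf (Polynomial.aeval π Q * π ^ (-(j : ℤ)) - z * π ^ (-(j : ℤ))) := by
      have e : Polynomial.aeval π Q * π ^ (-(j : ℤ)) - z * π ^ (-(j : ℤ)) = -(π * w) := by
        rw [ew, zpow_neg, zpow_natCast]
        have : π ^ j ≠ 0 := pow_ne_zero _ hpos.ne'
        field_simp
        ring
      rw [e]
      exact (hinf.mul hw).neg
    have h3 := un_neg h1 hk h2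
    by_contra h4
    push Not at h4
    exact absurd (mul_nonneg h4 hpj.le) (not_le.2 h3)
  obtain ⟨ε, hε, hεQ⟩ := poly_neg hpos hinf hQneg
  refine ⟨U.eval ε / ε ^ M, V.eval ε / ε ^ M, ?_⟩
  have h5 : Q.eval ε = ε ^ (M * D) * MvPolynomial.eval ![U.eval ε / ε ^ M, V.eval ε / ε ^ M] F := by
    rw [hQ, Polynomial.eval_finsetSum, MvPolynomial.eval_eq', mul_sum]
    refine sum_congr rfl fun m hm => ?_
    have e : M * D = M * m 0 + M * m 1 + M * (D - (m 0 + m 1)) := by
      rw [← mul_add, ← mul_add, Nat.add_sub_cancel' (hdeg m hm)]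
    rw [Fin.prod_univ_two, e]
    simp only [Matrix.cons_val_zero, Matrix.cons_val_one, pow_add, pow_mul, div_pow,
      Polynomial.eval_mul, Polynomial.eval_C, Polynomial.eval_pow, Polynomial.eval_X]
    have : ε ^ M ≠ 0 := pow_ne_zero _ hε.ne'
    field_simp
  rw [h5] at hεQ
  by_contra h6
  push Not at h6
  exact absurd (mul_nonneg (pow_pos hε _).le h6) (not_le.2 hεQ)

end

end Pool.Agent.Q107.HG
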