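import Mathlib
import Pool.Agent.Q107.HG.Ord

/-!
# A uniformizer for the magnitudes
-/

set_option autoImplicit false

namespace Pool.Agent.Q107.HG

open Finset

section

variable {E : Type*} [Field E] [LinearOrder E] [IsStrictOrderedRing E] [Algebra ℝ E]

lemma aeval_fin {t : E} (ht : t ∈ FinE E) (S : Polynomial ℝ) :
    Polynomial.aeval t S ∈ FinE E := by
  induction S using Polynomial.induction_on' with
  | add p q hp hq => rw [map_add]; exact (FinE E).add_mem hp hq
  | monomial k a =>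
    rw [Polynomial.aeval_monomial]
    exact (FinE E).mul_mem (c_mem a) ((FinE E).pow_mem ht _)

lemma aeval_un {t : E} (ht : Inf t) {R : Polynomial ℝ} (hR : R.coeff 0 ≠ 0) :
    Un (Polynomial.aeval t R) := by
  have hR2 : Inf (Polynomial.aeval t R - algebraMap ℝ E (R.coeff 0)) := by
    have e := Polynomial.divX_mul_X_add R
    have e2 : Polynomial.aeval t R = t * Polynomial.aeval t R.divX
        + algebraMap ℝ E (R.coeff 0) := by
      conv_lhs => rw [← e]
      rw [map_add, map_mul, Polynomial.aeval_X, Polynomial.aeval_C, mul_comm]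
    rw [e2, add_sub_cancel_right]
    exact ht.mul (aeval_fin ht.mem _)
  exact un_of_inf hR hR2

lemma un_neg' {z : E} (h : Un z) : Un (-z) := by
  have := h.mul (c_un (E := E) (show (-1 : ℝ) ≠ 0 by norm_num))
  rwa [map_neg, map_one, mul_neg_one] at this

lemma un_abs {z : E} (h : Un z) : Un |z| := by
  rcases abs_choice z with h1 | h1
  · rwa [h1]
  · rw [h1]
    exact un_neg' h

lemma un_of_abs {z : E} (h : Un |z|) : Un z := by
  rcases abs_choice z with h1 | h1
  · rwa [h1] at h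
  · rw [h1] at h
    have := un_neg' h
    rwa [neg_neg] at this

lemma inf_abs {z : E} (h : Inf z) : Inf |z| := fun r hr => by
  rw [abs_abs]
  exact h r hr

lemma fin_of_pow {w : E} {D : ℕ} (hD : D ≠ 0) (h : w ^ D ∈ FinE E) : w ∈ FinE E := by
  obtain ⟨R, hR⟩ := h
  rw [abs_pow] at hR
  rcases le_total |w| 1 with h1 | h1
  · exact ⟨1, by rwa [map_one]⟩
  · exact ⟨R, (le_self_pow₀ h1 hD).trans hR⟩

lemma un_of_pow {w : E} {D : ℕ} (hD : D ≠ 0) (h : Un (w ^ D)) : Un w := by
  refine ⟨fun h0 => h.1 (by rw [h0, zero_pow hD]), fin_of_pow hD h.2.1, fin_of_pow hD ?_⟩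
  rw [inv_pow]
  exact h.2.2

lemma inf_of_pow {w : E} {D : ℕ} (hD : D ≠ 0) (h : Inf (w ^ D)) : Inf w := by
  intro r hr
  have h1 := h (r ^ D) (by positivity)
  rw [abs_pow, map_pow] at h1
  exact (pow_le_pow_iff_left₀ (abs_nonneg _) (c_nonneg hr.le) hD).1 h1

/-- an infinitesimal that measures the polynomials in `y` -/
lemma exists_s {y : E} (hy : Function.Injective (Polynomial.aeval (R := ℝ) y)) :
    ∃ s : E, 0 < s ∧ Inf s ∧ ∀ P : Polynomial ℝ, P ≠ 0 → ∃ m : ℤ,
      Un (Polynomial.aeval y P * s ^ m) := by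
  suffices h : ∃ t : E, t ≠ 0 ∧ Inf t ∧ ∀ P : Polynomial ℝ, P ≠ 0 → ∃ m : ℤ,
      Un (Polynomial.aeval y P * t ^ m) by
    obtain ⟨t, ht0, hti, hP⟩ := h
    refine ⟨|t|, abs_pos.2 ht0, inf_abs hti, fun P hP0 => ?_⟩
    obtain ⟨m, hm⟩ := hP P hP0
    refine ⟨m, un_of_abs ?_⟩
    have := un_abs hm
    rw [abs_mul, abs_zpow] at this
    rwa [abs_mul, abs_zpow, abs_abs]
  by_cases hf : y ∈ FinE E
  · obtain ⟨a, ha⟩ := st hf
    refine ⟨y - algebraMap ℝ E a, fun h0 => ?_, ha, fun P hP0 => ?_⟩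
    · have h1 : Polynomial.aeval (R := ℝ) y (Polynomial.X - Polynomial.C a)
          = Polynomial.aeval (R := ℝ) y 0 := by
        rw [map_sub, Polynomial.aeval_X, Polynomial.aeval_C, map_zero, h0]
      exact Polynomial.X_sub_C_ne_zero a (hy h1)
    · set t := y - algebraMap ℝ E a with ht
      have ht0 : t ≠ 0 := fun h0 => by
        have h1 : Polynomial.aeval (R := ℝ) y (Polynomial.X - Polynomial.C a)
            = Polynomial.aeval (R := ℝ) y 0 := by
          rw [map_sub, Polynomial.aeval_X, Polynomial.aeval_C, map_zero, ← ht, h0]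
        exact Polynomial.X_sub_C_ne_zero a (hy h1)
      set Q := P.comp (Polynomial.X + Polynomial.C a) with hQ
      have hQ0 : Q ≠ 0 := by
        rw [hQ]
        intro h0
        apply hP0
        have h1 : (P.comp (Polynomial.X + Polynomial.C a)).comp
            (Polynomial.X - Polynomial.C a) = 0 := by rw [h0, Polynomial.zero_comp]
        rw [Polynomial.comp_assoc] at h1
        simpa using h1
      have hQe : Polynomial.aeval y P = Polynomial.aeval t Q := by
        rw [hQ, Polynomial.aeval_comp, map_add, Polynomial.aeval_X, Polynomial.aeval_C, ht,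
          sub_add_cancel]
      have hc : Q.coeff Q.natTrailingDegree ≠ 0 := by
        have := Polynomial.trailingCoeff_nonzero_iff_nonzero.2 hQ0
        rwa [Polynomial.trailingCoeff] at this
      have hdv : Polynomial.X ^ Q.natTrailingDegree ∣ Q := by
        rw [Polynomial.X_pow_dvd_iff]
        intro d hd
        exact Polynomial.coeff_eq_zero_of_lt_natTrailingDegree hd
      obtain ⟨R, hR⟩ := hdv
      generalize Q.natTrailingDegree = n at hc hR
      have h0 := Polynomial.coeff_X_pow_mul R n 0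
      rw [zero_add, ← hR] at h0
      rw [h0] at hc
      refine ⟨-(n : ℤ), ?_⟩
      rw [hQe, hR, map_mul, map_pow, Polynomial.aeval_X, zpow_neg, zpow_natCast, mul_comm,
        ← mul_assoc, inv_mul_cancel₀ (pow_ne_zero _ ht0), one_mul]
      exact aeval_un ha hc
  · have hy0 : y ≠ 0 := fun h0 => hf (by rw [h0]; exact (FinE E).zero_mem)
    have hinv : Inf y⁻¹ := by
      intro r hr
      by_contra h
      push Not at h
      apply hf
      refine ⟨r⁻¹, ?_⟩
      rw [abs_inv] at h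
      have := inv_anti₀ (c_pos hr) h.le
      rwa [inv_inv, ← map_inv₀] at this
    refine ⟨y⁻¹, inv_ne_zero hy0, hinv, fun P hP0 => ⟨P.natDegree, ?_⟩⟩
    let _ : Invertible y := invertibleOfNonzero hy0
    have h1 := Polynomial.eval₂_reverse_mul_pow (algebraMap ℝ E) y P
    rw [Polynomial.aeval_def, ← h1, zpow_natCast, mul_assoc, ← mul_pow, mul_inv_cancel₀ hy0,
      one_pow, mul_one, invOf_eq_inv, ← Polynomial.aeval_def]
    refine aeval_un hinv ?_
    rw [Polynomial.coeff_zero_reverse]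
    exact Polynomial.leadingCoeff_ne_zero.2 hP0

theorem vg {y : E} (hy : Function.Injective (Polynomial.aeval (R := ℝ) y)) (n : ℕ)
    (halg : ∀ z : E, ∃ c : ℕ → Polynomial ℝ, (∃ i ∈ range (n + 1), c i ≠ 0) ∧
      ∑ i ∈ range (n + 1), Polynomial.aeval y (c i) * z ^ i = 0) :
    ∃ π : E, Disc π := by
  obtain ⟨s, hs0, hsi, hs⟩ := exists_s hy
  have hB : ∀ z : E, z ≠ 0 → ∃ (q : ℕ) (m : ℤ), 1 ≤ q ∧ q ≤ n ∧ Un (z ^ q * s ^ m) := by
    intro z hz
    obtain ⟨c, ⟨i0, hi0, hci0⟩, hsum⟩ := halg z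
    set t : ℕ → E := fun i => Polynomial.aeval y (c i) * z ^ i with ht
    obtain ⟨i, hi, hmax⟩ := exists_max_image (range (n + 1)) (fun i => |t i|) ⟨i0, hi0⟩
    have hne : ∀ i, c i ≠ 0 → t i ≠ 0 := fun i h => mul_ne_zero
      (fun h0 => h (hy (by rw [h0, map_zero]))) (pow_ne_zero _ hz)
    have hti : 0 < |t i| := lt_of_lt_of_le (abs_pos.2 (hne i0 hci0)) (hmax i0 hi0)
    have hci : c i ≠ 0 := by
      intro h0
      rw [ht] at hti
      simp only [h0, map_zero, zero_mul, abs_zero] at hti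
      exact lt_irrefl _ hti
    have h1 : |t i| ≤ ∑ j ∈ (range (n + 1)).erase i, |t j| := by
      have h2 := add_sum_erase (range (n + 1)) t hi
      rw [show ∑ j ∈ range (n + 1), t j = 0 from hsum] at h2
      have h3 : t i = -∑ j ∈ (range (n + 1)).erase i, t j := by linear_combination h2
      rw [h3, abs_neg]
      exact abs_sum_le_sum_abs _ _
    obtain ⟨j, hj, hjt⟩ : ∃ j ∈ (range (n + 1)).erase i, |t i| ≤ (n + 1) * |t j| := by
      by_contra hcon
      push Not at hcon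
      have h2 : (n + 1) * ∑ j ∈ (range (n + 1)).erase i, |t j|
          ≤ ∑ j ∈ (range (n + 1)).erase i, |t i| := by
        rw [mul_sum]
        exact sum_le_sum fun j hj => (hcon j hj).le
      rw [sum_const, card_erase_of_mem hi, card_range, Nat.add_sub_cancel, nsmul_eq_mul] at h2
      have h3 : ((n : E) + 1) * |t i| ≤ n * |t i| :=
        (mul_le_mul_of_nonneg_left h1 (by positivity)).trans h2
      linarith
    have hji : j ≠ i := (mem_erase.1 hj).1
    have hjr : j ∈ range (n + 1) := (mem_erase.1 hj).2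
    have htj : 0 < |t j| := by
      by_contra h
      push Not at h
      have : |t i| ≤ 0 := hjt.trans (mul_nonpos_of_nonneg_of_nonpos (by positivity) h)
      linarith
    have hcj : c j ≠ 0 := by
      intro h0
      rw [ht] at htj
      simp only [h0, map_zero, zero_mul, abs_zero] at htj
      exact lt_irrefl _ htj
    have hU : Un (t i * (t j)⁻¹) := by
      refine ⟨mul_ne_zero (abs_pos.1 hti) (inv_ne_zero (abs_pos.1 htj)), ⟨n + 1, ?_⟩, ⟨1, ?_⟩⟩
      · rw [abs_mul, abs_inv, ← div_eq_mul_inv, div_le_iff₀ htj, map_add, map_one, map_natCast]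
        exact hjt
      · rw [mul_inv, inv_inv, abs_mul, abs_inv, mul_comm, ← div_eq_mul_inv, div_le_iff₀ hti,
          map_one, one_mul]
        exact hmax j hjr
    obtain ⟨mi, hmi⟩ := hs (c i) hci
    obtain ⟨mj, hmj⟩ := hs (c j) hcj
    have hU2 : Un (z ^ (i : ℤ) * z ^ (-(j : ℤ)) * s ^ (mj - mi)) := by
      have h2 := (hU.mul hmi.inv).mul hmj
      have e : t i * (t j)⁻¹ * (Polynomial.aeval y (c i) * s ^ mi)⁻¹
          * (Polynomial.aeval y (c j) * s ^ mj)
          = z ^ (i : ℤ) * z ^ (-(j : ℤ)) * s ^ (mj - mi) := by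
        have a1 : Polynomial.aeval y (c i) ≠ 0 := fun h0 => hci (hy (by rw [h0, map_zero]))
        have a2 : Polynomial.aeval y (c j) ≠ 0 := fun h0 => hcj (hy (by rw [h0, map_zero]))
        rw [ht, zpow_sub₀ hs0.ne', zpow_natCast, zpow_neg, zpow_natCast]
        have a3 : s ^ mi ≠ 0 := zpow_ne_zero _ hs0.ne'
        have a4 : z ^ j ≠ 0 := pow_ne_zero _ hz
        field_simp
      rwa [e] at h2
    rw [← zpow_add₀ hz] at hU2
    rw [mem_range] at hi hjr
    rcases lt_or_gt_of_ne hji with h | h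
    · refine ⟨i - j, mj - mi, by omega, by omega, ?_⟩
      rwa [show (i : ℤ) + -(j : ℤ) = ((i - j : ℕ) : ℤ) by omega, zpow_natCast] at hU2
    · refine ⟨j - i, -(mj - mi), by omega, by omega, ?_⟩
      have := hU2.inv
      rwa [mul_inv, ← zpow_neg, ← zpow_neg,
        show -((i : ℤ) + -(j : ℤ)) = ((j - i : ℕ) : ℤ) by omega, zpow_natCast] at this
  have hD0 : n.factorial ≠ 0 := n.factorial_ne_zero
  have hC : ∀ z : E, z ≠ 0 → ∃ m : ℤ, Un (z ^ n.factorial * s ^ m) := by
    intro z hz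
    obtain ⟨q, m, hq1, hqn, hU⟩ := hB z hz
    obtain ⟨r, hr⟩ := Nat.dvd_factorial hq1 hqn
    refine ⟨m * r, ?_⟩
    have := hU.pow r
    rwa [mul_pow, ← pow_mul, ← hr, ← zpow_natCast (s ^ m), ← zpow_mul] at this
  generalize n.factorial = D at hD0 hC
  classical
  have hex : ∃ g : ℕ, 0 < g ∧ ∃ z : E, z ≠ 0 ∧ Un (z ^ D * s ^ (-(g : ℤ))) := by
    refine ⟨D, Nat.pos_of_ne_zero hD0, s, hs0.ne', ?_⟩
    rw [zpow_neg, zpow_natCast, mul_inv_cancel₀ (pow_ne_zero _ hs0.ne')]
    exact Un.one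
  set g := Nat.find hex with hg
  obtain ⟨hg0, z0, hz0, hU0⟩ := Nat.find_spec hex
  rw [← hg] at hg0 hU0
  have hmin : ∀ r : ℕ, r < g → ∀ z : E, z ≠ 0 → Un (z ^ D * s ^ (-(r : ℤ))) → r = 0 := by
    intro r hr z hz hU
    by_contra h0
    exact Nat.find_min hex hr ⟨Nat.pos_of_ne_zero h0, z, hz, hU⟩
  have hUπ : Un (|z0| ^ D * s ^ (-(g : ℤ))) := by
    have := un_abs hU0
    rwa [abs_mul, abs_pow, abs_zpow, abs_of_pos hs0] at this
  have hπ0 : 0 < |z0| := abs_pos.2 hz0
  refine ⟨|z0|, hπ0, ?_, fun z hz => ?_⟩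
  · apply inf_of_pow hD0
    have e : |z0| ^ D = s ^ g * (|z0| ^ D * s ^ (-(g : ℤ))) := by
      rw [zpow_neg, zpow_natCast]
      have : s ^ g ≠ 0 := pow_ne_zero _ hs0.ne'
      field_simp
    rw [e]
    exact (hsi.pow hg0).mul hUπ.2.1
  · obtain ⟨m, hm⟩ := hC z hz
    -- `z ^ D ≍ s ^ (-m)`
    refine ⟨m / g, un_of_pow hD0 ?_⟩
    have hgz : (g : ℤ) ≠ 0 := by exact_mod_cast hg0.ne'
    have hUz : Un ((z * |z0| ^ (m / g)) ^ D * s ^ (m % (g : ℤ))) := by
      have h1 := hm.mul (hUπ.zpow (m / g))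
      have e : z ^ D * s ^ m * (|z0| ^ D * s ^ (-(g : ℤ))) ^ (m / (g : ℤ))
          = (z * |z0| ^ (m / (g : ℤ))) ^ D * s ^ (m % (g : ℤ)) := by
        have e1 : m % (g : ℤ) = m + -(g : ℤ) * (m / g) := by
          have := Int.emod_add_mul_ediv m g
          linarith
        have e2 : (|z0| ^ D) ^ (m / (g : ℤ)) = (|z0| ^ (m / (g : ℤ))) ^ D := by
          rw [← zpow_natCast, ← zpow_natCast, ← zpow_mul, ← zpow_mul, mul_comm]
        rw [e1, zpow_add₀ hs0.ne', zpow_mul, mul_zpow, mul_pow, e2]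
        ring
      rwa [e] at h1
    have hr0 : 0 ≤ m % (g : ℤ) := Int.emod_nonneg _ hgz
    have hr1 : m % (g : ℤ) < g := Int.emod_lt_of_pos _ (by exact_mod_cast hg0)
    obtain ⟨r, hr⟩ : ∃ r : ℕ, m % (g : ℤ) = r := ⟨(m % (g : ℤ)).toNat, by omega⟩
    rw [hr] at hUz
    have hw0 : z * |z0| ^ (m / (g : ℤ)) ≠ 0 := mul_ne_zero hz (zpow_ne_zero _ hπ0.ne')
    have hr2 : r = 0 := by
      refine hmin r (by omega) (z * |z0| ^ (m / (g : ℤ)))⁻¹ (inv_ne_zero hw0) ?_
      have := hUz.inv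
      rwa [mul_inv, ← inv_pow, ← zpow_neg] at this
    rwa [hr2, Nat.cast_zero, zpow_zero, mul_one] at hUz

end

end Pool.Agent.Q107.HG
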