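import Mathlib
import Pool.Agent.Q107.HG.Vg
import Pool.Agent.Q107.HG.Real

/-!
# Odd factors with an ordered residue field give negative values
-/

set_option autoImplicit false

namespace Pool.Agent.Q107.HG

open Finset

section

variable {E : Type*} [Field E] [LinearOrder E] [IsStrictOrderedRing E] [Algebra ℝ E]

lemma eval_bound (S : Polynomial E) : ∃ B : E, 0 ≤ B ∧ ∀ d : E, |d| ≤ 1 → |S.eval d| ≤ B := by
  refine ⟨∑ i ∈ range (S.natDegree + 1), |S.coeff i|, sum_nonneg fun i _ => abs_nonneg _,
    fun d hd => ?_⟩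
  rw [Polynomial.eval_eq_sum_range]
  refine (abs_sum_le_sum_abs _ _).trans (sum_le_sum fun i _ => ?_)
  rw [abs_mul, abs_pow]
  exact mul_le_of_le_one_right (abs_nonneg _) (pow_le_one₀ (abs_nonneg _) hd)

lemma inf_lt_one {z : E} (h : Inf z) : |z| < 1 := by
  have h1 := h (1 / 2) (by norm_num)
  have h2 := c_lt (E := E) (show (1 / 2 : ℝ) < 1 by norm_num)
  rw [map_one] at h2
  exact lt_of_le_of_lt h1 h2

lemma sign_near {π : E} (hπ : Disc π) {S : Polynomial E} (hS : S.eval 0 ≠ 0) :
    ∃ d : E, 0 < d ∧ 0 < S.eval d * S.eval 0 ∧ 0 < S.eval (-d) * S.eval 0 := by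
  obtain ⟨B, hB0, hB⟩ := eval_bound S.divX
  obtain ⟨M, hM⟩ := exists_fin hπ (B / S.eval 0)
  have hd : 0 < π ^ (M + 1) := pow_pos hπ.1 _
  have hd1 : |π ^ (M + 1)| < 1 := inf_lt_one (hπ.2.1.pow (by omega))
  have hsm : Inf (π ^ (M + 1) * (B / S.eval 0)) := by
    rw [pow_succ', mul_assoc]
    exact hπ.2.1.mul hM
  have hsm' : π ^ (M + 1) * B < |S.eval 0| := by
    have h1 := inf_lt_one hsm
    rw [abs_mul, abs_div, abs_of_pos hd, abs_of_nonneg hB0, ← mul_div_assoc,
      div_lt_one (abs_pos.2 hS)] at h1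
    exact h1
  have key : ∀ d : E, |d| = π ^ (M + 1) → 0 < S.eval d * S.eval 0 := by
    intro d hde
    have e : S.eval d = d * S.divX.eval d + S.eval 0 := by
      conv_lhs => rw [← Polynomial.divX_mul_X_add S]
      rw [Polynomial.eval_add, Polynomial.eval_mul, Polynomial.eval_X, Polynomial.eval_C,
        ← Polynomial.coeff_zero_eq_eval_zero, mul_comm]
    have h1 : |d * S.divX.eval d| < |S.eval 0| := by
      rw [abs_mul, hde]
      refine lt_of_le_of_lt (mul_le_mul_of_nonneg_left (hB d ?_) hd.le) hsm'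
      rw [hde, ← abs_of_pos hd]
      exact hd1.le
    have h2 : -(|d * S.divX.eval d| * |S.eval 0|) ≤ d * S.divX.eval d * S.eval 0 := by
      rw [← abs_mul]
      exact neg_abs_le _
    have h3 : |d * S.divX.eval d| * |S.eval 0| < |S.eval 0| * |S.eval 0| :=
      mul_lt_mul_of_pos_right h1 (abs_pos.2 hS)
    rw [abs_mul_abs_self] at h3
    rw [e, add_mul]
    linarith
  refine ⟨π ^ (M + 1), hd, key _ (abs_of_pos hd), key _ ?_⟩
  rw [abs_neg, abs_of_pos hd]

lemma odd_neg {π : E} (hπ : Disc π) {S : Polynomial E} (hS : S.eval 0 ≠ 0) {m : ℕ}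
    (hm : Odd m) : ∃ d : E, (Polynomial.X ^ m * S).eval d < 0 := by
  obtain ⟨d, hd, h1, h2⟩ := sign_near hπ hS
  rcases lt_or_gt_of_ne hS with h | h
  · refine ⟨d, ?_⟩
    rw [Polynomial.eval_mul, Polynomial.eval_pow, Polynomial.eval_X]
    have h3 : S.eval d < 0 := by
      by_contra hc
      push Not at hc
      exact absurd (mul_nonpos_of_nonneg_of_nonpos hc h.le) (not_le.2 h1)
    exact mul_neg_of_pos_of_neg (pow_pos hd _) h3
  · refine ⟨-d, ?_⟩
    rw [Polynomial.eval_mul, Polynomial.eval_pow, Polynomial.eval_X, hm.neg_pow]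
    have h3 : 0 < S.eval (-d) := by
      by_contra hc
      push Not at hc
      exact absurd (mul_nonpos_of_nonpos_of_nonneg hc h.le) (not_le.2 h2)
    rw [neg_mul]
    exact neg_neg_of_pos (mul_pos (pow_pos hd _) h3)

lemma taylor_neg {π : E} (hπ : Disc π) (x : E) {F p q : Polynomial E} {m : ℕ} (hm : Odd m)
    (hF : F = p ^ m * q) (hp : p.eval x = 0) (hp' : p.derivative.eval x ≠ 0)
    (hq : q.eval x ≠ 0) : ∃ z : E, F.eval z < 0 := by
  have h1 : (Polynomial.taylor x p).coeff 0 = 0 := by
    rw [Polynomial.taylor_coeff_zero]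
    exact hp
  have h2 : Polynomial.taylor x p = Polynomial.X * (Polynomial.taylor x p).divX := by
    conv_lhs => rw [← Polynomial.divX_mul_X_add (Polynomial.taylor x p)]
    rw [h1, map_zero, add_zero, mul_comm]
  set S : Polynomial E := (Polynomial.taylor x p).divX ^ m * Polynomial.taylor x q with hS
  have hS0 : S.eval 0 ≠ 0 := by
    rw [hS, Polynomial.eval_mul, Polynomial.eval_pow, ← Polynomial.coeff_zero_eq_eval_zero,
      ← Polynomial.coeff_zero_eq_eval_zero, Polynomial.taylor_coeff_zero, Polynomial.coeff_divX,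
      zero_add, Polynomial.taylor_coeff_one]
    exact mul_ne_zero (pow_ne_zero _ hp') hq
  obtain ⟨d, hd⟩ := odd_neg hπ hS0 hm
  refine ⟨d + x, ?_⟩
  have e : Polynomial.X ^ m * S = Polynomial.taylor x F := by
    rw [hF, Polynomial.taylor_mul, Polynomial.taylor_pow, hS, ← mul_assoc, ← mul_pow, ← h2]
  rw [e, Polynomial.taylor_eval] at hd
  exact hd

end

/-- the function field of the `y` line -/
abbrev KK := FractionRing (Polynomial ℝ)

/-- the variable `y` -/
noncomputable def yK : KK := algebraMap (Polynomial ℝ) KK Polynomial.X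

/-- polynomials in two variables as polynomials in `x` over the function field -/
noncomputable def tau : MvPolynomial (Fin 2) ℝ →ₐ[ℝ] Polynomial KK :=
  MvPolynomial.aeval ![Polynomial.X, Polynomial.C yK]

lemma aeval_yK (P : Polynomial ℝ) : Polynomial.aeval yK P = algebraMap (Polynomial ℝ) KK P := by
  rw [yK, Polynomial.aeval_algebraMap_apply]
  simp

theorem disc_of_finite {E : Type*} [Field E] [LinearOrder E] [IsStrictOrderedRing E]
    [Algebra ℝ E] [Algebra KK E] [IsScalarTower ℝ KK E] [FiniteDimensional KK E] :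
    ∃ π : E, Disc π := by
  have hae : ∀ P : Polynomial ℝ, Polynomial.aeval (algebraMap KK E yK) P
      = algebraMap KK E (algebraMap (Polynomial ℝ) KK P) := by
    intro P
    rw [Polynomial.aeval_algebraMap_apply, aeval_yK]
  refine vg (y := algebraMap KK E yK) ?_ (Module.finrank KK E) fun z => ?_
  · intro P Q h
    rw [hae, hae] at h
    exact IsFractionRing.injective (Polynomial ℝ) KK ((algebraMap KK E).injective h)
  · set n := Module.finrank KK E with hn
    have hint : IsIntegral KK z := IsIntegral.of_finite KK z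
    set μ := minpoly KK z with hμ
    have hdeg : μ.natDegree ≤ n := minpoly.natDegree_le z
    obtain ⟨b, hb⟩ := IsLocalization.exist_integer_multiples (nonZeroDivisors (Polynomial ℝ))
      (range (n + 1)) (fun i => μ.coeff i)
    choose! c hc using hb
    have hb0 : algebraMap (Polynomial ℝ) KK (b : Polynomial ℝ) ≠ 0 := by
      intro h0
      have := IsFractionRing.injective (Polynomial ℝ) KK (h0.trans (map_zero _).symm)
      exact nonZeroDivisors.coe_ne_zero b this
    refine ⟨c, ⟨μ.natDegree, mem_range.2 (by omega), fun h0 => ?_⟩, ?_⟩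
    · have h1 := hc μ.natDegree (mem_range.2 (by omega))
      rw [h0, map_zero, Algebra.smul_def] at h1
      have h2 := (mul_eq_zero.1 h1.symm).resolve_left hb0
      rw [← Polynomial.leadingCoeff, Polynomial.leadingCoeff_eq_zero] at h2
      exact minpoly.ne_zero hint h2
    · have h1 : Polynomial.aeval z μ = 0 := minpoly.aeval KK z
      rw [Polynomial.aeval_eq_sum_range' (Nat.lt_succ_of_le hdeg)] at h1
      have h2 : ∑ i ∈ range (n + 1), Polynomial.aeval (algebraMap KK E yK) (c i) * z ^ i
          = algebraMap KK E (algebraMap (Polynomial ℝ) KK b)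
            * ∑ i ∈ range (n + 1), μ.coeff i • z ^ i := by
        rw [mul_sum]
        refine sum_congr rfl fun i hi => ?_
        rw [hae, hc i hi, Algebra.smul_def, Algebra.smul_def, map_mul]
        ring
      rw [h2, h1, mul_zero]

theorem neg_point {E : Type*} [Field E] [LinearOrder E] [IsStrictOrderedRing E]
    [Algebra ℝ E] [Algebra KK E] [IsScalarTower ℝ KK E] [FiniteDimensional KK E]
    (x : E) (f : MvPolynomial (Fin 2) ℝ) {p q : Polynomial KK} {m : ℕ} (hm : Odd m)
    (hF : tau f = p ^ m * q) (hp : Polynomial.aeval x p = 0)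
    (hp' : Polynomial.aeval x p.derivative ≠ 0) (hq : Polynomial.aeval x q ≠ 0) :
    ∃ a b : ℝ, MvPolynomial.eval ![a, b] f < 0 := by
  obtain ⟨π, hπ⟩ := disc_of_finite (E := E)
  obtain ⟨z, hz⟩ := taylor_neg hπ x (F := (tau f).map (algebraMap KK E))
    (p := p.map (algebraMap KK E)) (q := q.map (algebraMap KK E)) hm
    (by rw [hF, Polynomial.map_mul, Polynomial.map_pow])
    (by rwa [Polynomial.eval_map_algebraMap])
    (by rwa [Polynomial.derivative_map, Polynomial.eval_map_algebraMap])
    (by rwa [Polynomial.eval_map_algebraMap])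
  refine art0 hπ z (algebraMap KK E yK) f ?_
  have e : MvPolynomial.aeval ![z, algebraMap KK E yK] f
      = ((tau f).map (algebraMap KK E)).eval z := by
    rw [Polynomial.eval_map_algebraMap, tau]
    have h1 : (((Polynomial.aeval z : Polynomial KK →ₐ[KK] E).restrictScalars ℝ).comp
        (MvPolynomial.aeval ![Polynomial.X, Polynomial.C yK])) f
        = MvPolynomial.aeval ![z, algebraMap KK E yK] f := by
      congr 1
      apply MvPolynomial.algHom_ext
      intro i
      fin_cases i
      · simp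
      · simp
    rw [← h1]
    rfl
  rw [e]
  exact hz

end Pool.Agent.Q107.HG
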