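import Mathlib
import Pool.Agent.Q107.HG.Neg
import Pool.Agent.Q107.HG.CP

/-!
# Nonnegative polynomials are sums of squares of polynomials in `x` over the field of `y`
-/

set_option autoImplicit false

namespace Pool.Agent.Q107.HG

open Finset

lemma fr_KK : FR KK := fr_frac (fr_poly fr_real)

lemma mk_sumsq {K : Type*} [Field K] (p : Polynomial K) {s : AdjoinRoot p} (h : IsSumSq s) :
    ∃ t : Polynomial K, IsSumSq t ∧ AdjoinRoot.mk p t = s := by
  induction h with
  | zero => exact ⟨0, IsSumSq.zero, map_zero _⟩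
  | sq_add a _ ih =>
    obtain ⟨t, ht, rfl⟩ := ih
    obtain ⟨a, rfl⟩ := AdjoinRoot.mk_surjective a
    exact ⟨a * a + t, IsSumSq.sq_add _ ht, by rw [map_add, map_mul]⟩

lemma tt_of_odd {f : MvPolynomial (Fin 2) ℝ} (hf : ∀ a b : ℝ, 0 ≤ MvPolynomial.eval ![a, b] f)
    {p q : Polynomial KK} {m : ℕ} (hi : Irreducible p) (hm : Odd m)
    (e : tau f = p ^ m * q) (hpq : ¬ p ∣ q) : TT p := by
  by_contra hT
  have : Fact (Irreducible p) := ⟨hi⟩
  have h1 : ∀ s : AdjoinRoot p, IsSumSq s → s ≠ -1 := by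
    intro s hs h2
    obtain ⟨t, ht, h3⟩ := mk_sumsq p hs
    apply hT
    refine ⟨t, ht, ?_⟩
    rw [← AdjoinRoot.mk_eq_zero, map_add, map_one, h3, h2]
    ring
  obtain ⟨L, hL⟩ := exists_order h1
  have : FiniteDimensional KK (AdjoinRoot p) := (AdjoinRoot.powerBasis hi.ne_zero).finite
  have hroot : Polynomial.aeval (AdjoinRoot.root p) p = 0 := by
    rw [AdjoinRoot.aeval_eq, AdjoinRoot.mk_self]
  obtain ⟨a, b, hab⟩ := neg_point (AdjoinRoot.root p) f hm e hroot
    (hi.separable.aeval_derivative_ne_zero hroot)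
    (by rw [AdjoinRoot.aeval_eq]; exact fun h0 => hpq (AdjoinRoot.mk_eq_zero.1 h0))
  exact absurd (hf a b) (not_le.2 hab)

lemma tau_lc {f : MvPolynomial (Fin 2) ℝ} (hf : ∀ a b : ℝ, 0 ≤ MvPolynomial.eval ![a, b] f) :
    IsSumSq (tau f).leadingCoeff := by
  by_contra hcon
  have h1 : ∀ s : KK, IsSumSq s → s ≠ -1 := by
    intro s hs h2
    apply fr_one fr_KK hs
    rw [h2]
    ring
  obtain ⟨L, hL, hneg⟩ := exists_order_neg h1 hcon
  obtain ⟨π, hπ⟩ := disc_of_finite (E := KK)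
  have h0 : (tau f).reverse.eval 0 ≠ 0 := by
    rw [← Polynomial.coeff_zero_eq_eval_zero, Polynomial.coeff_zero_reverse]
    exact hneg.ne
  obtain ⟨d, hd, h2, -⟩ := sign_near hπ h0
  have h3 : (tau f).reverse.eval d < 0 := by
    rw [← Polynomial.coeff_zero_eq_eval_zero, Polynomial.coeff_zero_reverse] at h2
    by_contra hc
    push Not at hc
    exact absurd (mul_nonpos_of_nonneg_of_nonpos hc hneg.le) (not_le.2 h2)
  have h4 : (tau f).eval d⁻¹ < 0 := by
    let _ : Invertible d⁻¹ := invertibleOfNonzero (inv_ne_zero hd.ne')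
    have h5 := Polynomial.eval₂_reverse_mul_pow (RingHom.id KK) d⁻¹ (tau f)
    rw [Polynomial.eval₂_id, Polynomial.eval₂_id, invOf_eq_inv, inv_inv] at h5
    rw [← h5]
    exact mul_neg_of_neg_of_pos h3 (pow_pos (inv_pos.2 hd) _)
  obtain ⟨a, b, hab⟩ := art0 hπ d⁻¹ yK f (by
    have e : MvPolynomial.aeval ![d⁻¹, yK] f = (tau f).eval d⁻¹ := by
      rw [tau]
      have h1 : (((Polynomial.aeval d⁻¹ : Polynomial KK →ₐ[KK] KK).restrictScalars ℝ).comp
          (MvPolynomial.aeval ![Polynomial.X, Polynomial.C yK])) f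
          = MvPolynomial.aeval ![d⁻¹, yK] f := by
        congr 1
        apply MvPolynomial.algHom_ext
        intro i
        fin_cases i
        · simp
        · simp
      rw [← h1, ← Polynomial.coe_aeval_eq_eval]
      rfl
    rw [e]
    exact h4)
  exact absurd (hf a b) (not_le.2 hab)

theorem tau_sumsq {f : MvPolynomial (Fin 2) ℝ} (hf0 : tau f ≠ 0)
    (hf : ∀ a b : ℝ, 0 ≤ MvPolynomial.eval ![a, b] f) : IsSumSq (tau f) := by
  apply SS.sumsq fr_KK
  exact all_fac fr_KK _ (tau f) hf0 le_rfl (tau_lc hf)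
    fun p m q _ hi hm e hpq => tt_of_odd hf hi hm e hpq

end Pool.Agent.Q107.HG
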