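import Mathlib
import Pool.Agent.Q107.HG.Tr
import Pool.Agent.Q107.HG.Init
import Pool.Agent.Q107.HG.Chain

/-!
# Clearing denominators
-/

set_option autoImplicit false

namespace Pool.Agent.Q107.HG

open Finset MvPolynomial
open Pool.Agent.Q107.HF (P2)

/-- from polynomials in `x` with coefficients polynomials in `y` -/
noncomputable def sig : Polynomial (Polynomial ℝ) →+* P2 :=
  Polynomial.eval₂RingHom (Polynomial.aeval (X 1 : P2)).toRingHom (X 0)

/-- and back -/
noncomputable def rho : P2 →ₐ[ℝ] Polynomial (Polynomial ℝ) :=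
  aeval ![Polynomial.X, Polynomial.C Polynomial.X]

lemma rho_sig (c : Polynomial (Polynomial ℝ)) : rho (sig c) = c := by
  have h : (rho : P2 →+* Polynomial (Polynomial ℝ)).comp sig = RingHom.id _ := by
    apply Polynomial.ringHom_ext'
    · apply Polynomial.ringHom_ext'
      · ext a
        simp [rho, sig]
      · simp [rho, sig]
    · simp [rho, sig]
  exact congrArg (fun φ => φ c) h

lemma sig_rho (f : P2) : sig (rho f) = f := by
  have h : sig.comp (rho : P2 →+* Polynomial (Polynomial ℝ)) = RingHom.id _ := by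
    apply MvPolynomial.ringHom_ext
    · intro a
      simp [rho, sig]
    · intro i
      fin_cases i
      · simp [rho, sig]
      · simp [rho, sig]
  exact congrArg (fun φ => φ f) h

lemma tau_eq (f : P2) : tau f = (rho f).map (algebraMap (Polynomial ℝ) KK) := by
  have h : (tau : P2 →+* Polynomial KK)
      = (Polynomial.mapRingHom (algebraMap (Polynomial ℝ) KK)).comp
        (rho : P2 →+* Polynomial (Polynomial ℝ)) := by
    apply MvPolynomial.ringHom_ext
    · intro a
      simp [rho, tau]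
      rw [IsScalarTower.algebraMap_apply ℝ (Polynomial ℝ) KK]
      rfl
    · intro i
      fin_cases i
      · simp [rho, tau]
      · simp [rho, tau, yK]
  exact congrArg (fun φ => φ f) h

lemma tau_sig (c : Polynomial (Polynomial ℝ)) :
    tau (sig c) = c.map (algebraMap (Polynomial ℝ) KK) := by
  rw [tau_eq, rho_sig]

lemma tau_inj : Function.Injective tau := by
  intro f g h
  rw [tau_eq, tau_eq] at h
  have h1 := Polynomial.map_injective _ (IsFractionRing.injective (Polynomial ℝ) KK) h
  rw [← sig_rho f, h1, sig_rho]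

lemma sig_C (p : Polynomial ℝ) : sig (Polynomial.C p) = py p := by
  simp [sig, py]

lemma py_eq (p : Polynomial ℝ) :
    py p = ∑ i ∈ range (p.natDegree + 1), p.coeff i • (X 1 : P2) ^ i := by
  rw [py, Polynomial.aeval_eq_sum_range]

lemma degx_py (p : Polynomial ℝ) : degreeOf 0 (py p) = 0 := by
  rw [← Nat.le_zero, py_eq]
  refine (degreeOf_sum_le _ _ _).trans (Finset.sup_le fun i _ => ?_)
  rw [smul_eq_C_mul]
  refine (degreeOf_C_mul_le _ _ _).trans ((degreeOf_pow_le _ _ _).trans ?_)
  rw [degreeOf_X_of_ne (show (0 : Fin 2) ≠ 1 by decide), mul_zero]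

lemma td_py (p : Polynomial ℝ) : (py p).totalDegree ≤ p.natDegree := by
  rw [py_eq]
  refine totalDegree_finsetSum_le fun i hi => ?_
  refine (totalDegree_smul_le _ _).trans ((totalDegree_pow _ _).trans ?_)
  rw [totalDegree_X, mul_one]
  have := mem_range.1 hi
  omega

lemma degx_sig (c : Polynomial (Polynomial ℝ)) : degreeOf 0 (sig c) ≤ c.natDegree := by
  have e : sig c = ∑ i ∈ range (c.natDegree + 1), py (c.coeff i) * (X 0 : P2) ^ i := by
    rw [sig, Polynomial.coe_eval₂RingHom, Polynomial.eval₂_eq_sum_range]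
    rfl
  rw [e]
  refine (degreeOf_sum_le _ _ _).trans (Finset.sup_le fun i hi => ?_)
  refine (degreeOf_mul_le _ _ _).trans ?_
  rw [degx_py, zero_add]
  refine (degreeOf_pow_le _ _ _).trans ?_
  have h1 : degreeOf 0 (X 0 : P2) ≤ 1 := by
    rw [degreeOf_X]
    split_ifs <;> omega
  have h2 := mem_range.1 hi
  calc i * degreeOf 0 (X 0 : P2) ≤ i * 1 := Nat.mul_le_mul_left _ h1
    _ ≤ c.natDegree := by omega

lemma nd_tau (f : P2) : (tau f).natDegree ≤ f.totalDegree := by
  conv_lhs => rw [f.as_sum]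
  rw [map_sum]
  refine Polynomial.natDegree_sum_le_of_forall_le _ _ fun m hm => ?_
  have h1 := le_totalDegree hm
  rw [Finsupp.sum_fintype _ _ (fun _ => rfl), Fin.sum_univ_two] at h1
  have e : tau (monomial m (coeff m f))
      = Polynomial.C (algebraMap ℝ KK (coeff m f) * yK ^ m 1) * Polynomial.X ^ m 0 := by
    rw [tau, aeval_monomial, Finsupp.prod_fintype _ _ (fun _ => pow_zero _), Fin.prod_univ_two]
    simp only [Matrix.cons_val_zero, Matrix.cons_val_one]
    rw [Polynomial.C_mul, Polynomial.C_pow, IsScalarTower.algebraMap_apply ℝ KK (Polynomial KK),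
      Polynomial.algebraMap_eq]
    ring
  rw [e]
  refine (Polynomial.natDegree_C_mul_X_pow_le _ _).trans ?_
  omega

/-- part one: sums of squares with a denominator in `y` -/
theorem part1 {f : P2} (hf0 : f ≠ 0) (hf : ∀ a b : ℝ, 0 ≤ eval ![a, b] f) {d : ℕ}
    (hd : f.totalDegree ≤ 2 * d) :
    ∃ (h : Polynomial ℝ) (n N : ℕ) (g : ℕ → P2), h.Monic ∧ h.natDegree = n + 1 ∧
      py (h ^ 2) * f = ∑ i ∈ range N, g i * g i ∧
      ∀ i ∈ range N, (g i).totalDegree ≤ d + (n + 1) ∧ ∀ m, coeff m (g i) ≠ 0 → m 0 ≤ d := by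
  have ht0 : tau f ≠ 0 := fun h => hf0 (tau_inj (h.trans (map_zero tau).symm))
  obtain ⟨N, G, hG⟩ := exists_range (tau_sumsq ht0 hf)
  have hGd : ∀ i ∈ range N, (G i).natDegree ≤ d := by
    apply nd_of_sq fr_KK
    rw [← hG]
    have := nd_tau f
    omega
  obtain ⟨b, hb⟩ := IsLocalization.exist_integer_multiples (nonZeroDivisors (Polynomial ℝ))
    (range N ×ˢ range (d + 1)) (fun p => (G p.1).coeff p.2)
  choose! c hc using hb
  have hb0 : (b : Polynomial ℝ) ≠ 0 := nonZeroDivisors.coe_ne_zero b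
  set q : ℕ → Polynomial (Polynomial ℝ) := fun i =>
    ∑ j ∈ range (d + 1), Polynomial.C (c (i, j)) * Polynomial.X ^ j with hq
  have hqd : ∀ i, (q i).natDegree ≤ d := by
    intro i
    refine Polynomial.natDegree_sum_le_of_forall_le _ _ fun j hj => ?_
    refine (Polynomial.natDegree_C_mul_X_pow_le _ _).trans ?_
    have := mem_range.1 hj
    omega
  have hqG : ∀ i ∈ range N, (q i).map (algebraMap (Polynomial ℝ) KK)
      = Polynomial.C (algebraMap (Polynomial ℝ) KK b) * G i := by
    intro i hi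
    conv_rhs => rw [Polynomial.as_sum_range_C_mul_X_pow' (G i) (Nat.lt_succ_of_le (hGd i hi))]
    rw [hq, Polynomial.map_sum, mul_sum]
    refine sum_congr rfl fun j hj => ?_
    rw [Polynomial.map_mul, Polynomial.map_C, Polynomial.map_pow, Polynomial.map_X,
      hc (i, j) (mem_product.2 ⟨hi, hj⟩), Algebra.smul_def, Polynomial.C_mul, mul_assoc]
  have h1 : py ((b : Polynomial ℝ) * b) * f = ∑ i ∈ range N, sig (q i) * sig (q i) := by
    apply tau_inj
    rw [map_mul, ← sig_C, tau_sig, Polynomial.map_C, map_mul, Polynomial.C_mul, hG, map_sum,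
      mul_sum]
    refine sum_congr rfl fun i hi => ?_
    rw [map_mul, tau_sig, hqG i hi]
    ring
  set β := (b : Polynomial ℝ).leadingCoeff with hβ
  have hβ0 : β ≠ 0 := Polynomial.leadingCoeff_ne_zero.2 hb0
  refine ⟨Polynomial.C β⁻¹ * (b : Polynomial ℝ) * Polynomial.X, (b : Polynomial ℝ).natDegree, N,
    fun i => C β⁻¹ * X 1 * sig (q i), ?_, ?_, ?_, ?_⟩
  · rw [Polynomial.Monic, Polynomial.leadingCoeff_mul, Polynomial.leadingCoeff_mul,
      Polynomial.leadingCoeff_C, Polynomial.leadingCoeff_X, mul_one, ← hβ, inv_mul_cancel₀ hβ0]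
  · rw [Polynomial.natDegree_mul_X (mul_ne_zero (Polynomial.C_ne_zero.2 (inv_ne_zero hβ0)) hb0),
      Polynomial.natDegree_C_mul (inv_ne_zero hβ0)]
  · have e : py ((Polynomial.C β⁻¹ * (b : Polynomial ℝ) * Polynomial.X) ^ 2)
        = C β⁻¹ * X 1 * (C β⁻¹ * X 1) * py ((b : Polynomial ℝ) * b) := by
      simp only [py, map_mul, map_pow, Polynomial.aeval_C, Polynomial.aeval_X,
        MvPolynomial.algebraMap_eq]
      ring
    rw [e, mul_assoc, h1, mul_sum]
    exact sum_congr rfl fun i _ => by ring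
  · have hxd : ∀ i, ∀ m, coeff m (C β⁻¹ * X 1 * sig (q i)) ≠ 0 → m 0 ≤ d := by
      intro i m hm
      refine (monomial_le_degreeOf 0 (mem_support_iff.2 hm)).trans ?_
      refine (degreeOf_mul_le _ _ _).trans ?_
      have h2 : degreeOf 0 (C β⁻¹ * X 1 : P2) = 0 := by
        rw [← Nat.le_zero]
        refine (degreeOf_C_mul_le _ _ _).trans ?_
        rw [degreeOf_X_of_ne (show (0 : Fin 2) ≠ 1 by decide)]
      rw [h2, zero_add]
      exact (degx_sig _).trans (hqd i)
    have htd : ∀ i ∈ range N, (C β⁻¹ * X 1 * sig (q i) : P2).totalDegree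
        ≤ d + ((b : Polynomial ℝ).natDegree + 1) := by
      apply td_of_sq
      have e : ∑ i ∈ range N, (C β⁻¹ * X 1 * sig (q i) : P2) * (C β⁻¹ * X 1 * sig (q i))
          = C β⁻¹ * X 1 * (C β⁻¹ * X 1) * (py ((b : Polynomial ℝ) * b) * f) := by
        rw [h1, mul_sum]
        exact sum_congr rfl fun i _ => by ring
      rw [e]
      have t1 : (C β⁻¹ * X 1 : P2).totalDegree ≤ 1 := by
        refine (totalDegree_mul _ _).trans ?_
        rw [totalDegree_C, totalDegree_X]
      have t2 : (C β⁻¹ * X 1 * (C β⁻¹ * X 1) : P2).totalDegree ≤ 2 :=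
        (totalDegree_mul _ _).trans (by omega)
      have t3 : (py ((b : Polynomial ℝ) * b)).totalDegree
          ≤ 2 * (b : Polynomial ℝ).natDegree := by
        refine (td_py _).trans (Polynomial.natDegree_mul_le.trans ?_)
        omega
      have t4 : (py ((b : Polynomial ℝ) * b) * f).totalDegree
          ≤ 2 * (b : Polynomial ℝ).natDegree + 2 * d :=
        (totalDegree_mul _ _).trans (Nat.add_le_add t3 hd)
      refine (totalDegree_mul _ _).trans ((Nat.add_le_add t2 t4).trans ?_)
      omega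
    exact fun i hi => ⟨htd i hi, hxd i⟩

end Pool.Agent.Q107.HG
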