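import Pool.Agent.Q107.HG.Init

/-!
# Positive functionals and eventually sums of squares
-/

set_option autoImplicit false

namespace Pool.Agent.Q107.HG

open Finset MvPolynomial
open Pool.Agent.Q107.HF (P2 H G sg heat sumSq_smul sumSq_C_mul H_sq pderiv_sg pcomm_iter
  iter_pderiv_zero H_add H_smul H_sumSq_sq td_sg heat_sumSq eval_sumSq_nonneg)

/-- the main estimate -/
lemma gain_sum (K : ℕ) {ε c κ : ℝ} (hε : 0 < ε) (hκ : 0 ≤ κ) (hc : (K : ℝ) + 1 ≤ 2 * ε * c ^ 2)
    (B : ℕ → P2) (hB : B (K + 1) = 0) :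
    IsSumSq (ε • ∑ m ∈ range (K + 1), (κ * ((2 : ℝ) ^ m / m.factorial * (c ^ 2) ^ m)) •
      (B m * B m) - ∑ m ∈ range (K + 1), (κ * ((2 : ℝ) ^ m / m.factorial * (c ^ 2) ^ m)) •
      (B (m + 1) * B (m + 1))) := by
  rw [sum_range_succ', sum_range_succ (n := K), hB, smul_add, smul_sum]
  have e : ∑ m ∈ range K, ε • (κ * ((2 : ℝ) ^ (m + 1) / (m + 1).factorial * (c ^ 2) ^ (m + 1))) •
      (B (m + 1) * B (m + 1)) + ε • (κ * ((2 : ℝ) ^ 0 / (0).factorial * (c ^ 2) ^ 0)) •
      (B 0 * B 0) - (∑ m ∈ range K, (κ * ((2 : ℝ) ^ m / m.factorial * (c ^ 2) ^ m)) •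
      (B (m + 1) * B (m + 1)) + (κ * ((2 : ℝ) ^ K / K.factorial * (c ^ 2) ^ K)) • (0 * 0 : P2)) =
      ∑ m ∈ range K, ((κ * ((2 : ℝ) ^ m / m.factorial * (c ^ 2) ^ m)) *
        (2 * ε * c ^ 2 / (m + 1) - 1)) • (B (m + 1) * B (m + 1)) + (ε * κ) • (B 0 * B 0) := by
    have e1 : ∀ m : ℕ, ((κ * ((2 : ℝ) ^ m / m.factorial * (c ^ 2) ^ m)) *
        (2 * ε * c ^ 2 / (m + 1) - 1)) • (B (m + 1) * B (m + 1)) =
        ε • (κ * ((2 : ℝ) ^ (m + 1) / (m + 1).factorial * (c ^ 2) ^ (m + 1))) •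
        (B (m + 1) * B (m + 1)) - (κ * ((2 : ℝ) ^ m / m.factorial * (c ^ 2) ^ m)) •
        (B (m + 1) * B (m + 1)) := by
      intro m
      rw [smul_smul, ← sub_smul]
      congr 1
      rw [Nat.factorial_succ]
      push_cast
      have h1 : (m.factorial : ℝ) ≠ 0 := by positivity
      have h2 : (m : ℝ) + 1 ≠ 0 := by positivity
      field_simp
      ring
    rw [sum_congr rfl fun m _ => e1 m, sum_sub_distrib, smul_smul]
    simp
    ring
  rw [e]
  refine (IsSumSq.sum fun m hm => sumSq_smul ?_ (IsSumSq.mul_self _)).add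
    (sumSq_smul (by positivity) (IsSumSq.mul_self _))
  rw [mem_range] at hm
  have h1 : (1 : ℝ) ≤ 2 * ε * c ^ 2 / (m + 1) := by
    rw [le_div_iff₀ (by positivity)]
    have : (m : ℝ) + 1 ≤ K + 1 := by
      have : (m : ℝ) ≤ K := by exact_mod_cast hm.le
      linarith
    linarith
  have h2 : 0 ≤ κ * ((2 : ℝ) ^ m / m.factorial * (c ^ 2) ^ m) := by positivity
  exact mul_nonneg h2 (by linarith)

lemma iter_sg (i : Fin 2) (c : ℝ) (k : ℕ) (f : P2) :
    (pderiv i)^[k] (sg c f) = C (c ^ k) * sg c ((pderiv i)^[k] f) := by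
  induction k generalizing f with
  | zero => simp
  | succ k ih =>
    rw [Function.iterate_succ_apply', ih, pderiv_C_mul, pderiv_sg, Function.iterate_succ_apply',
      pow_succ, map_mul]
    ring

/-- the pieces -/
noncomputable def Bb (M : ℕ) (c : ℝ) (g : P2) (m n : ℕ) : P2 :=
  H M (sg c ((pderiv 0)^[m] ((pderiv 1)^[n] g)))

lemma G_sg (M : ℕ) (c : ℝ) (g : P2) (m n : ℕ) :
    G M m n (sg c g) = (c ^ (m + n)) • Bb M c g m n := by
  unfold G Bb
  have h1 : (pderiv 0)^[m] (C (c ^ n) * sg c ((pderiv 1)^[n] g)) =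
      C (c ^ n) * (pderiv 0)^[m] (sg c ((pderiv 1)^[n] g)) := by
    generalize sg c ((pderiv 1)^[n] g) = y
    induction m generalizing y with
    | zero => rfl
    | succ m ih => rw [Function.iterate_succ_apply, pderiv_C_mul, ih]; rfl
  rw [iter_sg, h1, iter_sg, ← mul_assoc, ← map_mul, ← smul_eq_C_mul, H_smul]
  congr 1
  rw [← pow_add, add_comm]

lemma H_sg_sq {M : ℕ} {g : P2} (hg : g.totalDegree < M) (c : ℝ) :
    H M (sg c (g * g)) = ∑ n ∈ range M, ∑ m ∈ range M,
      (((2 : ℝ) ^ n / n.factorial * (c ^ 2) ^ n) * ((2 : ℝ) ^ m / m.factorial * (c ^ 2) ^ m)) •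
        (Bb M c g m n * Bb M c g m n) := by
  rw [map_mul, H_sq (lt_of_le_of_lt (td_sg c g) hg)]
  refine sum_congr rfl fun n _ => sum_congr rfl fun m _ => ?_
  rw [G_sg, smul_mul_smul_comm, smul_smul]
  congr 1
  rw [pow_add]
  ring

lemma Bb_dx (M : ℕ) (c : ℝ) (g : P2) (m n : ℕ) : Bb M c (pderiv 0 g) m n = Bb M c g (m + 1) n := by
  unfold Bb
  have h := pcomm_iter 1 0 n 1 g
  simp only [Function.iterate_one] at h
  rw [h, Function.iterate_succ_apply]

lemma Bb_dy (M : ℕ) (c : ℝ) (g : P2) (m n : ℕ) : Bb M c (pderiv 1 g) m n = Bb M c g m (n + 1) := by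
  unfold Bb
  rw [Function.iterate_succ_apply]

/-- eventually a sum of squares -/
def Ev (M : ℕ) (u : P2) : Prop := ∃ s0 > 0, ∀ c : ℝ, s0 ≤ c → IsSumSq (H M (sg c u))

lemma Ev.add {M : ℕ} {u v : P2} (hu : Ev M u) (hv : Ev M v) : Ev M (u + v) := by
  obtain ⟨s, hs, h⟩ := hu
  obtain ⟨t, ht, h'⟩ := hv
  refine ⟨max s t, lt_max_of_lt_left hs, fun c hc => ?_⟩
  rw [map_add, H_add]
  exact (h c ((le_max_left _ _).trans hc)).add (h' c ((le_max_right _ _).trans hc))

lemma Ev.smul {M : ℕ} {u : P2} (hu : Ev M u) {a : ℝ} (ha : 0 ≤ a) : Ev M (a • u) := by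
  obtain ⟨s, hs, h⟩ := hu
  refine ⟨s, hs, fun c hc => ?_⟩
  rw [map_smul, H_smul]
  exact sumSq_smul ha (h c hc)

lemma Ev.sq {M : ℕ} {g : P2} (hg : g.totalDegree < M) : Ev M (g * g) := by
  refine ⟨1, one_pos, fun c _ => ?_⟩
  rw [map_mul]
  exact H_sumSq_sq (lt_of_le_of_lt (td_sg c g) hg)

lemma Ev.zero {M : ℕ} : Ev M 0 := by
  refine ⟨1, one_pos, fun c _ => ?_⟩
  have h : (0 : P2) = (0 : ℝ) • 0 := by simp
  rw [h, map_smul, H_smul, zero_smul]
  exact IsSumSq.zero

lemma Ev.sum {M : ℕ} {ι : Type*} (s : Finset ι) {u : ι → P2} (h : ∀ i ∈ s, Ev M (u i)) :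
    Ev M (∑ i ∈ s, u i) := by
  classical
  induction s using Finset.induction_on with
  | empty => simpa using Ev.zero
  | insert i s hi ih =>
    rw [sum_insert hi]
    exact (h i (mem_insert_self _ _)).add (ih fun j hj => h j (mem_insert_of_mem hj))

lemma ev_dx {M : ℕ} {g : P2} (hg : g.totalDegree < M) {ε : ℝ} (hε : 0 < ε) :
    Ev M (ε • (g * g) - pderiv 0 g * pderiv 0 g) := by
  obtain ⟨K, rfl⟩ : ∃ K, M = K + 1 := ⟨M - 1, by omega⟩
  refine ⟨max 1 ((K + 1) / (2 * ε)), lt_max_of_lt_left one_pos, fun c hc => ?_⟩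
  have hc1 : 1 ≤ c := (le_max_left _ _).trans hc
  have hc2 : (K : ℝ) + 1 ≤ 2 * ε * c ^ 2 := by
    have h1 := (le_max_right _ _).trans hc
    rw [div_le_iff₀ (by positivity)] at h1
    have h2 : c ≤ c ^ 2 := by nlinarith
    nlinarith [mul_le_mul_of_nonneg_left h2 (show (0 : ℝ) ≤ 2 * ε by positivity)]
  have hd : (pderiv 0 g).totalDegree < K + 1 :=
    lt_of_le_of_lt ((Pool.Agent.Q107.HF.totalDegree_pderiv_le 0 le_rfl).trans (Nat.sub_le _ _)) hg
  have e : H (K + 1) (sg c (ε • (g * g) - pderiv 0 g * pderiv 0 g)) =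
      ε • H (K + 1) (sg c (g * g)) + (-1 : ℝ) • H (K + 1) (sg c (pderiv 0 g * pderiv 0 g)) := by
    rw [← H_smul, ← H_smul, ← H_add, ← map_smul, ← map_smul, ← map_add]
    congr 2
    rw [neg_smul, one_smul, sub_eq_add_neg]
  rw [e, H_sg_sq hg, H_sg_sq hd]
  simp only [Bb_dx]
  rw [neg_smul, one_smul, ← sub_eq_add_neg, smul_sum, ← sum_sub_distrib]
  refine IsSumSq.sum fun n _ => ?_
  refine gain_sum K hε (by positivity) hc2 (fun m => Bb (K + 1) c g m n) ?_
  unfold Bb
  rw [pcomm_iter, iter_pderiv_zero 0 (by omega)]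
  have : (pderiv 1)^[n] (0 : P2) = 0 := Function.iterate_fixed (map_zero _) n
  rw [this, map_zero]
  have h := H_smul (K + 1) 0 (0 : P2)
  simpa using h

lemma ev_dy {M : ℕ} {g : P2} (hg : g.totalDegree < M) {ε : ℝ} (hε : 0 < ε) :
    Ev M (ε • (g * g) - pderiv 1 g * pderiv 1 g) := by
  obtain ⟨K, rfl⟩ : ∃ K, M = K + 1 := ⟨M - 1, by omega⟩
  refine ⟨max 1 ((K + 1) / (2 * ε)), lt_max_of_lt_left one_pos, fun c hc => ?_⟩
  have hc1 : 1 ≤ c := (le_max_left _ _).trans hc
  have hc2 : (K : ℝ) + 1 ≤ 2 * ε * c ^ 2 := by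
    have h1 := (le_max_right _ _).trans hc
    rw [div_le_iff₀ (by positivity)] at h1
    have h2 : c ≤ c ^ 2 := by nlinarith
    nlinarith [mul_le_mul_of_nonneg_left h2 (show (0 : ℝ) ≤ 2 * ε by positivity)]
  have hd : (pderiv 1 g).totalDegree < K + 1 :=
    lt_of_le_of_lt ((Pool.Agent.Q107.HF.totalDegree_pderiv_le 1 le_rfl).trans (Nat.sub_le _ _)) hg
  have e : H (K + 1) (sg c (ε • (g * g) - pderiv 1 g * pderiv 1 g)) =
      ε • H (K + 1) (sg c (g * g)) + (-1 : ℝ) • H (K + 1) (sg c (pderiv 1 g * pderiv 1 g)) := by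
    rw [← H_smul, ← H_smul, ← H_add, ← map_smul, ← map_smul, ← map_add]
    congr 2
    rw [neg_smul, one_smul, sub_eq_add_neg]
  rw [e, H_sg_sq hg, H_sg_sq hd]
  simp only [Bb_dy]
  rw [neg_smul, one_smul, ← sub_eq_add_neg, smul_sum, ← sum_sub_distrib]
  have e2 : ∑ n ∈ range (K + 1), (ε • ∑ m ∈ range (K + 1),
      (((2 : ℝ) ^ n / n.factorial * (c ^ 2) ^ n) * ((2 : ℝ) ^ m / m.factorial * (c ^ 2) ^ m)) •
        (Bb (K + 1) c g m n * Bb (K + 1) c g m n) - ∑ m ∈ range (K + 1),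
      (((2 : ℝ) ^ n / n.factorial * (c ^ 2) ^ n) * ((2 : ℝ) ^ m / m.factorial * (c ^ 2) ^ m)) •
        (Bb (K + 1) c g m (n + 1) * Bb (K + 1) c g m (n + 1))) =
      ∑ m ∈ range (K + 1), (ε • ∑ n ∈ range (K + 1),
      (((2 : ℝ) ^ m / m.factorial * (c ^ 2) ^ m) * ((2 : ℝ) ^ n / n.factorial * (c ^ 2) ^ n)) •
        (Bb (K + 1) c g m n * Bb (K + 1) c g m n) - ∑ n ∈ range (K + 1),
      (((2 : ℝ) ^ m / m.factorial * (c ^ 2) ^ m) * ((2 : ℝ) ^ n / n.factorial * (c ^ 2) ^ n)) •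
        (Bb (K + 1) c g m (n + 1) * Bb (K + 1) c g m (n + 1))) := by
    simp only [smul_sum]
    rw [sum_sub_distrib, sum_sub_distrib, sum_comm]
    congr 1
    · refine sum_congr rfl fun m _ => sum_congr rfl fun n _ => ?_
      rw [mul_comm ((2 : ℝ) ^ n / n.factorial * (c ^ 2) ^ n)]
    · rw [sum_comm]
      refine sum_congr rfl fun m _ => sum_congr rfl fun n _ => ?_
      rw [mul_comm ((2 : ℝ) ^ n / n.factorial * (c ^ 2) ^ n)]
  rw [e2]
  refine IsSumSq.sum fun m _ => ?_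
  refine gain_sum K hε (by positivity) hc2 (fun n => Bb (K + 1) c g m n) ?_
  unfold Bb
  rw [iter_pderiv_zero 1 (by omega)]
  have : (pderiv 0)^[m] (0 : P2) = 0 := Function.iterate_fixed (map_zero _) m
  rw [this, map_zero]
  have h := H_smul (K + 1) 0 (0 : P2)
  simpa using h

/-- **Positive functionals decide.** -/
theorem final {d : ℕ} {W : Submodule ℝ P2} (hW : Good d W) {f : P2} (hf : f ∈ Sq W)
    (hall : ∀ L, Fun W L → (∃ g ∈ W, L (g * g) ≠ 0) → 0 < L f) : Ev (d + 1) f := by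
  by_contra hno
  set M := d + 1 with hM
  have htd : ∀ g ∈ W, g.totalDegree < M := fun g hg => by
    have := hW.td g hg
    omega
  have hfd := fin_of_td hW.td
  have h1W := one_mem hW
  obtain ⟨B, hB⟩ : ∃ B : Finset P2, Submodule.span ℝ (B : Set P2) = W :=
    (Submodule.fg_iff_finiteDimensional W).2 hfd
  have hBW : ∀ b ∈ B, b ∈ W := fun b hb => by
    rw [← hB]
    exact Submodule.subset_span hb
  set e : P2 := 1 * 1 + ∑ b ∈ B, b * b with he
  have heS : e ∈ Sq W := (Sq W).add_mem (mul_mem_Sq h1W h1W)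
    ((Sq W).sum_mem fun b hb => mul_mem_Sq (hBW b hb) (hBW b hb))
  have heE : Ev M e := (Ev.sq (htd 1 h1W)).add (Ev.sum _ fun b hb => Ev.sq (htd b (hBW b hb)))
  -- bounds
  have hR : ∀ g ∈ W, ∃ K : ℝ, 0 ≤ K ∧ Ev M (K • e - g * g) := by
    intro g hg
    rw [← hB] at hg
    suffices h : g ∈ W ∧ ∃ K : ℝ, 0 ≤ K ∧ Ev M (K • e - g * g) from h.2
    induction hg using Submodule.span_induction with
    | mem g hg =>
      refine ⟨hBW g hg, 1, zero_le_one, ?_⟩
      have e1 : (1 : ℝ) • e - g * g = 1 * 1 + ∑ b ∈ B.erase g, b * b := by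
        have := add_sum_erase B (fun b => b * b) (show g ∈ B from hg)
        rw [one_smul, he, ← this]
        ring
      rw [e1]
      exact (Ev.sq (htd 1 h1W)).add
        (Ev.sum _ fun b hb => Ev.sq (htd b (hBW b (mem_of_mem_erase hb))))
    | zero => exact ⟨W.zero_mem, 0, le_rfl, by simpa using Ev.zero⟩
    | add x y _ _ hx hy =>
      obtain ⟨hxW, K, hK, hx'⟩ := hx
      obtain ⟨hyW, K', hK', hy'⟩ := hy
      refine ⟨W.add_mem hxW hyW, 2 * K + 2 * K', by positivity, ?_⟩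
      have h1 := ((hx'.smul (show (0 : ℝ) ≤ 2 by norm_num)).add
        (hy'.smul (show (0 : ℝ) ≤ 2 by norm_num))).add (Ev.sq (htd (x - y) (W.sub_mem hxW hyW)))
      have e1 : (2 : ℝ) • (K • e - x * x) + (2 : ℝ) • (K' • e - y * y) + (x - y) * (x - y) =
          (2 * K + 2 * K') • e - (x + y) * (x + y) := by
        simp only [smul_eq_C_mul, map_mul, map_add]
        have : (C (2 : ℝ) : P2) = 2 := map_ofNat _ 2
        rw [this]
        ring
      rwa [e1] at h1
    | smul a x _ hx =>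
      obtain ⟨hxW, K, hK, hx'⟩ := hx
      refine ⟨W.smul_mem _ hxW, a ^ 2 * K, by positivity, ?_⟩
      have h1 := hx'.smul (sq_nonneg a)
      have e1 : (a ^ 2) • (K • e - x * x) = (a ^ 2 * K) • e - (a • x) * (a • x) := by
        simp only [smul_eq_C_mul, map_mul, map_pow]
        ring
      rwa [e1] at h1
  have hQ : ∀ u ∈ Sq W, ∃ K : ℝ, 0 ≤ K ∧ Ev M (K • e + u) ∧ Ev M (K • e - u) := by
    intro u hu
    induction hu using Submodule.span_induction with
    | mem u hu =>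
      obtain ⟨g, hg, h, hh, rfl⟩ := hu
      obtain ⟨K, hK, h1⟩ := hR g hg
      obtain ⟨K', hK', h2⟩ := hR h hh
      have h3 := (h1.smul (show (0 : ℝ) ≤ 1 / 2 by norm_num)).add
        (h2.smul (show (0 : ℝ) ≤ 1 / 2 by norm_num))
      have h4 := h3.add ((Ev.sq (htd (g + h) (W.add_mem hg hh))).smul
        (show (0 : ℝ) ≤ 1 / 2 by norm_num))
      have h5 := h3.add ((Ev.sq (htd (g - h) (W.sub_mem hg hh))).smul
        (show (0 : ℝ) ≤ 1 / 2 by norm_num))
      have hC : (C (1 / 2 : ℝ) * 2 : P2) = 1 := by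
        have : (C (2 : ℝ) : P2) = 2 := map_ofNat _ 2
        rw [← this, ← map_mul]
        norm_num
      refine ⟨1 / 2 * K + 1 / 2 * K', by positivity, ?_, ?_⟩
      · have e1 : (1 / 2 : ℝ) • (K • e - g * g) + (1 / 2 : ℝ) • (K' • e - h * h) +
            (1 / 2 : ℝ) • ((g + h) * (g + h)) = (1 / 2 * K + 1 / 2 * K') • e + g * h := by
          simp only [smul_eq_C_mul, map_mul, map_add]
          linear_combination (g * h) * hC
        rwa [e1] at h4
      · have e1 : (1 / 2 : ℝ) • (K • e - g * g) + (1 / 2 : ℝ) • (K' • e - h * h) +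
            (1 / 2 : ℝ) • ((g - h) * (g - h)) = (1 / 2 * K + 1 / 2 * K') • e - g * h := by
          simp only [smul_eq_C_mul, map_mul, map_add]
          linear_combination (-(g * h)) * hC
        rwa [e1] at h5
    | zero => exact ⟨0, le_rfl, by simpa using Ev.zero, by simpa using Ev.zero⟩
    | add x y _ _ hx hy =>
      obtain ⟨K, hK, h1, h2⟩ := hx
      obtain ⟨K', hK', h3, h4⟩ := hy
      refine ⟨K + K', by positivity, ?_, ?_⟩
      · have := h1.add h3
        have e1 : K • e + x + (K' • e + y) = (K + K') • e + (x + y) := by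
          rw [add_smul]
          ring
        rwa [e1] at this
      · have := h2.add h4
        have e1 : K • e - x + (K' • e - y) = (K + K') • e - (x + y) := by
          rw [add_smul]
          ring
        rwa [e1] at this
    | smul a x _ hx =>
      obtain ⟨K, hK, h1, h2⟩ := hx
      refine ⟨|a| * K, by positivity, ?_⟩
      rcases le_or_gt 0 a with ha | ha
      · rw [abs_of_nonneg ha, mul_smul, ← smul_add, ← smul_sub]
        exact ⟨h1.smul ha, h2.smul ha⟩
      · rw [abs_of_neg ha]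
        have ha' : 0 ≤ -a := by linarith
        constructor
        · have e1 : (-a * K) • e + a • x = (-a) • (K • e - x) := by module
          rw [e1]
          exact h2.smul ha'
        · have e1 : (-a * K) • e - a • x = (-a) • (K • e + x) := by module
          rw [e1]
          exact h1.smul ha'
  have hneg : ∀ a : ℝ, a < 0 → ¬ Ev M (a • e) := by
    rintro a ha ⟨s0, hs0, h⟩
    have h1 := h s0 le_rfl
    rw [map_smul, H_smul] at h1
    have h2 := eval_sumSq_nonneg h1 0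
    have h3 : 1 ≤ eval (0 : Fin 2 → ℝ) (H M (sg s0 e)) := by
      rw [he, map_add, H_add, map_add]
      have h4 : H M (sg s0 (1 * 1)) = 1 := by
        rw [mul_one, map_one]
        unfold H Pool.Agent.Q107.HF.E
        rw [hM]
        rw [sum_range_succ', sum_eq_zero, sum_range_succ', sum_eq_zero]
        · simp
        · intro k _
          rw [iter_pderiv_zero 1 (by simp), smul_zero]
        · intro k _
          rw [iter_pderiv_zero 0 ?_, smul_zero]
          rw [sum_range_succ', sum_eq_zero]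
          · simp
          · intro k _
            rw [iter_pderiv_zero 1 (by simp), smul_zero]
      have h5 : IsSumSq (H M (sg s0 (∑ b ∈ B, b * b))) := by
        rw [map_sum, Pool.Agent.Q107.HF.H_sum]
        refine IsSumSq.sum fun b hb => ?_
        rw [map_mul]
        exact H_sumSq_sq (lt_of_le_of_lt (td_sg s0 b) (htd b (hBW b hb)))
      have h6 := eval_sumSq_nonneg h5 0
      rw [h4, map_one]
      linarith
    rw [smul_eval] at h2
    nlinarith
  -- the cone
  let V : Submodule ℝ P2 := Sq W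
  let e' : V := ⟨e, heS⟩
  let f' : V := ⟨f, hf⟩
  have he' : e' ≠ 0 := by
    intro h
    have h1 : e = 0 := congrArg Subtype.val h
    apply hneg (-1) (by norm_num)
    rw [h1, smul_zero]
    exact Ev.zero
  let s : PointedCone ℝ V :=
    { carrier := {x | ∃ b : ℝ, 0 ≤ b ∧ Ev M ((x : P2) + b • f)}
      add_mem' := by
        rintro x y ⟨b, hb, hx⟩ ⟨c, hc, hy⟩
        refine ⟨b + c, by positivity, ?_⟩
        have := hx.add hy
        have e1 : ((x + y : V) : P2) + (b + c) • f = (x : P2) + b • f + ((y : P2) + c • f) := by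
          rw [add_smul, Submodule.coe_add]
          ring
        rw [e1]
        exact this
      zero_mem' := ⟨0, le_rfl, by simpa using Ev.zero⟩
      smul_mem' := by
        rintro ⟨c, hc⟩ x ⟨b, hb, hx⟩
        refine ⟨c * b, by positivity, ?_⟩
        have := hx.smul hc
        have e1 : (((⟨c, hc⟩ : {c : ℝ // 0 ≤ c}) • x : V) : P2) + (c * b) • f =
            c • ((x : P2) + b • f) := by
          have : (((⟨c, hc⟩ : {c : ℝ // 0 ≤ c}) • x : V) : P2) = c • (x : P2) := rfl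
          rw [this, smul_add, mul_smul]
        rw [e1]
        exact this }
  have hs : ∀ x : V, x ∈ s ↔ ∃ b : ℝ, 0 ≤ b ∧ Ev M ((x : P2) + b • f) := fun x => Iff.rfl
  let φ : V →ₗ.[ℝ] ℝ := LinearPMap.mkSpanSingleton e' 1 he'
  have hnon : ∀ x : φ.domain, (x : V) ∈ s → 0 ≤ φ x := by
    rintro ⟨x, hx⟩ hxs
    obtain ⟨a, rfl⟩ := Submodule.mem_span_singleton.1 hx
    have h1 : φ ⟨a • e', hx⟩ = a := by
      have := LinearPMap.mkSpanSingleton'_apply e' (1 : ℝ) (by
        intro c hc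
        rcases smul_eq_zero.1 hc with h | h
        · simp [h]
        · exact absurd h he') a hx
      refine Eq.trans this ?_
      simp
    rw [h1]
    obtain ⟨b, hb0, hb⟩ := (hs _).1 hxs
    have hb' : Ev M (a • e + b • f) := hb
    by_contra ha
    push Not at ha
    rcases hb0.eq_or_lt with h | h
    · rw [← h, zero_smul, add_zero] at hb'
      exact hneg a ha hb'
    · apply hno
      have h2 := (hb'.smul (show (0 : ℝ) ≤ 1 / b by positivity)).add
        (heE.smul (show (0 : ℝ) ≤ -a / b from (div_pos (by linarith) h).le))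
      have e1 : (1 / b) • (a • e + b • f) + (-a / b) • e = f := by
        rw [smul_add, smul_smul, smul_smul]
        have e2 : 1 / b * b = 1 := by field_simp
        rw [e2, one_smul]
        have e3 : (-a / b) = -(1 / b * a) := by ring
        rw [e3, neg_smul]
        ring
      rwa [e1] at h2
  have hden : ∀ y, ∃ x : φ.domain, (x : V) + y ∈ s := by
    intro y
    obtain ⟨K, hK, h, -⟩ := hQ y y.2
    refine ⟨⟨K • e', Submodule.smul_mem _ _ (Submodule.mem_span_singleton_self e')⟩, ?_⟩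
    refine (hs _).2 ⟨0, le_rfl, ?_⟩
    rw [zero_smul, add_zero]
    exact h
  obtain ⟨ψ, hψ1, hψ2⟩ := riesz_extension s φ hnon hden
  have hψe : ψ e' = 1 := by
    have hm : e' ∈ φ.domain := Submodule.mem_span_singleton_self e'
    have h1 := hψ1 ⟨e', hm⟩
    have h2 : φ ⟨e', hm⟩ = 1 := LinearPMap.mkSpanSingleton_apply ℝ ℝ he' 1
    rw [h2] at h1
    exact h1
  have hψE : ∀ (x : P2) (hx : x ∈ V), Ev M x → 0 ≤ ψ ⟨x, hx⟩ := by
    intro x hx hsq
    exact hψ2 _ ((hs _).2 ⟨0, le_rfl, by simpa using hsq⟩)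
  have hψf : ψ f' ≤ 0 := by
    have h1 := hψ2 (-f') ((hs _).2 ⟨1, zero_le_one, by
      have : ((-f' : V) : P2) + (1 : ℝ) • f = 0 := by
        rw [one_smul]
        exact neg_add_cancel f
      rw [this]
      exact Ev.zero⟩)
    rw [map_neg] at h1
    linarith
  obtain ⟨L, hL⟩ := LinearMap.exists_extend ψ
  have hLV : ∀ (x : P2) (hx : x ∈ V), L x = ψ ⟨x, hx⟩ := fun x hx => by
    rw [← hL]
    rfl
  have hpsd : ∀ g ∈ W, 0 ≤ L (g * g) := fun g hg => by
    rw [hLV _ (mul_mem_Sq hg hg)]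
    exact hψE _ _ (Ev.sq (htd g hg))
  have hk : ∀ g ∈ W, ∀ g' ∈ W, (∀ ε : ℝ, 0 < ε → Ev M (ε • (g * g) - g' * g')) →
      ∀ h ∈ W, L (g' * h) = 0 := by
    intro g hg g' hg' hE h hh
    refine cs hpsd hg' hh (le_antisymm ?_ (hpsd g' hg'))
    by_contra hpos
    push Not at hpos
    have h0 := hpsd g hg
    have h1 : ∀ ε : ℝ, 0 < ε → L (g' * g') ≤ ε * L (g * g) := by
      intro ε hε
      have hm : ε • (g * g) - g' * g' ∈ V := V.sub_mem (V.smul_mem _ (mul_mem_Sq hg hg))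
        (mul_mem_Sq hg' hg')
      have h2 := hψE _ hm (hE ε hε)
      rw [← hLV _ hm, map_sub, map_smul, smul_eq_mul] at h2
      linarith
    have h2 := h1 (L (g' * g') / (2 * (L (g * g) + 1))) (by positivity)
    rw [div_mul_eq_mul_div, le_div_iff₀ (by positivity)] at h2
    nlinarith
  have hFun : Fun W L :=
    { psd := hpsd
      kx := fun g hg h hh => hk g hg _ (hW.dx g hg) (fun ε hε => ev_dx (htd g hg) hε) h hh
      ky := fun g hg h hh => hk g hg _ (hW.dy g hg) (fun ε hε => ev_dy (htd g hg) hε) h hh }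
  have hnz : ∃ g ∈ W, L (g * g) ≠ 0 := by
    by_contra hall0
    push Not at hall0
    have h1 : L e = 0 := by
      rw [he, map_add, map_sum, hall0 1 h1W, sum_eq_zero fun b hb => hall0 b (hBW b hb), add_zero]
    rw [hLV e heS] at h1
    have h2 : ψ e' = 0 := h1
    rw [hψe] at h2
    exact one_ne_zero h2
  have h1 := hall L hFun hnz
  rw [hLV f hf] at h1
  exact absurd hψf (not_le.2 h1)

theorem ev_heat {d : ℕ} {f : P2} (hf : f.totalDegree < 2 * (d + 1)) (h : Ev (d + 1) f) :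
    ∃ T > 0, ∀ t : ℝ, T ≤ t → IsSumSq (heat f t) := by
  obtain ⟨s0, hs0, h⟩ := h
  refine ⟨s0 ^ 2, by positivity, fun t ht => ?_⟩
  have ht0 : 0 < t := lt_of_lt_of_le (by positivity) ht
  have e : t = (Real.sqrt t) ^ 2 := (Real.sq_sqrt ht0.le).symm
  rw [e]
  refine heat_sumSq hf (Real.sqrt_pos.2 ht0).ne' (h _ ?_)
  rw [← Real.sqrt_sq hs0.le]
  exact Real.sqrt_le_sqrt ht

end Pool.Agent.Q107.HG
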