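import Mathlib
import Pool.Agent.Q107.HG.Den
import Pool.Agent.Q107.HG.Fin
import Pool.Agent.Q107.HF.Main

/-!
# Rotations and the final theorem
-/

set_option autoImplicit false

namespace Pool.Agent.Q107.HG

open Finset MvPolynomial
open Pool.Agent.Q107.HF (P2 lap lap_eq heat heat_eq sg sg_hom eval_sg line line_coeff line_eval
  hc_ne_zero odd_top sumSq_C td_le)

/-- the case of a nonzero coefficient at the pure power of `x` -/
theorem main_x {f : P2} (hf : ∀ a b : ℝ, 0 ≤ eval ![a, b] f) {d : ℕ}
    (hd : f.totalDegree ≤ 2 * d) (hf0 : coeff (Finsupp.single 0 (2 * d)) f ≠ 0) :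
    ∃ T > 0, ∀ t : ℝ, T ≤ t → IsSumSq (heat f t) := by
  have hne : f ≠ 0 := by
    rintro rfl
    rw [coeff_zero] at hf0
    exact hf0 rfl
  obtain ⟨h, n, N, g, hm, hn, hfg, hg⟩ := part1 hne hf hd
  have hfS : f ∈ Sq (Full d) := sq_full hd
  obtain ⟨W, hW, hfW, hall⟩ := chain hm hn hfg hf0 _ (Full d) le_rfl (good_full d)
    (fun i hi => up_full (hg i hi).1 (hg i hi).2) (Up_mono (Nat.zero_le 2) hfS)
  exact ev_heat (d := d) (by omega) (final hW hfW hall)

/-- rotation by the point `(a, b)` of the circle -/
noncomputable def rot (a b : ℝ) : P2 →ₐ[ℝ] P2 :=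
  aeval ![C a * X 0 - C b * X 1, C b * X 0 + C a * X 1]

lemma rot_X0 (a b : ℝ) : rot a b (X 0) = C a * X 0 - C b * X 1 := by simp [rot]

lemma rot_X1 (a b : ℝ) : rot a b (X 1) = C b * X 0 + C a * X 1 := by simp [rot]

lemma rot_C (a b c : ℝ) : rot a b (C c) = C c := by
  rw [← algebraMap_eq, AlgHom.commutes]

lemma rot_rot {a b : ℝ} (h : a * a + b * b = 1) (f : P2) : rot a (-b) (rot a b f) = f := by
  have hC : (C a * C a + C b * C b : P2) = 1 := by
    rw [← C_mul, ← C_mul, ← C_add, h, C_1]
  induction f using MvPolynomial.induction_on with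
  | C c => rw [rot_C, rot_C]
  | add p q hp hq => rw [map_add, map_add, hp, hq]
  | mul_X p j hp =>
    rw [map_mul, map_mul, hp]
    congr 1
    fin_cases j
    · show rot a (-b) (rot a b (X 0)) = X 0
      rw [rot_X0, map_sub, map_mul, map_mul, rot_C, rot_C, rot_X0, rot_X1, C_neg]
      linear_combination (X 0 : P2) * hC
    · show rot a (-b) (rot a b (X 1)) = X 1
      rw [rot_X1, map_add, map_mul, map_mul, rot_C, rot_C, rot_X0, rot_X1, C_neg]
      linear_combination (X 1 : P2) * hC

lemma pd_rot (a b : ℝ) (f : P2) :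
    pderiv 0 (rot a b f) = C a * rot a b (pderiv 0 f) + C b * rot a b (pderiv 1 f) ∧
    pderiv 1 (rot a b f) = -(C b * rot a b (pderiv 0 f)) + C a * rot a b (pderiv 1 f) := by
  induction f using MvPolynomial.induction_on with
  | C c => simp
  | add p q hp hq =>
    obtain ⟨h1, h2⟩ := hp
    obtain ⟨h3, h4⟩ := hq
    constructor
    · simp only [map_add, h1, h3]
      ring
    · simp only [map_add, h2, h4]
      ring
  | mul_X p j hp =>
    obtain ⟨h1, h2⟩ := hp
    have e1 : pderiv 0 (rot a b (X j)) = C a * rot a b (pderiv 0 (X j : P2))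
        + C b * rot a b (pderiv 1 (X j : P2)) := by
      fin_cases j
      · show pderiv 0 (rot a b (X 0)) = C a * rot a b (pderiv 0 (X 0 : P2))
          + C b * rot a b (pderiv 1 (X 0 : P2))
        rw [rot_X0]
        simp [pderiv_X]
      · show pderiv 0 (rot a b (X 1)) = C a * rot a b (pderiv 0 (X 1 : P2))
          + C b * rot a b (pderiv 1 (X 1 : P2))
        rw [rot_X1]
        simp [pderiv_X]
    have e2 : pderiv 1 (rot a b (X j)) = -(C b * rot a b (pderiv 0 (X j : P2)))
        + C a * rot a b (pderiv 1 (X j : P2)) := by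
      fin_cases j
      · show pderiv 1 (rot a b (X 0)) = -(C b * rot a b (pderiv 0 (X 0 : P2)))
          + C a * rot a b (pderiv 1 (X 0 : P2))
        rw [rot_X0]
        simp [pderiv_X]
      · show pderiv 1 (rot a b (X 1)) = -(C b * rot a b (pderiv 0 (X 1 : P2)))
          + C a * rot a b (pderiv 1 (X 1 : P2))
        rw [rot_X1]
        simp [pderiv_X]
    constructor
    · rw [map_mul, pderiv_mul, h1, e1, pderiv_mul, pderiv_mul]
      simp only [map_add, map_mul]
      ring
    · rw [map_mul, pderiv_mul, h2, e2, pderiv_mul, pderiv_mul]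
      simp only [map_add, map_mul]
      ring

lemma lap_rot {a b : ℝ} (h : a * a + b * b = 1) (f : P2) :
    lap (rot a b f) = rot a b (lap f) := by
  have hC : (C a * C a + C b * C b : P2) = 1 := by
    rw [← C_mul, ← C_mul, ← C_add, h, C_1]
  rw [lap_eq, lap_eq, (pd_rot a b f).1, (pd_rot a b f).2]
  simp only [map_add, map_neg, pderiv_mul, pderiv_C, zero_mul, zero_add,
    (pd_rot a b (pderiv 0 f)).1, (pd_rot a b (pderiv 0 f)).2, (pd_rot a b (pderiv 1 f)).1,
    (pd_rot a b (pderiv 1 f)).2]
  linear_combination (rot a b (pderiv 0 (pderiv 0 f)) + rot a b (pderiv 1 (pderiv 1 f))) * hC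

lemma lap_iter_rot {a b : ℝ} (h : a * a + b * b = 1) (f : P2) (k : ℕ) :
    lap^[k] (rot a b f) = rot a b (lap^[k] f) := by
  induction k with
  | zero => rfl
  | succ k ih =>
    rw [Function.iterate_succ_apply', Function.iterate_succ_apply', ih, lap_rot h]

lemma heat_rot {a b : ℝ} (h : a * a + b * b = 1) (f : P2) (t : ℝ) :
    heat (rot a b f) t = rot a b (heat f t) := by
  set N := f.totalDegree + (rot a b f).totalDegree + 1 with hN
  rw [← heat_eq (f := f) (N := N) (by omega), ← heat_eq (f := rot a b f) (N := N) (by omega),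
    map_sum]
  refine sum_congr rfl fun k _ => ?_
  rw [map_mul, rot_C, lap_iter_rot h]

lemma td_rot (a b : ℝ) (f : P2) : (rot a b f).totalDegree ≤ f.totalDegree := by
  conv_lhs => rw [f.as_sum]
  rw [map_sum]
  refine totalDegree_finsetSum_le fun m hm => ?_
  have h1 := le_totalDegree hm
  rw [Finsupp.sum_fintype _ _ (fun _ => rfl), Fin.sum_univ_two] at h1
  have t0 : (C a * X 0 - C b * X 1 : P2).totalDegree ≤ 1 := by
    refine (totalDegree_sub _ _).trans (max_le ?_ ?_)
    · refine (totalDegree_mul _ _).trans ?_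
      rw [totalDegree_C, totalDegree_X]
    · refine (totalDegree_mul _ _).trans ?_
      rw [totalDegree_C, totalDegree_X]
  have t1 : (C b * X 0 + C a * X 1 : P2).totalDegree ≤ 1 := by
    refine (totalDegree_add _ _).trans (max_le ?_ ?_)
    · refine (totalDegree_mul _ _).trans ?_
      rw [totalDegree_C, totalDegree_X]
    · refine (totalDegree_mul _ _).trans ?_
      rw [totalDegree_C, totalDegree_X]
  rw [rot, aeval_monomial, Finsupp.prod_fintype _ _ (fun _ => pow_zero _), Fin.prod_univ_two]
  simp only [Matrix.cons_val_zero, Matrix.cons_val_one]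
  refine (totalDegree_mul _ _).trans ?_
  rw [algebraMap_eq, totalDegree_C, zero_add]
  refine (totalDegree_mul _ _).trans ?_
  have t2 := (totalDegree_pow (C a * X 0 - C b * X 1 : P2) (m 0)).trans
    (Nat.mul_le_mul_left (m 0) t0)
  have t3 := (totalDegree_pow (C b * X 0 + C a * X 1 : P2) (m 1)).trans
    (Nat.mul_le_mul_left (m 1) t1)
  omega

lemma eval_rot (a b x y : ℝ) (f : P2) :
    eval ![x, y] (rot a b f) = eval ![a * x - b * y, b * x + a * y] f := by
  induction f using MvPolynomial.induction_on with
  | C c => rw [rot_C, eval_C, eval_C]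
  | add p q hp hq => rw [map_add, map_add, map_add, hp, hq]
  | mul_X p j hp =>
    rw [map_mul, map_mul, map_mul, hp]
    congr 1
    fin_cases j
    · show eval ![x, y] (rot a b (X 0)) = eval ![a * x - b * y, b * x + a * y] (X 0)
      rw [rot_X0]
      simp
    · show eval ![x, y] (rot a b (X 1)) = eval ![a * x - b * y, b * x + a * y] (X 1)
      rw [rot_X1]
      simp

lemma eval_ev (f : P2) (x : ℝ) : (ev f).eval x = eval ![x, 0] f := by
  induction f using MvPolynomial.induction_on with
  | C c => simp [ev]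
  | add p q hp hq => rw [map_add, Polynomial.eval_add, hp, hq, map_add]
  | mul_X p j hp =>
    rw [map_mul, Polynomial.eval_mul, hp, map_mul]
    congr 1
    fin_cases j
    · simp [ev]
    · simp [ev]

lemma lead_rot (a b : ℝ) (f : P2) {k : ℕ} (hk : k ≤ f.totalDegree) :
    coeff (Finsupp.single 0 k) (rot a b f) = eval ![a, b] (homogeneousComponent k f) := by
  rw [← line_coeff f ![a, b] hk, ← ev_coeff]
  congr 1
  refine Polynomial.funext fun x => ?_
  rw [eval_ev, eval_rot, line_eval]
  congr 2
  funext i
  fin_cases i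
  · simp [mul_comm]
  · simp [mul_comm]

/-- every nonnegative polynomial in two variables becomes a sum of squares along the heat flow -/
theorem main_all {f : P2} (hf : ∀ v : Fin 2 → ℝ, 0 ≤ eval v f) :
    ∃ T > 0, ∀ t : ℝ, T ≤ t → IsSumSq (heat f t) := by
  by_cases h0 : f.totalDegree = 0
  · refine ⟨1, one_pos, fun t _ => ?_⟩
    have h1 := totalDegree_eq_zero_iff_eq_C.1 h0
    have h2 : heat f t = f := by
      unfold heat
      rw [h0]
      simp
    have h3 := hf 0
    rw [h1, eval_C] at h3
    rw [h2, h1]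
    exact sumSq_C h3
  rcases Nat.even_or_odd f.totalDegree with he | ho
  · obtain ⟨d, hd⟩ := he
    obtain ⟨v, hv⟩ : ∃ v : Fin 2 → ℝ, eval v (homogeneousComponent f.totalDegree f) ≠ 0 := by
      by_contra hcon
      push Not at hcon
      exact hc_ne_zero h0 (MvPolynomial.funext fun v => by rw [hcon v, map_zero])
    have hvh := homogeneousComponent_isHomogeneous f.totalDegree f
    have hr : 0 < v 0 * v 0 + v 1 * v 1 := by
      rcases lt_or_eq_of_le (add_nonneg (mul_self_nonneg (v 0)) (mul_self_nonneg (v 1))) with h | h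
      · exact h
      · exfalso
        have h2 : v 0 = 0 := by nlinarith [mul_self_nonneg (v 0), mul_self_nonneg (v 1)]
        have h3 : v 1 = 0 := by nlinarith [mul_self_nonneg (v 0), mul_self_nonneg (v 1)]
        apply hv
        have h4 : v = fun i => (0 : ℝ) * v i := by
          funext i
          fin_cases i
          · simp [h2]
          · simp [h3]
        rw [h4, ← eval_sg, sg_hom 0 hvh, map_mul, eval_C, zero_pow h0, zero_mul]
    set r := Real.sqrt (v 0 * v 0 + v 1 * v 1) with hrdef
    have hr0 : 0 < r := Real.sqrt_pos.2 hr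
    have hrr : r * r = v 0 * v 0 + v 1 * v 1 := Real.mul_self_sqrt hr.le
    have hab : (v 0 / r) * (v 0 / r) + (v 1 / r) * (v 1 / r) = 1 := by
      field_simp
      linear_combination (-1 : ℝ) * hrr
    set a := v 0 / r with ha
    set b := v 1 / r with hb
    have hE : eval ![a, b] (homogeneousComponent f.totalDegree f) ≠ 0 := by
      intro h5
      apply hv
      have h6 : v = fun i => r * ![a, b] i := by
        funext i
        fin_cases i
        · show v 0 = r * a
          rw [ha]
          field_simp
        · show v 1 = r * b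
          rw [hb]
          field_simp
      rw [h6, ← eval_sg, sg_hom r hvh, map_mul, h5, mul_zero]
    have hcoef : coeff (Finsupp.single 0 (2 * d)) (rot a b f) ≠ 0 := by
      rw [lead_rot a b f (by omega), show 2 * d = f.totalDegree by omega]
      exact hE
    obtain ⟨T, hT, h⟩ := main_x (f := rot a b f) (d := d) (fun x y => by
      rw [eval_rot]
      exact hf _) ((td_rot a b f).trans (by omega)) hcoef
    refine ⟨T, hT, fun t ht => ?_⟩
    have h7 := sumsq_map (rot a (-b) : P2 →+* P2) (h t ht)
    rw [heat_rot hab] at h7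
    have h8 : (rot a (-b) : P2 →+* P2) (rot a b (heat f t)) = heat f t := rot_rot hab _
    rwa [h8] at h7
  · exfalso
    apply hc_ne_zero h0
    exact MvPolynomial.funext fun v => by rw [odd_top hf ho v, map_zero]

end Pool.Agent.Q107.HG
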