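import Pool.Agent.Q107.HF.Scale
import Pool.Agent.Q107.HF.Riesz

/-!
# Spaces of polynomials closed under derivatives, and functionals which kill them
-/

set_option autoImplicit false

namespace Pool.Agent.Q107.HG

open Finset MvPolynomial
open Pool.Agent.Q107.HF (P2 td_le td_mul_le)

/-- restriction to the line `y = 0` -/
noncomputable def ev : P2 →ₐ[ℝ] Polynomial ℝ := aeval ![Polynomial.X, 0]

lemma ev_X0 : ev (X 0) = Polynomial.X := by simp [ev]

lemma ev_X1 : ev (X 1) = 0 := by simp [ev]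

lemma ev_coeff (v : P2) (k : ℕ) : (ev v).coeff k = coeff (Finsupp.single 0 k) v := by
  induction v using MvPolynomial.induction_on' with
  | monomial m a =>
    rw [ev, aeval_monomial, Finsupp.prod_fintype _ _ (fun _ => pow_zero _), Fin.prod_univ_two]
    simp only [Fin.isValue, Matrix.cons_val_zero, Matrix.cons_val_one, Polynomial.algebraMap_eq]
    rw [coeff_monomial]
    by_cases h1 : m 1 = 0
    · rw [h1, pow_zero, mul_one, Polynomial.coeff_C_mul_X_pow]
      congr 1
      apply propext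
      constructor
      · rintro rfl
        ext i
        fin_cases i
        · simp
        · simpa using h1
      · rintro rfl
        simp
    · rw [zero_pow h1, mul_zero, mul_zero, Polynomial.coeff_zero, if_neg]
      rintro rfl
      exact h1 (by simp)
  | add p q hp hq => rw [map_add, Polynomial.coeff_add, coeff_add, hp, hq]

lemma ev_pderiv (v : P2) : ev (pderiv 0 v) = Polynomial.derivative (ev v) := by
  ext k
  rw [ev_coeff, Polynomial.coeff_derivative, ev_coeff, coeff_pderiv]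
  rw [← Finsupp.single_add]
  simp

/-- vanishing on the line means divisibility -/
lemma ev_zero {v : P2} (h : ev v = 0) : ∃ w, v = X 1 * w := by
  refine ⟨v.divMonomial (Finsupp.single 1 1), ?_⟩
  ext m
  rw [mul_comm, coeff_mul_X', coeff_divMonomial]
  by_cases h1 : 1 ∈ m.support
  · rw [if_pos h1]
    congr 1
    ext i
    have h2 : m 1 ≠ 0 := Finsupp.mem_support_iff.1 h1
    fin_cases i
    · simp
    · simp
      omega
  · rw [if_neg h1]
    have h2 : m 1 = 0 := by simpa using h1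
    have h3 : m = Finsupp.single 0 (m 0) := by
      ext i
      fin_cases i
      · simp
      · simpa using h2
    rw [h3, ← ev_coeff, h, Polynomial.coeff_zero]

lemma td_ev {v : P2} {d : ℕ} (h : v.totalDegree ≤ d) : (ev v).natDegree ≤ d := by
  rw [Polynomial.natDegree_le_iff_coeff_eq_zero]
  intro k hk
  rw [ev_coeff]
  by_contra hne
  have := td_le.1 h _ hne
  simp at this
  omega

lemma td_div {v : P2} {d : ℕ} (h : (X 1 * v).totalDegree ≤ d) (hv : v ≠ 0) :
    v.totalDegree + 1 ≤ d := by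
  have h1 : (X 1 * v : P2).totalDegree = v.totalDegree + 1 := by
    rw [totalDegree_mul_of_isDomain (X_ne_zero _) hv, totalDegree_X, add_comm]
  omega

/-- the good spaces -/
structure Good (d : ℕ) (W : Submodule ℝ P2) : Prop where
  td : ∀ v ∈ W, v.totalDegree ≤ d
  dx : ∀ v ∈ W, pderiv 0 v ∈ W
  dy : ∀ v ∈ W, pderiv 1 v ∈ W
  sat : ∀ v, X 1 * v ∈ W → v ∈ W
  top : ∃ v ∈ W, coeff (Finsupp.single 0 d) v ≠ 0
  shift : ∀ g ∈ W, coeff (Finsupp.single 0 d) g = 0 →
    ∃ α ∈ W, ∃ β ∈ W, X 0 * g = X 1 * α + β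

/-- the products -/
noncomputable def Sq (W : Submodule ℝ P2) : Submodule ℝ P2 := Submodule.span ℝ {v | ∃ g ∈ W, ∃ h ∈ W, v = g * h}

lemma mul_mem_Sq {W : Submodule ℝ P2} {g h : P2} (hg : g ∈ W) (hh : h ∈ W) : g * h ∈ Sq W :=
  Submodule.subset_span ⟨g, hg, h, hh, rfl⟩

/-- functionals -/
structure Fun (W : Submodule ℝ P2) (L : P2 →ₗ[ℝ] ℝ) : Prop where
  psd : ∀ g ∈ W, 0 ≤ L (g * g)
  kx : ∀ g ∈ W, ∀ h ∈ W, L (pderiv 0 g * h) = 0
  ky : ∀ g ∈ W, ∀ h ∈ W, L (pderiv 1 g * h) = 0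

variable {d : ℕ} {W : Submodule ℝ P2} {L : P2 →ₗ[ℝ] ℝ}

lemma surj' (htd : ∀ v ∈ W, v.totalDegree ≤ d) (hdx : ∀ v ∈ W, pderiv 0 v ∈ W)
    (htop : ∃ v ∈ W, coeff (Finsupp.single 0 d) v ≠ 0) (k : ℕ) :
    k ≤ d → ∀ p : Polynomial ℝ, p.natDegree ≤ k → ∃ w ∈ W, ev w = p := by
  obtain ⟨v, hv, hvd⟩ := htop
  have hder : ∀ n, (pderiv 0)^[n] v ∈ W ∧
      ev ((pderiv 0)^[n] v) = Polynomial.derivative^[n] (ev v) := by
    intro n
    induction n with
    | zero => exact ⟨hv, rfl⟩
    | succ n ih =>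
      rw [Function.iterate_succ_apply', Function.iterate_succ_apply']
      exact ⟨hdx _ ih.1, by rw [ev_pderiv, ih.2]⟩
  have hdeg : (ev v).natDegree = d := by
    refine le_antisymm (td_ev (htd v hv)) (Polynomial.le_natDegree_of_ne_zero ?_)
    rw [ev_coeff]
    exact hvd
  have hlead : ∀ k ≤ d, (Polynomial.derivative^[d - k] (ev v)).coeff k ≠ 0 := by
    intro k hk
    rw [Polynomial.coeff_iterate_derivative, Nat.add_sub_cancel' hk, ev_coeff]
    rw [nsmul_eq_mul]
    refine mul_ne_zero ?_ hvd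
    have : 0 < d.descFactorial (d - k) := Nat.descFactorial_pos.2 (Nat.sub_le _ _)
    positivity
  have hndeg : ∀ k ≤ d, (Polynomial.derivative^[d - k] (ev v)).natDegree ≤ k := by
    intro k hk
    exact (Polynomial.natDegree_iterate_derivative _ _).trans (by omega)
  induction k with
  | zero =>
    intro hk p hp
    have h1 := hlead 0 hk
    set q := Polynomial.derivative^[d - 0] (ev v) with hq
    refine ⟨(p.coeff 0 / q.coeff 0) • (pderiv 0)^[d - 0] v, W.smul_mem _ (hder _).1, ?_⟩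
    rw [map_smul, (hder _).2, ← hq]
    have e1 : q = Polynomial.C (q.coeff 0) := Polynomial.eq_C_of_natDegree_le_zero (hndeg 0 hk)
    have e2 : p = Polynomial.C (p.coeff 0) := Polynomial.eq_C_of_natDegree_le_zero hp
    rw [Polynomial.smul_eq_C_mul]
    conv_lhs => rw [e1]
    conv_rhs => rw [e2]
    rw [← map_mul, Polynomial.coeff_C_zero, div_mul_cancel₀ _ h1]
  | succ k ih =>
    intro hk p hp
    have h1 := hlead (k + 1) hk
    set q := Polynomial.derivative^[d - (k + 1)] (ev v) with hq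
    set c := p.coeff (k + 1) / q.coeff (k + 1) with hc
    have h2 : (p - Polynomial.C c * q).natDegree ≤ k := by
      rw [Polynomial.natDegree_le_iff_coeff_eq_zero]
      intro i hi
      rw [Polynomial.coeff_sub, Polynomial.coeff_C_mul]
      by_cases h3 : i = k + 1
      · rw [h3, hc, div_mul_cancel₀ _ h1, sub_self]
      · rw [Polynomial.coeff_eq_zero_of_natDegree_lt (lt_of_le_of_lt hp (by omega)),
          Polynomial.coeff_eq_zero_of_natDegree_lt (lt_of_le_of_lt (hndeg _ hk) (by omega)),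
          mul_zero, sub_zero]
    obtain ⟨w, hw, hwe⟩ := ih (by omega) _ h2
    refine ⟨w + c • (pderiv 0)^[d - (k + 1)] v, W.add_mem hw (W.smul_mem _ (hder _).1), ?_⟩
    rw [map_add, map_smul, (hder _).2, hwe, ← hq, Polynomial.smul_eq_C_mul, sub_add_cancel]

lemma surj (hW : Good d W) (k : ℕ) : k ≤ d → ∀ p : Polynomial ℝ, p.natDegree ≤ k →
    ∃ w ∈ W, ev w = p := surj' hW.td hW.dx hW.top k

/-- an element vanishing on the line is `y` times an element -/
lemma div_mem (hW : Good d W) {w : P2} (hw : w ∈ W) (h : ev w = 0) :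
    ∃ v ∈ W, w = X 1 * v := by
  obtain ⟨v, rfl⟩ := ev_zero h
  exact ⟨v, hW.sat v hw, rfl⟩

lemma one_mem (hW : Good d W) : (1 : P2) ∈ W := by
  obtain ⟨v, hv, hvd⟩ := hW.top
  have hder : ∀ n, (pderiv 0)^[n] v ∈ W ∧
      ev ((pderiv 0)^[n] v) = Polynomial.derivative^[n] (ev v) := by
    intro n
    induction n with
    | zero => exact ⟨hv, rfl⟩
    | succ n ih =>
      rw [Function.iterate_succ_apply', Function.iterate_succ_apply']
      exact ⟨hW.dx _ ih.1, by rw [ev_pderiv, ih.2]⟩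
  have h0 := Pool.Agent.Q107.HF.iter_pderiv_le 0 (hW.td v hv) d
  rw [Nat.sub_self, Nat.le_zero, totalDegree_eq_zero_iff_eq_C] at h0
  set c := coeff 0 ((pderiv 0)^[d] v) with hc
  have hc0 : c ≠ 0 := by
    intro h
    have h1 := (hder d).2
    rw [h0, h, map_zero, map_zero] at h1
    have h2 : (Polynomial.derivative^[d] (ev v)).coeff 0 ≠ 0 := by
      rw [Polynomial.coeff_iterate_derivative, zero_add, ev_coeff, nsmul_eq_mul]
      refine mul_ne_zero ?_ hvd
      have : 0 < d.descFactorial d := Nat.descFactorial_pos.2 le_rfl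
      positivity
    rw [← h1] at h2
    exact h2 (by simp)
  have h1 := W.smul_mem c⁻¹ (hder d).1
  rw [h0, smul_eq_C_mul, ← map_mul, inv_mul_cancel₀ hc0, map_one] at h1
  exact h1

/-- Cauchy-Schwarz -/
lemma cs (hL : ∀ g ∈ W, 0 ≤ L (g * g)) {g h : P2} (hg : g ∈ W) (hh : h ∈ W)
    (h0 : L (g * g) = 0) : L (g * h) = 0 := by
  by_contra hne
  have hq : ∀ l : ℝ, 0 ≤ 2 * l * L (g * h) + L (h * h) := by
    intro l
    have h1 := hL (l • g + h) (W.add_mem (W.smul_mem _ hg) hh)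
    have e : (l • g + h) * (l • g + h) = (l * l) • (g * g) + (2 * l) • (g * h) + h * h := by
      simp only [smul_eq_C_mul, map_mul]
      have : (C (2 : ℝ) : P2) = 2 := map_ofNat _ 2
      rw [this]
      ring
    rw [e, map_add, map_add, map_smul, map_smul, h0] at h1
    simpa [smul_eq_mul] using h1
  have h2 := hq (-(L (h * h) + 1) / (2 * L (g * h)))
  have e : 2 * (-(L (h * h) + 1) / (2 * L (g * h))) * L (g * h) = -(L (h * h) + 1) := by
    field_simp
  rw [e] at h2
  linarith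

/-- elements which can be multiplied by `y` are in the kernel -/
lemma ker_one (hW : Good d W) (hL : Fun W L) {g h : P2} (hg : X 1 * g ∈ W) (hh : h ∈ W) :
    L (g * h) = 0 := by
  have hg' := hW.sat g hg
  refine cs hL.psd hg' hh ?_
  have h1 := hL.ky _ hg _ hg'
  have h2 := hL.ky _ hg' _ hg
  have e : g * g = pderiv 1 (X 1 * g) * g - pderiv 1 g * (X 1 * g) := by
    rw [pderiv_mul, pderiv_X_self]
    ring
  rw [e, map_sub, h1, h2, sub_zero]

/-- `x g = y α + β` -/
def Al (W : Submodule ℝ P2) (g α : P2) : Prop := α ∈ W ∧ ∃ β ∈ W, X 0 * g = X 1 * α + β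

lemma Al.add {g h α β : P2} (h1 : Al W g α) (h2 : Al W h β) : Al W (g + h) (α + β) := by
  obtain ⟨ha, a, ha', ea⟩ := h1
  obtain ⟨hb, b, hb', eb⟩ := h2
  exact ⟨W.add_mem ha hb, a + b, W.add_mem ha' hb', by rw [mul_add, ea, eb]; ring⟩

lemma Al.smul {g α : P2} (c : ℝ) (h1 : Al W g α) : Al W (c • g) (c • α) := by
  obtain ⟨ha, a, ha', ea⟩ := h1
  refine ⟨W.smul_mem _ ha, c • a, W.smul_mem _ ha', ?_⟩
  rw [mul_smul_comm, ea, mul_smul_comm, smul_add]

lemma Al.unique (hW : Good d W) (hL : Fun W L) {g α α' h : P2} (h1 : Al W g α) (h2 : Al W g α')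
    (hh : h ∈ W) : L (α * h) = L (α' * h) := by
  obtain ⟨ha, a, ha', ea⟩ := h1
  obtain ⟨hb, b, hb', eb⟩ := h2
  have h3 : X 1 * (α - α') ∈ W := by
    have e : X 1 * (α - α') = b - a := by
      rw [ea] at eb
      linear_combination eb
    rw [e]
    exact W.sub_mem hb' ha'
  have := ker_one hW hL h3 hh
  rw [sub_mul, map_sub] at this
  linarith

/-- the symmetry relation -/
def Om (W : Submodule ℝ P2) (L : P2 →ₗ[ℝ] ℝ) (g h : P2) : Prop :=
  ∀ α α', Al W g α → Al W h α' → L (α * h) = L (g * α')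

lemma Om.symm {g h : P2} (H : Om W L g h) : Om W L h g := by
  intro α α' h1 h2
  rw [mul_comm α g, mul_comm h α']
  exact (H α' α h2 h1).symm

lemma Om.self (hW : Good d W) (hL : Fun W L) {g : P2} (hg : g ∈ W) : Om W L g g := by
  intro α α' h1 h2
  rw [mul_comm g α']
  exact Al.unique hW hL h1 h2 hg

lemma exists_al (hW : Good d W) {g : P2} (hg : g ∈ W)
    (h0 : coeff (Finsupp.single 0 d) g = 0) : ∃ α, Al W g α := by
  obtain ⟨α, h1, β, h2, e⟩ := hW.shift g hg h0
  exact ⟨α, h1, β, h2, e⟩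

lemma Om.add (hW : Good d W) (hL : Fun W L) {g₁ g₂ h : P2} (h1 : Om W L g₁ h) (h2 : Om W L g₂ h)
    (hg₁ : ∃ α, Al W g₁ α) (hg₂ : ∃ α, Al W g₂ α) (hh : h ∈ W) : Om W L (g₁ + g₂) h := by
  intro α α' ha ha'
  obtain ⟨α₁, e1⟩ := hg₁
  obtain ⟨α₂, e2⟩ := hg₂
  rw [Al.unique hW hL ha (e1.add e2) hh, add_mul, map_add, h1 _ _ e1 ha', h2 _ _ e2 ha', add_mul,
    map_add]

lemma Om.smul (hW : Good d W) (hL : Fun W L) {g h : P2} (c : ℝ) (h1 : Om W L g h)
    (hg : ∃ α, Al W g α) (hh : h ∈ W) : Om W L (c • g) h := by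
  intro α α' ha ha'
  obtain ⟨α₁, e1⟩ := hg
  rw [Al.unique hW hL ha (e1.smul c) hh, smul_mul_assoc, map_smul, h1 _ _ e1 ha',
    smul_mul_assoc, map_smul]

/-- multiples of `y` -/
lemma mulx (hW : Good d W) {v : P2} (hv : X 1 * v ∈ W) : X 0 * v ∈ W := by
  by_cases hv0 : v = 0
  · rw [hv0, mul_zero]
    exact W.zero_mem
  have h1 := td_div (hW.td _ hv) hv0
  have h2 : coeff (Finsupp.single 0 d) (X 1 * v) = 0 := by
    rw [mul_comm, coeff_mul_X', if_neg (by simp)]
  obtain ⟨α, ha, β, hb, e⟩ := hW.shift _ hv h2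
  have h3 : X 1 * (X 0 * v - α) ∈ W := by
    have : X 1 * (X 0 * v - α) = β := by linear_combination e
    rw [this]
    exact hb
  have h4 := W.add_mem (hW.sat _ h3) ha
  rwa [sub_add_cancel] at h4

lemma om_y (hW : Good d W) (hL : Fun W L) {v h : P2} (hv : X 1 * v ∈ W) (hh : h ∈ W) :
    Om W L (X 1 * v) h := by
  rintro α α' ha ⟨ha', β', hb', e'⟩
  have h1 : Al W (X 1 * v) (X 0 * v) := ⟨mulx hW hv, 0, W.zero_mem, by ring⟩
  rw [Al.unique hW hL ha h1 hh]
  have h2 := ker_one hW hL hv hb'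
  have e : X 0 * v * h = X 1 * v * α' + v * β' := by
    calc X 0 * v * h = v * (X 0 * h) := by ring
      _ = v * (X 1 * α' + β') := by rw [e']
      _ = _ := by ring
  rw [e, map_add, h2, add_zero]

lemma al_dx (hW : Good d W) {v : P2} (hv : v ∈ W)
    (h0 : coeff (Finsupp.single 0 d) v = 0) :
    ∃ α₀ ∈ W, Al W (pderiv 0 v) (pderiv 0 α₀) := by
  obtain ⟨α₀, ha₀, β₀, hb₀, e⟩ := hW.shift v hv h0
  refine ⟨α₀, ha₀, hW.dx _ ha₀, pderiv 0 β₀ - v, W.sub_mem (hW.dx _ hb₀) hv, ?_⟩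
  have := congrArg (pderiv 0) e
  rw [pderiv_mul, pderiv_X_self, map_add, pderiv_mul,
    pderiv_X_of_ne (show (1 : Fin 2) ≠ 0 by decide)] at this
  linear_combination this

lemma om_x (hW : Good d W) (hL : Fun W L) {v h : P2} (hv : v ∈ W)
    (h0 : coeff (Finsupp.single 0 d) v = 0) (hh : h ∈ W) : Om W L (pderiv 0 v) h := by
  rintro α α' ha hα'
  obtain ⟨α₀, ha₀, h1⟩ := al_dx hW hv h0
  rw [Al.unique hW hL ha h1 hh, hL.kx _ ha₀ _ hh, hL.kx _ hv _ hα'.1]

/-- decomposition of the elements without leading term -/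
lemma decomp (hW : Good d W) : ∃ k ∈ W, coeff (Finsupp.single 0 d) k = 0 ∧
    ∀ g ∈ W, coeff (Finsupp.single 0 d) g = 0 → ∃ (c : ℝ) (G v : P2), G ∈ W ∧
      coeff (Finsupp.single 0 d) G = 0 ∧ X 1 * v ∈ W ∧ g = c • k + pderiv 0 G + X 1 * v := by
  rcases Nat.eq_zero_or_pos d with hd | hd
  · refine ⟨0, W.zero_mem, by simp, fun g hg h0 => ?_⟩
    have h1 := hW.td g hg
    rw [hd, Nat.le_zero, totalDegree_eq_zero_iff_eq_C] at h1
    have h2 : g = 0 := by
      rw [hd, Finsupp.single_zero] at h0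
      rw [h1, h0, map_zero]
    exact ⟨0, 0, 0, W.zero_mem, by simp, by simp, by simp [h2]⟩
  · obtain ⟨k, hk, hke⟩ := surj hW (d - 1) (by omega) (Polynomial.X ^ (d - 1)) (by simp)
    have hk0 : coeff (Finsupp.single 0 d) k = 0 := by
      rw [← ev_coeff, hke, Polynomial.coeff_X_pow, if_neg (by omega)]
    refine ⟨k, hk, hk0, fun g hg h0 => ?_⟩
    set c := (ev g).coeff (d - 1) with hc
    have h1 : (ev g - Polynomial.C c * Polynomial.X ^ (d - 1)).natDegree ≤ d - 2 := by
      rw [Polynomial.natDegree_le_iff_coeff_eq_zero]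
      intro i hi
      rw [Polynomial.coeff_sub, Polynomial.coeff_C_mul_X_pow]
      by_cases h2 : i = d - 1
      · rw [if_pos h2, h2, hc, sub_self]
      · rw [if_neg h2, sub_zero]
        by_cases h3 : i = d
        · rw [h3, ev_coeff, h0]
        · exact Polynomial.coeff_eq_zero_of_natDegree_lt
            (lt_of_le_of_lt (td_ev (hW.td g hg)) (by omega))
    -- antiderivative
    obtain ⟨P, hP1, hP2⟩ : ∃ P : Polynomial ℝ, P.natDegree ≤ d - 1 ∧
        Polynomial.derivative P = ev g - Polynomial.C c * Polynomial.X ^ (d - 1) := by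
      set q := ev g - Polynomial.C c * Polynomial.X ^ (d - 1) with hq
      by_cases hd1 : d = 1
      · have hq0 : q = 0 := by
          have h2 : q = Polynomial.C (q.coeff 0) :=
            Polynomial.eq_C_of_natDegree_le_zero (by omega)
          rw [h2, hq, Polynomial.coeff_sub, hd1]
          simp [hc, hd1]
        exact ⟨0, by simp, by rw [hq0]; simp⟩
      refine ⟨∑ i ∈ range (d - 1), Polynomial.C (q.coeff i / (i + 1)) * Polynomial.X ^ (i + 1),
        Polynomial.natDegree_sum_le_of_forall_le _ _ fun i hi => ?_, ?_⟩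
      · rw [mem_range] at hi
        exact (Polynomial.natDegree_C_mul_X_pow_le _ _).trans (by omega)
      · rw [Polynomial.derivative_sum]
        conv_rhs => rw [q.as_sum_range' (d - 1) (by omega)]
        refine sum_congr rfl fun i _ => ?_
        rw [Polynomial.derivative_C_mul_X_pow, ← Polynomial.C_mul_X_pow_eq_monomial]
        congr 2
        push_cast
        field_simp
    obtain ⟨G, hG, hGe⟩ := surj hW (d - 1) (by omega) P hP1
    have hG0 : coeff (Finsupp.single 0 d) G = 0 := by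
      rw [← ev_coeff, hGe]
      exact Polynomial.coeff_eq_zero_of_natDegree_lt (by omega)
    have h3 : ev (g - c • k - pderiv 0 G) = 0 := by
      rw [map_sub, map_sub, map_smul, ev_pderiv, hGe, hP2, hke, Polynomial.smul_eq_C_mul]
      ring
    obtain ⟨v, hv, e⟩ := div_mem hW (W.sub_mem (W.sub_mem hg (W.smul_mem c hk)) (hW.dx _ hG)) h3
    refine ⟨c, G, v, hG, hG0, ?_, ?_⟩
    · rw [← e]
      exact W.sub_mem (W.sub_mem hg (W.smul_mem c hk)) (hW.dx _ hG)
    · rw [← e]
      ring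

lemma om_all (hW : Good d W) (hL : Fun W L) {g h : P2} (hg : g ∈ W) (hh : h ∈ W)
    (hg0 : coeff (Finsupp.single 0 d) g = 0) (hh0 : coeff (Finsupp.single 0 d) h = 0) :
    Om W L g h := by
  obtain ⟨k, hk, hk0, hdec⟩ := decomp hW
  have key : ∀ g ∈ W, coeff (Finsupp.single 0 d) g = 0 → ∀ h ∈ W,
      coeff (Finsupp.single 0 d) h = 0 → Om W L k h → Om W L g h := by
    intro g hg hg0 h hh hh0 hkh
    obtain ⟨c, G, v, hG, hG0, hv, rfl⟩ := hdec g hg hg0
    have a1 : ∃ α, Al W (c • k) α := by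
      obtain ⟨α, ha⟩ := exists_al hW hk hk0
      exact ⟨_, ha.smul c⟩
    have a2 : ∃ α, Al W (pderiv 0 G) α := by
      obtain ⟨α₀, _, h1⟩ := al_dx hW hG hG0
      exact ⟨_, h1⟩
    have a3 : ∃ α, Al W (X 1 * v) α := ⟨X 0 * v, mulx hW hv, 0, W.zero_mem, by ring⟩
    have o1 := Om.smul hW hL c hkh (exists_al hW hk hk0) hh
    have o2 := om_x hW hL hG hG0 hh
    have o3 := om_y hW hL hv hh
    have a12 : ∃ α, Al W (c • k + pderiv 0 G) α := by
      obtain ⟨α₁, e1⟩ := a1
      obtain ⟨α₂, e2⟩ := a2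
      exact ⟨_, e1.add e2⟩
    exact Om.add hW hL (Om.add hW hL o1 o2 a1 a2 hh) o3 a12 a3 hh
  refine key g hg hg0 h hh hh0 (Om.symm ?_)
  exact key h hh hh0 k hk hk0 (Om.self hW hL hk)

end Pool.Agent.Q107.HG
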