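import Pool.Agent.Q107.HG.Sp

/-!
# The products of a good space
-/

set_option autoImplicit false

namespace Pool.Agent.Q107.HG

open Finset MvPolynomial
open Pool.Agent.Q107.HF (P2 td_le td_mul_le)

/-- the products which can be multiplied by `y` -/
noncomputable def Rr (d : ℕ) (W : Submodule ℝ P2) : Submodule ℝ P2 :=
  Submodule.span ℝ ({v | ∃ g ∈ W, ∃ h, X 1 * h ∈ W ∧ v = g * h} ∪
    {v | ∃ g ∈ W, ∃ h ∈ W, coeff (Finsupp.single 0 d) g = 0 ∧ coeff (Finsupp.single 0 d) h = 0 ∧
      ∃ α α', Al W g α ∧ Al W h α' ∧ v = g * α' - α * h})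

variable {d : ℕ} {W : Submodule ℝ P2} {L : P2 →ₗ[ℝ] ℝ}

lemma Rr_le (hW : Good d W) : Rr d W ≤ Sq W := by
  refine Submodule.span_le.2 ?_
  rintro v (⟨g, hg, h, hh, rfl⟩ | ⟨g, hg, h, hh, -, -, α, α', ha, ha', rfl⟩)
  · exact mul_mem_Sq hg (hW.sat _ hh)
  · exact (Sq W).sub_mem (mul_mem_Sq hg ha'.1) (mul_mem_Sq ha.1 hh)

lemma Rr_y : ∀ v ∈ Rr d W, X 1 * v ∈ Sq W := by
  intro v hv
  induction hv using Submodule.span_induction with
  | mem v hv =>
    rcases hv with ⟨g, hg, h, hh, rfl⟩ | ⟨g, hg, h, hh, -, -, α, α', ⟨-, β, hb, e⟩,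
      ⟨-, β', hb', e'⟩, rfl⟩
    · have : X 1 * (g * h) = g * (X 1 * h) := by ring
      rw [this]
      exact mul_mem_Sq hg hh
    · have : X 1 * (g * α' - α * h) = β * h - g * β' := by
        linear_combination (-g) * e' + h * e
      rw [this]
      exact (Sq W).sub_mem (mul_mem_Sq hb hh) (mul_mem_Sq hg hb')
  | zero => simp
  | add x y _ _ hx hy => rw [mul_add]; exact (Sq W).add_mem hx hy
  | smul a x _ hx => rw [mul_smul_comm]; exact (Sq W).smul_mem _ hx

lemma Rr_L (hW : Good d W) (hL : Fun W L) : ∀ v ∈ Rr d W, L v = 0 := by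
  intro v hv
  induction hv using Submodule.span_induction with
  | mem v hv =>
    rcases hv with ⟨g, hg, h, hh, rfl⟩ | ⟨g, hg, h, hh, hg0, hh0, α, α', ha, ha', rfl⟩
    · rw [mul_comm]
      exact ker_one hW hL hh hg
    · rw [map_sub, om_all hW hL hg hh hg0 hh0 α α' ha ha', sub_self]
  | zero => simp
  | add x y _ _ hx hy => rw [map_add, hx, hy, add_zero]
  | smul a x _ hx => rw [map_smul, hx, smul_zero]

/-- linear extension -/
noncomputable def lin (e : ℕ → P2) : Polynomial ℝ →ₗ[ℝ] P2 :=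
  Polynomial.lsum fun k => (LinearMap.toSpanSingleton ℝ P2 (e k))

lemma lin_monomial (e : ℕ → P2) (k : ℕ) (a : ℝ) : lin e (Polynomial.C a * Polynomial.X ^ k) =
    a • e k := by
  rw [lin, Polynomial.C_mul_X_pow_eq_monomial, Polynomial.lsum_apply,
    Polynomial.sum_monomial_index _ _ (by simp)]
  simp

theorem nf (hW : Good d W) : ∃ μ : ℕ → P2, ∀ u ∈ Sq W, ∃ r ∈ Rr d W,
    u = lin μ (ev u) + X 1 * r := by
  have hs : ∀ k, ∃ w, k ≤ d → w ∈ W ∧ ev w = Polynomial.X ^ k := by
    intro k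
    by_cases hk : k ≤ d
    · obtain ⟨w, h1, h2⟩ := surj hW k hk (Polynomial.X ^ k) (by simp)
      exact ⟨w, fun _ => ⟨h1, h2⟩⟩
    · exact ⟨0, fun h => absurd h hk⟩
  choose e he using hs
  set Y : Submodule ℝ P2 := (Rr d W).map (LinearMap.mulLeft ℝ (X 1 : P2)) with hY
  have memY : ∀ x, x ∈ Y ↔ ∃ r ∈ Rr d W, X 1 * r = x := fun x => Iff.rfl
  have hgy : ∀ g ∈ W, ∀ h, X 1 * h ∈ W → X 1 * (g * h) ∈ Y := fun g hg h hh =>
    (memY _).2 ⟨g * h, Submodule.subset_span (Or.inl ⟨g, hg, h, hh, rfl⟩), rfl⟩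
  have hc0 : ∀ k < d, coeff (Finsupp.single 0 d) (e k) = 0 := by
    intro k hk
    rw [← ev_coeff, (he k hk.le).2, Polynomial.coeff_X_pow, if_neg (by omega)]
  -- shifting
  have hB : ∀ i j, i < d → j < d → e (i + 1) * e j - e i * e (j + 1) ∈ Y := by
    intro i j hi hj
    have hup : ∀ k < d, ∃ α c, Al W (e k) α ∧ X 1 * c ∈ W ∧
        X 0 * e k = X 1 * α + (e (k + 1) + X 1 * c) := by
      intro k hk
      obtain ⟨α, ha, β, hb, eq⟩ := hW.shift _ (he k hk.le).1 (hc0 k hk)
      have h1 : ev (β - e (k + 1)) = 0 := by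
        have h2 := congrArg ev eq
        rw [map_mul, map_add, map_mul, ev_X0, ev_X1, zero_mul, zero_add, (he k hk.le).2] at h2
        rw [map_sub, ← h2, (he (k + 1) (by omega)).2, pow_succ']
        ring
      obtain ⟨c, hc, e1⟩ := div_mem hW (W.sub_mem hb (he (k + 1) (by omega)).1) h1
      refine ⟨α, c, ⟨ha, β, hb, eq⟩, ?_, ?_⟩
      · rw [← e1]
        exact W.sub_mem hb (he (k + 1) (by omega)).1
      · rw [eq, ← e1]
        ring
    obtain ⟨α, c, ha, hc, e1⟩ := hup i hi
    obtain ⟨α', c', ha', hc', e2⟩ := hup j hj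
    have h1 : X 1 * (e i * α' - α * e j) ∈ Y := (memY _).2 ⟨_, Submodule.subset_span
      (Or.inr ⟨e i, (he i hi.le).1, e j, (he j hj.le).1, hc0 i hi, hc0 j hj, α, α', ha, ha', rfl⟩),
      rfl⟩
    have h2 := hgy _ (he j hj.le).1 _ hc
    have h3 := hgy _ (he i hi.le).1 _ hc'
    have e3 : e (i + 1) * e j - e i * e (j + 1) =
        X 1 * (e i * α' - α * e j) - X 1 * (e j * c) + X 1 * (e i * c') := by
      linear_combination (-e j) * e1 + e i * e2
    rw [e3]
    exact Y.add_mem (Y.sub_mem h1 h2) h3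
  set μ : ℕ → P2 := fun k => e (min k d) * e (k - min k d) with hμ
  have hC : ∀ j ≤ d, ∀ i ≤ d, e i * e j - μ (i + j) ∈ Y := by
    intro j
    induction j with
    | zero =>
      intro _ i hi
      have : μ (i + 0) = e i * e 0 := by
        simp only [hμ, add_zero, min_eq_left hi, Nat.sub_self]
      rw [this, sub_self]
      exact Y.zero_mem
    | succ j ih =>
      intro hj i hi
      by_cases hid : i = d
      · have : μ (i + (j + 1)) = e i * e (j + 1) := by
          simp only [hμ, hid]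
          rw [min_eq_right (by omega), Nat.add_sub_cancel_left]
        rw [this, sub_self]
        exact Y.zero_mem
      · have h1 := hB i j (by omega) (by omega)
        have h2 := ih (by omega) (i + 1) (by omega)
        have e1 : i + 1 + j = i + (j + 1) := by omega
        rw [e1] at h2
        have e2 : e i * e (j + 1) - μ (i + (j + 1)) = (e (i + 1) * e j - μ (i + (j + 1))) -
            (e (i + 1) * e j - e i * e (j + 1)) := by ring
        rw [e2]
        exact Y.sub_mem h2 h1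
  -- polynomials
  have hE : ∀ p : Polynomial ℝ, p.natDegree ≤ d → lin e p ∈ W ∧ ev (lin e p) = p := by
    intro p hp
    refine Polynomial.induction_with_natDegree_le
      (fun p => lin e p ∈ W ∧ ev (lin e p) = p) d ?_ ?_ ?_ p hp
    · simp
    · intro n r _ hn
      rw [lin_monomial, map_smul, (he n hn).2, Polynomial.smul_eq_C_mul]
      exact ⟨W.smul_mem _ (he n hn).1, rfl⟩
    · intro f g _ _ hf hg
      rw [map_add, map_add, hf.2, hg.2]
      exact ⟨W.add_mem hf.1 hg.1, rfl⟩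
  have hD : ∀ p q : Polynomial ℝ, p.natDegree ≤ d → q.natDegree ≤ d →
      lin e p * lin e q - lin μ (p * q) ∈ Y := by
    intro p q hp hq
    refine Polynomial.induction_with_natDegree_le
      (fun p => lin e p * lin e q - lin μ (p * q) ∈ Y) d ?_ ?_ ?_ p hp
    · simp
    · intro n r _ hn
      refine Polynomial.induction_with_natDegree_le
        (fun q => lin e (Polynomial.C r * Polynomial.X ^ n) * lin e q -
          lin μ (Polynomial.C r * Polynomial.X ^ n * q) ∈ Y) d ?_ ?_ ?_ q hq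
      · simp
      · intro m t _ hm
        have e1 : Polynomial.C r * Polynomial.X ^ n * (Polynomial.C t * Polynomial.X ^ m) =
            Polynomial.C (r * t) * Polynomial.X ^ (n + m) := by
          rw [map_mul, pow_add]
          ring
        rw [e1, lin_monomial, lin_monomial, lin_monomial, smul_mul_smul_comm, ← smul_sub]
        exact Y.smul_mem _ (hC m hm n hn)
      · intro f g _ _ hf hg
        rw [map_add, mul_add, mul_add, map_add]
        have := Y.add_mem hf hg
        have e1 : lin e (Polynomial.C r * Polynomial.X ^ n) * lin e f +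
            lin e (Polynomial.C r * Polynomial.X ^ n) * lin e g -
            (lin μ (Polynomial.C r * Polynomial.X ^ n * f) +
              lin μ (Polynomial.C r * Polynomial.X ^ n * g)) =
            (lin e (Polynomial.C r * Polynomial.X ^ n) * lin e f -
              lin μ (Polynomial.C r * Polynomial.X ^ n * f)) +
            (lin e (Polynomial.C r * Polynomial.X ^ n) * lin e g -
              lin μ (Polynomial.C r * Polynomial.X ^ n * g)) := by ring
        rw [e1]
        exact this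
    · intro f g _ _ hf hg
      rw [map_add, add_mul, add_mul, map_add]
      have := Y.add_mem hf hg
      have e1 : lin e f * lin e q + lin e g * lin e q - (lin μ (f * q) + lin μ (g * q)) =
          (lin e f * lin e q - lin μ (f * q)) + (lin e g * lin e q - lin μ (g * q)) := by ring
      rw [e1]
      exact this
  refine ⟨μ, ?_⟩
  suffices h : ∀ u ∈ Sq W, u - lin μ (ev u) ∈ Y by
    intro u hu
    obtain ⟨r, hr, e1⟩ := (memY _).1 (h u hu)
    exact ⟨r, hr, by rw [e1]; ring⟩
  intro u hu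
  induction hu using Submodule.span_induction with
  | mem u hu =>
    obtain ⟨g, hg, h, hh, rfl⟩ := hu
    have hg' := hE (ev g) (td_ev (hW.td g hg))
    have hh' := hE (ev h) (td_ev (hW.td h hh))
    obtain ⟨v, _, e1⟩ := div_mem hW (W.sub_mem hg hg'.1) (by rw [map_sub, hg'.2, sub_self])
    obtain ⟨w, _, e2⟩ := div_mem hW (W.sub_mem hh hh'.1) (by rw [map_sub, hh'.2, sub_self])
    have hv : X 1 * v ∈ W := by rw [← e1]; exact W.sub_mem hg hg'.1
    have hw : X 1 * w ∈ W := by rw [← e2]; exact W.sub_mem hh hh'.1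
    have h1 := hgy _ hh _ hv
    have h2 := hgy _ hg'.1 _ hw
    have h3 := hD _ _ (td_ev (hW.td g hg)) (td_ev (hW.td h hh))
    rw [map_mul]
    have e3 : g * h - lin μ (ev g * ev h) = X 1 * (h * v) + X 1 * (lin e (ev g) * w) +
        (lin e (ev g) * lin e (ev h) - lin μ (ev g * ev h)) := by
      linear_combination h * e1 + lin e (ev g) * e2
    rw [e3]
    exact Y.add_mem (Y.add_mem h1 h2) h3
  | zero => simp
  | add x y _ _ hx hy =>
    rw [map_add, map_add]
    have := Y.add_mem hx hy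
    have e1 : x + y - (lin μ (ev x) + lin μ (ev y)) = (x - lin μ (ev x)) + (y - lin μ (ev y)) := by
      ring
    rw [e1]
    exact this
  | smul a x _ hx =>
    rw [map_smul, map_smul, ← smul_sub]
    exact Y.smul_mem _ hx

/-- **Saturation of the products.** -/
theorem sat_Sq (hW : Good d W) {v : P2} (hv : X 1 * v ∈ Sq W) : v ∈ Rr d W := by
  obtain ⟨μ, h⟩ := nf hW
  obtain ⟨r, hr, e⟩ := h _ hv
  rw [map_mul, ev_X1, zero_mul, map_zero, zero_add] at e
  have := mul_left_cancel₀ (X_ne_zero (R := ℝ) (1 : Fin 2)) e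
  rwa [this]

/-- polynomials in `y` of degree at most `m` with coefficients in `U` -/
noncomputable def Up (U : Submodule ℝ P2) : ℕ → Submodule ℝ P2
  | 0 => U
  | (m + 1) => Up U m ⊔ U.map (LinearMap.mulLeft ℝ (X 1 ^ (m + 1) : P2))

variable {U : Submodule ℝ P2}

lemma mem_Up_succ {m : ℕ} {v : P2} : v ∈ Up U (m + 1) ↔
    ∃ a ∈ Up U m, ∃ u ∈ U, v = a + X 1 ^ (m + 1) * u := by
  rw [Up, Submodule.mem_sup]
  constructor
  · rintro ⟨a, ha, b, ⟨u, hu, rfl⟩, rfl⟩
    exact ⟨a, ha, u, hu, rfl⟩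
  · rintro ⟨a, ha, u, hu, rfl⟩
    exact ⟨a, ha, _, ⟨u, hu, rfl⟩, rfl⟩

lemma Up_mono {m n : ℕ} (h : m ≤ n) : Up U m ≤ Up U n := by
  induction n, h using Nat.le_induction with
  | base => exact le_rfl
  | succ n _ ih => exact ih.trans le_sup_left

lemma pow_mem_Up {k m : ℕ} (hk : k ≤ m) {u : P2} (hu : u ∈ U) : X 1 ^ k * u ∈ Up U m := by
  refine Up_mono hk ?_
  cases k with
  | zero => rw [pow_zero, one_mul]; exact hu
  | succ k => exact mem_Up_succ.2 ⟨0, (Up U k).zero_mem, u, hu, by simp⟩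

lemma Up_low {m : ℕ} : ∀ v ∈ Up U (m + 1), ∃ u ∈ U, ∃ b ∈ Up U m, v = u + X 1 * b := by
  induction m with
  | zero =>
    intro v hv
    obtain ⟨a, ha, u, hu, rfl⟩ := mem_Up_succ.1 hv
    exact ⟨a, ha, u, hu, by ring⟩
  | succ m ih =>
    intro v hv
    obtain ⟨a, ha, u, hu, rfl⟩ := mem_Up_succ.1 hv
    obtain ⟨u', hu', b, hb, rfl⟩ := ih a ha
    exact ⟨u', hu', b + X 1 ^ (m + 1) * u, mem_Up_succ.2 ⟨b, hb, u, hu, rfl⟩, by ring⟩

lemma Up_shift {m k : ℕ} : ∀ v ∈ Up U m, X 1 ^ k * v ∈ Up U (m + k) := by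
  induction m with
  | zero =>
    intro v hv
    exact pow_mem_Up (by omega) hv
  | succ m ih =>
    intro v hv
    obtain ⟨a, ha, u, hu, rfl⟩ := mem_Up_succ.1 hv
    rw [mul_add, ← mul_assoc, ← pow_add]
    exact (Up U _).add_mem (Up_mono (by omega) (ih a ha)) (pow_mem_Up (by omega) hu)

lemma Up_mul_mem {m : ℕ} {V : Submodule ℝ P2} {g : P2} (hg : ∀ h ∈ U, g * h ∈ V) :
    ∀ v ∈ Up U m, g * v ∈ Up V m := by
  induction m with
  | zero => intro v hv; exact hg v hv
  | succ m ih =>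
    intro v hv
    obtain ⟨a, ha, u, hu, rfl⟩ := mem_Up_succ.1 hv
    refine mem_Up_succ.2 ⟨g * a, ih a ha, g * u, hg u hu, by ring⟩

lemma Up_mul {m n : ℕ} {W : Submodule ℝ P2} : ∀ v ∈ Up W m, ∀ w ∈ Up W n,
    v * w ∈ Up (Sq W) (m + n) := by
  induction m with
  | zero =>
    intro v hv w hw
    rw [zero_add]
    exact Up_mul_mem (fun h hh => mul_mem_Sq hv hh) w hw
  | succ m ih =>
    intro v hv w hw
    obtain ⟨a, ha, u, hu, rfl⟩ := mem_Up_succ.1 hv
    rw [add_mul]
    refine (Up _ _).add_mem (Up_mono (by omega) (ih a ha w hw)) ?_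
    have h1 := Up_shift (k := m + 1) _ (Up_mul_mem (fun h hh => mul_mem_Sq hu hh) w hw)
    have e : X 1 ^ (m + 1) * u * w = X 1 ^ (m + 1) * (u * w) := by ring
    rw [e]
    exact Up_mono (by omega) h1

/-- **The top coefficient.** -/
theorem lead_mem (hW : Good d W) : ∀ (m : ℕ) (u : P2), u ∈ Sq W →
    X 1 ^ (m + 1) * u ∈ Up (Sq W) m → u ∈ Rr d W := by
  intro m
  induction m with
  | zero =>
    intro u _ h
    rw [zero_add, pow_one] at h
    exact sat_Sq hW h
  | succ m ih =>
    intro u hu h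
    obtain ⟨a, ha, b, hb, e⟩ := Up_low _ h
    have h1 : X 1 * (X 1 ^ (m + 1) * u - b) ∈ Sq W := by
      have : X 1 * (X 1 ^ (m + 1) * u - b) = a := by linear_combination e
      rw [this]
      exact ha
    have h2 := Rr_le hW (sat_Sq hW h1)
    refine ih u hu ?_
    have h3 := (Up (Sq W) m).add_mem (Up_mono (Nat.zero_le m) (show _ ∈ Up (Sq W) 0 from h2)) hb
    rwa [sub_add_cancel] at h3

end Pool.Agent.Q107.HG
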